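import Pool.Agent.GGap.St

/-!
# The growth gap: traces of permutations (module GG_CHI)
-/

set_option autoImplicit false

open CategoryTheory MonoidalCategory BraidedCategory Limits

universe v u

namespace MotP.GGap

open Mot

noncomputable section

variable (C : Type u) [Category.{v} C] [Preadditive C] [Linear ℚ C] [MonoidalCategory C]
  [SymmetricCategory C] [MonoidalPreadditive C] [MonoidalLinear ℚ C] [RightRigidCategory C]

namespace CHI

variable {C}

lemma val_whisker (W : Fr C) (Y X : C) (f : Y ⟶ Y) :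
    W.val (tr (Y ⊗ X) (f ▷ X)) = W.val (tr X (𝟙 X)) * W.val (tr Y f) := by
  rw [← tensorHom_id, W.tr_tensor, W.val_smul]

lemma val_unit_zero (W : Fr C) (X : C) : W.val (tr (T X 0) (𝟙 (T X 0))) = 1 := by
  have h : tr (T X 0) (𝟙 (T X 0)) = 𝟙 (𝟙_ C) := Fr.tr_unit
  rw [h]
  exact W.val_id

lemma val_pow (W : Fr C) (X : C) (n : ℕ) :
    W.val (tr (T X n) (𝟙 (T X n))) = (W.val (tr X (𝟙 X))) ^ n := by
  induction n with
  | zero => rw [val_unit_zero, pow_zero]
  | succ n ih =>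
    have h : W.val (tr (T X (n + 1)) (𝟙 (T X (n + 1)))) =
        W.val (tr (T X n ⊗ X) ((𝟙 (T X n)) ▷ X)) := by
      rw [id_whiskerRight]
      rfl
    rw [h, val_whisker, ih, pow_succ]
    ring

lemma val_class (W : Fr C) (X : C) (R : PermAct X) (n : ℕ) (σ τ : Equiv.Perm (Fin n)) :
    W.val (tr (T X n) (R.ρ n (σ * τ))) = W.val (tr (T X n) (R.ρ n (τ * σ))) := by
  rw [R.mul, R.mul, tr_comm]

lemma val_up (W : Fr C) (X : C) (R : PermAct X) (n : ℕ) (σ : Equiv.Perm (Fin n)) :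
    W.val (tr (T X (n + 1)) (R.ρ (n + 1) (up σ))) =
      W.val (tr X (𝟙 X)) * W.val (tr (T X n) (R.ρ n σ)) := by
  rw [R.up]
  exact val_whisker W (T X n) X (R.ρ n σ)

lemma tr_swap_one {P X : C} (A : P ⊗ X ⟶ P ⊗ X) :
    tr ((P ⊗ X) ⊗ X) (A ▷ X ≫ sw P X) = tr (P ⊗ X) A := by
  have h := tr_swap A (𝟙 X)
  rw [MonoidalCategory.whiskerLeft_id, Category.comp_id, MonoidalCategory.whiskerLeft_id,
    Category.comp_id] at h
  exact h

lemma val_last (W : Fr C) (X : C) (R : PermAct X) (n : ℕ) (σ : Equiv.Perm (Fin (n + 1))) :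
    W.val (tr (T X (n + 2)) (R.ρ (n + 2)
      (up σ * Equiv.swap (Fin.last n).castSucc (Fin.last (n + 1))))) =
      W.val (tr (T X (n + 1)) (R.ρ (n + 1) σ)) := by
  have h2 := tr_swap_one (P := T X n) (X := X) (R.ρ (n + 1) σ)
  rw [R.mul, tr_comm, R.up, R.last]
  exact congrArg W.val h2

end CHI

theorem t_CHI : M_CHI C := by
  intro hG W X R n
  refine ⟨?_, CHI.val_pow W X n⟩
  exact hG (W.val (tr X (𝟙 X))) (fun n σ => W.val (tr (T X n) (R.ρ n σ)))
    (by
      rw [R.one]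
      exact CHI.val_unit_zero W X)
    (fun n σ τ => CHI.val_class W X R n σ τ)
    (fun n σ => CHI.val_up W X R n σ)
    (fun n σ => CHI.val_last W X R n σ) n

end

end MotP.GGap
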