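import Pool.Agent.GGap.St

/-!
# Module COP: binomial multiplicities
-/

set_option autoImplicit false

open CategoryTheory MonoidalCategory BraidedCategory Limits

universe v u

namespace MotP.GGap

open Mot

noncomputable section

set_option linter.unusedSectionVars false

variable {C : Type u} [Category.{v} C] [Preadditive C] [Linear ℚ C] [MonoidalCategory C]
  [SymmetricCategory C] [MonoidalPreadditive C] [MonoidalLinear ℚ C] [RightRigidCategory C]

namespace COP

/-- `Z` occurs as a direct summand of `X`, with copies indexed by `ι`. -/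
def CpI (ι : Type) (Z X : C) : Prop :=
  ∃ (i : ι → (Z ⟶ X)) (p : ι → (X ⟶ Z)), (∀ s, i s ≫ p s = 𝟙 Z) ∧
    ∀ s t, s ≠ t → i s ≫ p t = 0

lemma cp_iff (c : ℕ) (Z X : C) : Cp c Z X ↔ CpI (Fin c) Z X := Iff.rfl

lemma CpI.equiv {ι κ : Type} (e : κ ≃ ι) {Z X : C} (h : CpI ι Z X) : CpI κ Z X := by
  obtain ⟨i, p, h1, h2⟩ := h
  exact ⟨fun s => i (e s), fun s => p (e s), fun s => h1 _,
    fun s t hst => h2 _ _ (fun h => hst (e.injective h))⟩

lemma CpI.comp {ι κ : Type} {X Y Z : C} (h : CpI ι Y X) (h' : CpI κ Z Y) :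
    CpI (ι × κ) Z X := by
  obtain ⟨i, p, h1, h2⟩ := h
  obtain ⟨j, q, h3, h4⟩ := h'
  refine ⟨fun s => j s.2 ≫ i s.1, fun s => p s.1 ≫ q s.2, ?_, ?_⟩
  · rintro ⟨s, t⟩
    simp only [Category.assoc]
    rw [← Category.assoc (i s), h1, Category.id_comp, h3]
  · rintro ⟨s, t⟩ ⟨s', t'⟩ hst
    simp only [Category.assoc]
    rw [← Category.assoc (i s)]
    by_cases hs : s = s'
    · subst hs
      rw [h1, Category.id_comp]
      apply h4
      rintro rfl
      exact hst rfl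
    · rw [h2 _ _ hs, zero_comp, comp_zero]

lemma CpI.sum {ι κ : Type} {X A B Z : C} (O : Orth X A B) (h : CpI ι Z A) (h' : CpI κ Z B) :
    CpI (ι ⊕ κ) Z X := by
  obtain ⟨i, p, h1, h2⟩ := h
  obtain ⟨j, q, h3, h4⟩ := h'
  refine ⟨Sum.elim (fun s => i s ≫ O.i) (fun s => j s ≫ O.j),
    Sum.elim (fun s => O.p ≫ p s) (fun s => O.q ≫ q s), ?_, ?_⟩
  · rintro (s | s)
    · simp only [Sum.elim_inl, Category.assoc]
      rw [← Category.assoc O.i, O.ip, Category.id_comp, h1]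
    · simp only [Sum.elim_inr, Category.assoc]
      rw [← Category.assoc O.j, O.jq, Category.id_comp, h3]
  · rintro (s | s) (t | t) hst
    · simp only [Sum.elim_inl, Category.assoc]
      rw [← Category.assoc O.i, O.ip, Category.id_comp]
      apply h2
      rintro rfl
      exact hst rfl
    · simp only [Sum.elim_inl, Sum.elim_inr, Category.assoc]
      rw [← Category.assoc O.i, O.iq, zero_comp, comp_zero]
    · simp only [Sum.elim_inl, Sum.elim_inr, Category.assoc]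
      rw [← Category.assoc O.j, O.jp, zero_comp, comp_zero]
    · simp only [Sum.elim_inr, Category.assoc]
      rw [← Category.assoc O.j, O.jq, Category.id_comp]
      apply h4
      rintro rfl
      exact hst rfl

lemma CpI.of_retract {X Y : C} (i : Y ⟶ X) (p : X ⟶ Y) (h : i ≫ p = 𝟙 Y) : CpI (Fin 1) Y X :=
  ⟨fun _ => i, fun _ => p, fun _ => h, fun s t hst => absurd (Subsingleton.elim s t) hst⟩

lemma CpI.retract {ι : Type} {X Y Z : C} (h : CpI ι Y X) (i : Z ⟶ Y) (p : Y ⟶ Z)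
    (hi : i ≫ p = 𝟙 Z) : CpI ι Z X :=
  (CpI.comp h (CpI.of_retract i p hi)).equiv (Equiv.prodUnique ι (Fin 1)).symm

lemma CpI.iso {ι : Type} {X Y Z : C} (h : CpI ι Y X) (e : Z ≅ Y) : CpI ι Z X :=
  h.retract e.hom e.inv e.hom_inv_id

lemma CpI.left {ι : Type} {X Y : C} (h : CpI ι Y X) (Z : C) : CpI ι (Z ⊗ Y) (Z ⊗ X) := by
  obtain ⟨i, p, h1, h2⟩ := h
  refine ⟨fun s => Z ◁ i s, fun s => Z ◁ p s, ?_, ?_⟩
  · intro s
    rw [← MonoidalCategory.whiskerLeft_comp, h1, MonoidalCategory.whiskerLeft_id]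
  · intro s t hst
    rw [← MonoidalCategory.whiskerLeft_comp, h2 s t hst, MonoidalPreadditive.whiskerLeft_zero]

lemma CpI.right {ι : Type} {X Y : C} (h : CpI ι Y X) (Z : C) : CpI ι (Y ⊗ Z) (X ⊗ Z) := by
  obtain ⟨i, p, h1, h2⟩ := h
  refine ⟨fun s => i s ▷ Z, fun s => p s ▷ Z, ?_, ?_⟩
  · intro s
    rw [← MonoidalCategory.comp_whiskerRight, h1, MonoidalCategory.id_whiskerRight]
  · intro s t hst
    rw [← MonoidalCategory.comp_whiskerRight, h2 s t hst, MonoidalPreadditive.zero_whiskerRight]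

/-- orthogonal summands after tensoring on the left -/
def orthLeft {X A B : C} (O : Orth X A B) (Z : C) : Orth (Z ⊗ X) (Z ⊗ A) (Z ⊗ B) where
  i := Z ◁ O.i
  p := Z ◁ O.p
  j := Z ◁ O.j
  q := Z ◁ O.q
  ip := by rw [← MonoidalCategory.whiskerLeft_comp, O.ip, MonoidalCategory.whiskerLeft_id]
  jq := by rw [← MonoidalCategory.whiskerLeft_comp, O.jq, MonoidalCategory.whiskerLeft_id]
  iq := by rw [← MonoidalCategory.whiskerLeft_comp, O.iq, MonoidalPreadditive.whiskerLeft_zero]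
  jp := by rw [← MonoidalCategory.whiskerLeft_comp, O.jp, MonoidalPreadditive.whiskerLeft_zero]

/-- a retraction on tensor powers -/
lemma retract_T {X Y : C} (i : Y ⟶ X) (p : X ⟶ Y) (h : i ≫ p = 𝟙 Y) (m : ℕ) :
    ∃ (i' : T Y m ⟶ T X m) (p' : T X m ⟶ T Y m), i' ≫ p' = 𝟙 (T Y m) := by
  induction m with
  | zero => exact ⟨𝟙 (𝟙_ C), 𝟙 (𝟙_ C), Category.id_comp _⟩
  | succ m ih =>
    obtain ⟨i', p', h'⟩ := ih
    have h1 : (i' ⊗ₘ i : T Y m ⊗ Y ⟶ T X m ⊗ X) ≫ (p' ⊗ₘ p : T X m ⊗ X ⟶ T Y m ⊗ Y) =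
        𝟙 (T Y m ⊗ Y) := by
      rw [MonoidalCategory.tensorHom_comp_tensorHom, h, h']
      exact MonoidalCategory.id_tensorHom_id _ _
    exact ⟨(i' ⊗ₘ i : T Y m ⊗ Y ⟶ T X m ⊗ X), (p' ⊗ₘ p : T X m ⊗ X ⟶ T Y m ⊗ Y), h1⟩

/-- exchange of the last two factors -/
def isoP (A B P : C) : (A ⊗ P) ⊗ B ≅ (A ⊗ B) ⊗ P :=
  (α_ A P B) ≪≫ whiskerLeftIso A (β_ P B) ≪≫ (α_ A B P).symm

lemma main {X P Y : C} (O : Orth X P Y) (r : ℕ) : ∀ k m : ℕ, k + m = r →
    CpI (Fin (r.choose k)) (T P k ⊗ T Y m) (T X r) := by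
  induction r with
  | zero =>
    intro k m h
    obtain ⟨rfl, rfl⟩ : k = 0 ∧ m = 0 := by omega
    exact (CpI.of_retract (𝟙 (𝟙_ C)) (𝟙 (𝟙_ C)) (Category.id_comp _)).iso (λ_ (𝟙_ C))
  | succ r ih =>
    intro k m h
    rcases k with _ | k
    · obtain rfl : m = r + 1 := by omega
      obtain ⟨i', p', h'⟩ := retract_T O.j O.q O.jq (r + 1)
      have h1 := (CpI.of_retract i' p' h').iso (λ_ (T Y (r + 1)))
      rw [Nat.choose_zero_right]
      exact h1
    · rcases m with _ | m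
      · obtain rfl : k = r := by omega
        obtain ⟨i', p', h'⟩ := retract_T O.i O.p O.ip (k + 1)
        have h1 := (CpI.of_retract i' p' h').iso (ρ_ (T P (k + 1)))
        rw [Nat.choose_self]
        exact h1
      · have h1 : CpI (Fin (r.choose k)) (T P k ⊗ T Y (m + 1)) (T X r) :=
          ih k (m + 1) (by omega)
        have h2 : CpI (Fin (r.choose (k + 1))) (T P (k + 1) ⊗ T Y m) (T X r) :=
          ih (k + 1) m (by omega)
        have h3 : CpI (Fin (r.choose k)) (T P (k + 1) ⊗ T Y (m + 1)) (T X r ⊗ P) :=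
          (h1.right P).iso (isoP (T P k) (T Y (m + 1)) P)
        have h4 : CpI (Fin (r.choose (k + 1))) (T P (k + 1) ⊗ T Y (m + 1)) (T X r ⊗ Y) :=
          (h2.right Y).iso (α_ (T P (k + 1)) (T Y m) Y).symm
        have h5 := CpI.sum (orthLeft O (T X r)) h3 h4
        have h6 : CpI (Fin ((r + 1).choose (k + 1))) (T P (k + 1) ⊗ T Y (m + 1)) (T X r ⊗ X) := by
          rw [Nat.choose_succ_succ]
          exact h5.equiv finSumFinEquiv.symm
        exact h6

end COP

theorem t_COP (C : Type u) [Category.{v} C] [Preadditive C] [Linear ℚ C] [MonoidalCategory C]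
    [SymmetricCategory C] [MonoidalPreadditive C] [MonoidalLinear ℚ C] [RightRigidCategory C] :
    S_COP C := by
  refine ⟨?_, ?_, ?_, ?_⟩
  · intro X P Y O k m
    exact COP.main O (k + m) k m rfl
  · intro X Y i p h m
    obtain ⟨i', p', h'⟩ := COP.retract_T i p h m
    exact COP.CpI.of_retract i' p' h'
  · intro a b X Y Z h h'
    exact (COP.CpI.comp h h').equiv finProdFinEquiv.symm
  · intro a X Y Z h
    exact COP.CpI.left h Z

end

end MotP.GGap
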