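import Pool.Agent.GGap.St

/-!
# CPD: endomorphisms of a direct sum of copies
-/

set_option autoImplicit false

open CategoryTheory MonoidalCategory BraidedCategory Limits

universe v u

namespace MotP.GGap

open Mot

noncomputable section

variable {C : Type u} [Category.{v} C] [Preadditive C] [Linear ℚ C]

namespace CPD

variable {X Z : C} {c : ℕ} (i : Fin c → (Z ⟶ X)) (p : Fin c → (X ⟶ Z))

/-- the matrix of endomorphisms of `Z` as an endomorphism of `X` -/
def lin : (Fin c × Fin c → (Z ⟶ Z)) →ₗ[ℚ] (X ⟶ X) where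
  toFun z := ∑ s : Fin c × Fin c, p s.1 ≫ z s ≫ i s.2
  map_add' x y := by
    rw [← Finset.sum_add_distrib]
    refine Finset.sum_congr rfl fun s _ => ?_
    rw [Pi.add_apply, Preadditive.add_comp, Preadditive.comp_add]
  map_smul' r x := by
    rw [RingHom.id_apply, Finset.smul_sum]
    refine Finset.sum_congr rfl fun s _ => ?_
    rw [Pi.smul_apply, Linear.smul_comp, Linear.comp_smul]

lemma lin_apply (z : Fin c × Fin c → (Z ⟶ Z)) :
    lin i p z = ∑ s : Fin c × Fin c, p s.1 ≫ z s ≫ i s.2 := rfl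

lemma entry (h1 : ∀ s, i s ≫ p s = 𝟙 Z) (h2 : ∀ s t, s ≠ t → i s ≫ p t = 0)
    (z : Fin c × Fin c → (Z ⟶ Z)) (a b : Fin c) : i a ≫ lin i p z ≫ p b = z (a, b) := by
  rw [lin_apply, Preadditive.sum_comp, Preadditive.comp_sum, Finset.sum_eq_single (a, b)]
  · simp only [Category.assoc]
    rw [h1 b, Category.comp_id, ← Category.assoc, h1 a, Category.id_comp]
  · rintro ⟨s, t⟩ - hst
    simp only [Category.assoc]
    by_cases hs : a = s
    · have ht : t ≠ b := by
        rintro rfl
        exact hst (by rw [hs])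
      rw [h2 t b ht, comp_zero, comp_zero, comp_zero]
    · rw [← Category.assoc, h2 a s hs, zero_comp]
  · intro h
    exact absurd (Finset.mem_univ _) h

lemma lin_injective (h1 : ∀ s, i s ≫ p s = 𝟙 Z) (h2 : ∀ s t, s ≠ t → i s ≫ p t = 0) :
    Function.Injective (lin i p) := by
  intro x y h
  funext s
  rw [← entry i p h1 h2 x s.1 s.2, ← entry i p h1 h2 y s.1 s.2, h]

end CPD

variable (C)

theorem t_CPD [MonoidalCategory C] [SymmetricCategory C] [MonoidalPreadditive C]
    [MonoidalLinear ℚ C] [RightRigidCategory C] : S_CPD C := by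
  intro X Z c hc hcp hfin
  obtain ⟨i, p, h1, h2⟩ := hcp
  have hinj := CPD.lin_injective i p h1 h2
  have hp : Module.Finite ℚ (Fin c × Fin c → (Z ⟶ Z)) := Module.Finite.of_injective _ hinj
  have hz : Module.Finite ℚ (Z ⟶ Z) := by
    refine Module.Finite.of_surjective
      (LinearMap.proj (R := ℚ) (φ := fun _ : Fin c × Fin c => (Z ⟶ Z)) (⟨0, hc⟩, ⟨0, hc⟩)) ?_
    exact fun a => ⟨fun _ => a, rfl⟩
  refine ⟨hz, ?_⟩
  have h3 := LinearMap.finrank_le_finrank_of_injective hinj
  have h4 : Module.finrank ℚ (Fin c × Fin c → (Z ⟶ Z)) = c ^ 2 * Module.finrank ℚ (Z ⟶ Z) := by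
    rw [Module.finrank_pi_fintype, Finset.sum_const, Finset.card_univ, Fintype.card_prod,
      Fintype.card_fin, smul_eq_mul, sq]
  rw [← h4]
  exact h3

end

end MotP.GGap
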