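import Pool.Agent.GGap.St

/-!
# The growth gap: even and odd parts
-/

set_option autoImplicit false

open CategoryTheory MonoidalCategory BraidedCategory Limits Polynomial

universe v u

namespace MotP.GGap

open Mot

noncomputable section

set_option linter.unusedSectionVars false

namespace DEC

/-- Fitting decomposition with respect to a polynomial in an element -/
lemma fit {A : Type v} [Ring A] [Algebra ℚ A] [Module.Finite ℚ A] (a : A) (p : ℚ[X]) :
    ∃ (k : ℚ[X]) (N : ℕ), p ∣ k ∧ aeval a (k * k - k) = 0 ∧ minpoly ℚ a ∣ (1 - k) * p ^ N := by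
  set b := aeval a p with hb
  have hint : IsIntegral ℚ b := IsIntegral.of_finite ℚ b
  have hm : minpoly ℚ b ≠ 0 := minpoly.ne_zero hint
  obtain ⟨q, hq, hdvd⟩ := Polynomial.exists_eq_pow_rootMultiplicity_mul_and_not_dvd
    (minpoly ℚ b) hm 0
  rw [Polynomial.C_0, sub_zero] at hq hdvd
  set j := Polynomial.rootMultiplicity 0 (minpoly ℚ b)
  have hcop : IsCoprime ((Polynomial.X : Polynomial ℚ) ^ (j + 1)) q :=
    ((Polynomial.irreducible_X.coprime_iff_not_dvd).mpr hdvd).pow_left
  obtain ⟨c, d, hcd⟩ := hcop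
  have hmu : aeval a ((minpoly ℚ b).comp p) = 0 := by
    rw [aeval_comp, ← hb, minpoly.aeval]
  have hdiv : minpoly ℚ a ∣ (minpoly ℚ b).comp p := minpoly.dvd ℚ a hmu
  have h1k : 1 - (c * Polynomial.X ^ (j + 1)).comp p = (d * q).comp p := by
    have h1 : (d * q) = 1 - c * Polynomial.X ^ (j + 1) := by
      rw [← hcd]
      ring
    rw [h1, sub_comp, one_comp]
  refine ⟨(c * Polynomial.X ^ (j + 1)).comp p, j, ?_, ?_, ?_⟩
  · rw [mul_comp, X_pow_comp, pow_succ]
    exact Dvd.dvd.mul_left (Dvd.intro_left _ rfl) _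
  · have h2 : (c * Polynomial.X ^ (j + 1)).comp p * (c * Polynomial.X ^ (j + 1)).comp p -
        (c * Polynomial.X ^ (j + 1)).comp p =
        -((c * d * Polynomial.X).comp p * (minpoly ℚ b).comp p) := by
      have h3 : (c * Polynomial.X ^ (j + 1)).comp p * (1 - (c * Polynomial.X ^ (j + 1)).comp p) =
          (c * d * Polynomial.X).comp p * (minpoly ℚ b).comp p := by
        rw [h1k, ← mul_comp, ← mul_comp, hq]
        congr 1
        ring
      linear_combination -h3
    rw [h2, map_neg, map_mul, hmu, mul_zero, neg_zero]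
  · rw [h1k]
    have h2 : (d * q).comp p * p ^ j = d.comp p * (minpoly ℚ b).comp p := by
      rw [hq, mul_comp, mul_comp, X_pow_comp]
      ring
    rw [h2]
    exact Dvd.dvd.mul_left hdiv _

variable {C : Type u} [Category.{v} C] [Preadditive C] [Linear ℚ C] [MonoidalCategory C]
  [SymmetricCategory C] [MonoidalPreadditive C] [MonoidalLinear ℚ C] [RightRigidCategory C]

variable (W : Fr C)

lemma tr_poly (X : C) (g : ℚ[X]) :
    (W.val (tr X (aeval (W.FE X) g : End X)) : ℂ) = ∑ z ∈ W.S X, (W.ν X z : ℂ) * aeval z g := by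
  induction g using Polynomial.induction_on' with
  | add p q hp hq =>
    rw [map_add]
    have h1 : tr X ((aeval (W.FE X) p + aeval (W.FE X) q : End X)) =
        tr X (aeval (W.FE X) p : End X) + tr X (aeval (W.FE X) q : End X) := tr_add _ _
    rw [h1, W.val_add]
    push_cast
    rw [hp, hq, ← Finset.sum_add_distrib]
    apply Finset.sum_congr rfl
    intro z _
    rw [map_add]
    ring
  | monomial n a =>
    rw [aeval_monomial, Fr.FE_pow, ← Algebra.smul_def]
    have h1 : tr X ((a • (W.Fp X n : End X) : End X)) = a • tr X (W.Fp X n) := tr_smul _ _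
    rw [h1, W.val_smul]
    push_cast
    have h2 := W.t_formula X n
    unfold Fr.t at h2
    rw [h2, sum_nu, Finset.mul_sum]
    apply Finset.sum_congr rfl
    intro z _
    rw [aeval_monomial]
    unfold Fr.ν
    change _ = _ * ((algebraMap ℚ ℂ a) * z ^ n)
    simp
    ring

lemma mem_of_ν {X : C} {z : ℂ} (h : W.ν X z ≠ 0) : z ∈ W.S X := by
  by_contra h1
  exact h (nu_of_notMem h1)

lemma ν_root {X : C} (hfin : Module.Finite ℚ (X ⟶ X)) {z : ℂ} (h : W.ν X z ≠ 0) :
    aeval z (minpoly ℚ (W.FE X)) = 0 := by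
  have hfin : Module.Finite ℚ (End X) := hfin
  set g := minpoly ℚ (W.FE X) with hg
  have h1 : ∀ n : ℕ, ∑ z ∈ W.S X, ((W.ν X z : ℂ) * aeval z g) * z ^ n = 0 := by
    intro n
    have h2 := tr_poly W X (g * Polynomial.X ^ n)
    have h3 : aeval (W.FE X) (g * Polynomial.X ^ n) = 0 := by
      rw [map_mul, hg, minpoly.aeval, zero_mul]
    rw [h3] at h2
    have h4 : tr X ((0 : End X) : X ⟶ X) = 0 := tr_zero
    rw [h4, W.val_zero] at h2
    rw [Rat.cast_zero] at h2
    rw [h2]
    apply Finset.sum_congr rfl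
    intro z _
    rw [map_mul, map_pow, aeval_X]
    ring
  have h2 := lag (W.S X) _ h1 z (mem_of_ν W h)
  rcases mul_eq_zero.mp h2 with h4 | h4
  · exfalso
    apply h
    exact_mod_cast h4
  · exact h4

lemma ν_integral {X : C} (hfin : Module.Finite ℚ (X ⟶ X)) {z : ℂ} (h : W.ν X z ≠ 0) :
    IsIntegral ℚ z := by
  have hfin' : Module.Finite ℚ (End X) := hfin
  have hint : IsIntegral ℚ (W.FE X) := IsIntegral.of_finite ℚ _
  exact isAlgebraic_iff_isIntegral.mp ⟨minpoly ℚ (W.FE X), minpoly.ne_zero hint,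
    ν_root W hfin h⟩

lemma ν_galois {X : C} (hfin : Module.Finite ℚ (X ⟶ X)) {z w : ℂ} (hz : W.ν X z ≠ 0)
    (hw : aeval w (minpoly ℚ z) = 0) : W.ν X w = W.ν X z :=
  galois (W.α X) (W.β X) (fun g => ⟨_, tr_poly W X g⟩) (fun _ h => ν_integral W hfin h) z w hz hw

/-- the number of elements of a difference of multisets -/
lemma card_sub (a b : Multiset ℂ) : (Multiset.card (a - b) : ℂ) =
    ∑ z ∈ (a + b).toFinset, (((a.count z - b.count z : ℕ)) : ℂ) := by
  classical
  have h1 : Multiset.card (a - b) = ∑ z ∈ (a + b).toFinset, (a - b).count z := by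
    rw [← Multiset.sum_count_eq_card (s := (a + b).toFinset)]
    intro z hz
    rw [Multiset.mem_toFinset, Multiset.mem_add]
    exact Or.inl (Multiset.mem_of_le (Multiset.sub_le_self _ _) hz)
  rw [h1]
  push_cast
  apply Finset.sum_congr rfl
  intro z _
  rw [Multiset.count_sub]

end DEC

open DEC

variable (C : Type u) [Category.{v} C] [Preadditive C] [Linear ℚ C] [MonoidalCategory C]
  [SymmetricCategory C] [MonoidalPreadditive C] [MonoidalLinear ℚ C] [RightRigidCategory C]

theorem t_DEC : S_DEC C := by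
  classical
  intro _ W X hfin0
  have hfin : Module.Finite ℚ (End X) := hfin0
  set Sp := (W.S X).filter (fun z => 0 < W.ν X z) with hSp
  set Sm := (W.S X).filter (fun z => W.ν X z < 0) with hSm
  set gp : ℚ[X] := ∏ z ∈ Sp, minpoly ℚ z with hgp
  set gm : ℚ[X] := ∏ z ∈ Sm, minpoly ℚ z with hgm
  have hgp0 : ∀ z ∈ Sp, aeval z gp = 0 := by
    intro z hz
    rw [hgp, map_prod]
    exact Finset.prod_eq_zero hz (minpoly.aeval ℚ z)
  have hgm0 : ∀ z ∈ Sm, aeval z gm = 0 := by
    intro z hz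
    rw [hgm, map_prod]
    exact Finset.prod_eq_zero hz (minpoly.aeval ℚ z)
  have hcop : IsCoprime gp gm := by
    apply IsCoprime.prod_left
    intro z hz
    apply IsCoprime.prod_right
    intro w hw
    rw [hSp, Finset.mem_filter] at hz
    rw [hSm, Finset.mem_filter] at hw
    have hzi := ν_integral W hfin0 (X := X) (z := z) (by omega)
    have hwi := ν_integral W hfin0 (X := X) (z := w) (by omega)
    have h1 := minpoly.irreducible hzi
    have h2 := minpoly.irreducible hwi
    rw [h1.coprime_iff_not_dvd]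
    intro hd
    have h3 : minpoly ℚ w ∣ minpoly ℚ z := h1.dvd_symm h2 hd
    have h4 : aeval w (minpoly ℚ z) = 0 := by
      obtain ⟨q, hq⟩ := h3
      rw [hq, map_mul, minpoly.aeval, zero_mul]
    have h5 := ν_galois W hfin0 (X := X) (z := z) (w := w) (by omega) h4
    omega
  obtain ⟨kp, Np, hkp1, hkp2, hkp3⟩ := fit (W.FE X) gp
  obtain ⟨km, Nm, hkm1, hkm2, hkm3⟩ := fit (W.FE X) gm
  set ep : End X := aeval (W.FE X) (1 - kp) with hep
  set em : End X := aeval (W.FE X) (1 - km) with hem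
  have hid : ∀ k : ℚ[X], aeval (W.FE X) (k * k - k) = 0 →
      aeval (W.FE X) (1 - k) * aeval (W.FE X) (1 - k) = aeval (W.FE X) (1 - k) := by
    intro k hk
    rw [← map_mul]
    have h1 : (1 - k) * (1 - k) = (1 - k) + (k * k - k) := by ring
    rw [h1, map_add, hk, add_zero]
  have hep2 : ep * ep = ep := hid kp hkp2
  have hem2 : em * em = em := hid km hkm2
  have horth : aeval (W.FE X) ((1 - kp) * (1 - km)) = 0 := by
    obtain ⟨c, d, hcd⟩ := (hcop.pow : IsCoprime (gp ^ Np) (gm ^ Nm))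
    have h1 : minpoly ℚ (W.FE X) ∣ (1 - kp) * (1 - km) := by
      have h2 : (1 - kp) * (1 - km) = c * (1 - km) * ((1 - kp) * gp ^ Np)
          + d * (1 - kp) * ((1 - km) * gm ^ Nm) := by
        linear_combination (-(1 - kp) * (1 - km)) * hcd
      rw [h2]
      exact dvd_add (Dvd.dvd.mul_left hkp3 _) (Dvd.dvd.mul_left hkm3 _)
    obtain ⟨r, hr⟩ := h1
    rw [hr, map_mul, minpoly.aeval, zero_mul]
  have hpm : ep * em = 0 := by
    rw [hep, hem, ← map_mul, horth]
  have hmp : em * ep = 0 := by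
    rw [hep, hem, ← map_mul, mul_comm, horth]
  obtain ⟨A, iA, pA, hA1, hA2⟩ := IsIdempotentComplete.idempotents_split X ep hep2
  obtain ⟨B, iB, pB, hB1, hB2⟩ := IsIdempotentComplete.idempotents_split X em hem2
  -- values at the eigenvalues
  have hval : ∀ (g k : ℚ[X]) (N : ℕ), g ∣ k → minpoly ℚ (W.FE X) ∣ (1 - k) * g ^ N →
      ∀ z : ℂ, W.ν X z ≠ 0 → (aeval z g = 0 → aeval z (1 - k) = 1) ∧
        (aeval z g ≠ 0 → aeval z (1 - k) = 0) := by
    intro g k N h1 h2 z hz
    refine ⟨fun h3 => ?_, fun h3 => ?_⟩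
    · obtain ⟨r, rfl⟩ := h1
      rw [map_sub, map_one, map_mul, h3, zero_mul, sub_zero]
    · obtain ⟨r, hr⟩ := h2
      have h4 := congrArg (aeval z) hr
      rw [map_mul _ (minpoly ℚ (W.FE X)), ν_root W hfin0 hz, zero_mul, map_mul, map_pow] at h4
      rcases mul_eq_zero.mp h4 with h5 | h5
      · exact h5
      · exact absurd h5 (pow_ne_zero _ h3)
  have hcz : ∀ z : ℂ, aeval z gp = 0 → aeval z gm ≠ 0 := by
    intro z h1 h2
    obtain ⟨c, d, hcd⟩ := hcop
    have h3 := congrArg (aeval z) hcd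
    rw [map_add, map_mul, map_mul, h1, h2, mul_zero, mul_zero, add_zero, map_one] at h3
    exact zero_ne_one h3
  have htr : ∀ (Y : C) (i : Y ⟶ X) (p : X ⟶ Y) (g : ℚ[X]), i ≫ p = 𝟙 Y →
      p ≫ i = (aeval (W.FE X) g : End X) →
      (W.val (tr Y (𝟙 Y)) : ℂ) = ∑ z ∈ W.S X, (W.ν X z : ℂ) * aeval z g := by
    intro Y i p g h1 h2
    rw [← h1, tr_comm, h2]
    exact tr_poly W X g
  refine ⟨A, B, ⟨iA, pA, iB, pB, hA1, hB1, ?_, ?_⟩, ?_, ?_⟩
  · have h1 : pA ≫ iA ≫ pB ≫ iB = (0 : X ⟶ X) := by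
      rw [← Category.assoc, hA2, hB2]
      exact hmp
    calc iA ≫ pB = (iA ≫ pA) ≫ iA ≫ pB ≫ (iB ≫ pB) := by
          rw [hA1, hB1, Category.id_comp, Category.comp_id]
      _ = iA ≫ (pA ≫ iA ≫ pB ≫ iB) ≫ pB := by simp only [Category.assoc]
      _ = 0 := by rw [h1, Limits.zero_comp, Limits.comp_zero]
  · have h1 : pB ≫ iB ≫ pA ≫ iA = (0 : X ⟶ X) := by
      rw [← Category.assoc, hA2, hB2]
      exact hpm
    calc iB ≫ pA = (iB ≫ pB) ≫ iB ≫ pA ≫ (iA ≫ pA) := by
          rw [hA1, hB1, Category.id_comp, Category.comp_id]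
      _ = iB ≫ (pB ≫ iB ≫ pA ≫ iA) ≫ pA := by simp only [Category.assoc]
      _ = 0 := by rw [h1, Limits.zero_comp, Limits.comp_zero]
  · have h1 := htr A iA pA (1 - kp) hA1 hA2
    have h2 : ((W.val (tr A (𝟙 A)) : ℚ) : ℂ) = ((W.bp X : ℕ) : ℂ) := by
      rw [h1]
      unfold Fr.bp
      rw [card_sub]
      apply Finset.sum_congr rfl
      intro z hz
      rcases lt_trichotomy (W.ν X z) 0 with h5 | h5 | h5
      · have h6 : aeval z gm = 0 := hgm0 z (Finset.mem_filter.mpr ⟨hz, h5⟩)
        have h7 : (W.α X).count z - (W.β X).count z = 0 := by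
          unfold Fr.ν nu at h5
          omega
        have h8 : aeval z gp ≠ 0 := fun h => hcz z h h6
        rw [h7, (hval gp kp Np hkp1 hkp3 z (by omega)).2 h8]
        simp
      · have h7 : (W.α X).count z - (W.β X).count z = 0 := by
          unfold Fr.ν nu at h5
          omega
        rw [h7, h5]
        simp
      · have h6 : aeval z gp = 0 := hgp0 z (Finset.mem_filter.mpr ⟨hz, h5⟩)
        rw [(hval gp kp Np hkp1 hkp3 z (by omega)).1 h6, mul_one]
        have h9 : W.ν X z = (((W.α X).count z - (W.β X).count z : ℕ) : ℤ) := by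
          unfold Fr.ν nu at h5 ⊢
          omega
        rw [h9]
        simp
    exact_mod_cast h2
  · have h1 := htr B iB pB (1 - km) hB1 hB2
    have h2 : ((W.val (tr B (𝟙 B)) : ℚ) : ℂ) = -((W.bm X : ℕ) : ℂ) := by
      rw [h1]
      unfold Fr.bm
      rw [card_sub, ← Finset.sum_neg_distrib]
      have h0 : (W.β X + W.α X).toFinset = W.S X := by
        unfold Fr.S
        rw [add_comm]
      rw [h0]
      apply Finset.sum_congr rfl
      intro z hz
      rcases lt_trichotomy (W.ν X z) 0 with h5 | h5 | h5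
      · have h6 : aeval z gm = 0 := hgm0 z (Finset.mem_filter.mpr ⟨hz, h5⟩)
        rw [(hval gm km Nm hkm1 hkm3 z (by omega)).1 h6, mul_one]
        have h9 : W.ν X z = -(((W.β X).count z - (W.α X).count z : ℕ) : ℤ) := by
          unfold Fr.ν nu at h5 ⊢
          omega
        rw [h9]
        simp
      · have h7 : (W.β X).count z - (W.α X).count z = 0 := by
          unfold Fr.ν nu at h5
          omega
        rw [h7, h5]
        simp
      · have h6 : aeval z gp = 0 := hgp0 z (Finset.mem_filter.mpr ⟨hz, h5⟩)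
        have h7 : (W.β X).count z - (W.α X).count z = 0 := by
          unfold Fr.ν nu at h5
          omega
        have h8 : aeval z gm ≠ 0 := hcz z h6
        rw [h7, (hval gm km Nm hkm1 hkm3 z (by omega)).2 h8]
        simp
    exact_mod_cast h2

end

end MotP.GGap
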