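import Pool.Agent.GGap.St

/-!
# DIM: the sum of the traces and the dimension of the endomorphism space
-/

set_option autoImplicit false

open CategoryTheory MonoidalCategory BraidedCategory Limits

universe v u

namespace MotP.GGap

open Mot

noncomputable section

set_option linter.unusedSectionVars false

variable {C : Type u} [Category.{v} C] [Preadditive C] [Linear ℚ C] [MonoidalCategory C]
  [SymmetricCategory C] [MonoidalPreadditive C] [MonoidalLinear ℚ C] [RightRigidCategory C]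

namespace DIM

lemma ptr_whisker (Q U : C) (g : U ⟶ U) :
    MotP.ptr (Q ◁ g) = (ρ_ Q).inv ≫ Q ◁ tr U g ≫ (ρ_ Q).hom := by
  unfold MotP.ptr tr trP
  monoidal

lemma val_eq_zero (W : Fr C) (Q U : C) (hQ : 𝟙 Q ≠ 0) (g : U ⟶ U) (h : Q ◁ g = 0) :
    W.val (tr U g) = 0 := by
  have h1 := ptr_whisker Q U g
  rw [h] at h1
  have h2 : MotP.ptr (0 : Q ⊗ U ⟶ Q ⊗ U) = 0 := by
    unfold MotP.ptr
    simp
  rw [h2, W.val_spec (tr U g), MonoidalLinear.whiskerLeft_smul, MonoidalCategory.whiskerLeft_id,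
    Linear.smul_comp, Linear.comp_smul, Category.id_comp, Iso.inv_hom_id] at h1
  exact (smul_eq_zero.mp h1.symm).resolve_right hQ

/-- the linear map `y ↦ Q ◁ y` -/
def L (Q U : C) : (U ⟶ U) →ₗ[ℚ] (Q ⊗ U ⟶ Q ⊗ U) where
  toFun y := Q ◁ y
  map_add' x y := MonoidalPreadditive.whiskerLeft_add x y
  map_smul' r x := MonoidalLinear.whiskerLeft_smul Q r x

/-- the functional `y ↦ val (tr (y ≫ w))` -/
def psi (W : Fr C) (U : C) (w : U ⟶ U) : (U ⟶ U) →ₗ[ℚ] ℚ where
  toFun y := W.val (tr U (y ≫ w))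
  map_add' x y := by rw [Preadditive.add_comp, tr_add, W.val_add]
  map_smul' r x := by rw [Linear.smul_comp, tr_smul, W.val_smul]; rfl

lemma ker_le (W : Fr C) (Q U : C) (hQ : 𝟙 Q ≠ 0) (w : U ⟶ U) :
    LinearMap.ker (L Q U) ≤ LinearMap.ker (psi W U w) := by
  intro y hy
  have h1 : Q ◁ y = 0 := hy
  apply val_eq_zero W Q U hQ
  rw [MonoidalCategory.whiskerLeft_comp, h1, zero_comp]

/-- the functional on the range -/
def phi (W : Fr C) (Q U : C) (hQ : 𝟙 Q ≠ 0) (w : U ⟶ U) :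
    LinearMap.range (L Q U) →ₗ[ℚ] ℚ :=
  ((LinearMap.ker (L Q U)).liftQ (psi W U w) (ker_le W Q U hQ w)).comp
    (L Q U).quotKerEquivRange.symm.toLinearMap

lemma phi_apply (W : Fr C) (Q U : C) (hQ : 𝟙 Q ≠ 0) (w y : U ⟶ U) :
    phi W Q U hQ w ⟨L Q U y, LinearMap.mem_range_self _ y⟩ = W.val (tr U (y ≫ w)) := by
  have h1 : (L Q U).quotKerEquivRange.symm ⟨L Q U y, LinearMap.mem_range_self _ y⟩ =
      (LinearMap.ker (L Q U)).mkQ y := by
    rw [LinearEquiv.symm_apply_eq]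
    rfl
  unfold phi
  rw [LinearMap.comp_apply, LinearEquiv.coe_coe, h1]
  rfl

end DIM

variable (C)

theorem t_DIM : M_DIM C := by
  intro hR W Q U hQ hfin ι _ y y'
  have h1 := hR ι (LinearMap.range (DIM.L Q U))
    (fun s => ⟨DIM.L Q U (y s), LinearMap.mem_range_self _ (y s)⟩)
    (fun t => DIM.phi W Q U hQ (y' t))
  simp only [DIM.phi_apply] at h1
  refine h1.trans ?_
  apply mul_le_mul_of_nonneg_right
  · exact_mod_cast Submodule.finrank_le _
  · exact Finset.sum_nonneg fun s _ => Finset.sum_nonneg fun t _ => sq_nonneg _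

end

end MotP.GGap
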