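import Pool.Agent.GGap.St

/-!
# EMB: tensoring with powers is injective on endomorphisms
-/

set_option autoImplicit false
set_option linter.unusedSectionVars false

open CategoryTheory MonoidalCategory BraidedCategory Limits

universe v u

namespace MotP.GGap

open Mot

namespace EMB

variable {C : Type u} [Category.{v} C] [Preadditive C] [Linear ℚ C] [MonoidalCategory C]
  [SymmetricCategory C] [MonoidalPreadditive C] [MonoidalLinear ℚ C] [RightRigidCategory C]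

omit [Linear ℚ C] [MonoidalLinear ℚ C] [RightRigidCategory C] in
lemma right_of_left {A B Z : C} {f : A ⟶ B} (h : Z ◁ f = 0) : f ▷ Z = 0 := by
  have h1 : f ▷ Z ≫ (β_ B Z).hom = 0 := by
    rw [BraidedCategory.braiding_naturality_left, h, comp_zero]
  rw [← cancel_mono (β_ B Z).hom, h1, zero_comp]

omit [Linear ℚ C] [MonoidalLinear ℚ C] [SymmetricCategory C] [RightRigidCategory C] in
lemma left_whisk {A B : C} (Z W : C) {f : A ⟶ B} (h : f ▷ Z = 0) : (W ◁ f) ▷ Z = 0 := by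
  have h1 : (W ◁ f) ▷ Z = (α_ W A Z).hom ≫ W ◁ (f ▷ Z) ≫ (α_ W B Z).inv := by
    rw [whisker_assoc]
  rw [h1, h, MonoidalPreadditive.whiskerLeft_zero, zero_comp, comp_zero]

omit [Linear ℚ C] [MonoidalLinear ℚ C] in
/-- A morphism which vanishes after tensoring with its source is zero. -/
lemma zero_of_self {Y Z : C} (f : Y ⟶ Z) (h : f ▷ Y = 0) : f = 0 := by
  have h1 : f ▷ (Yᘁ ⊗ Y) = 0 := by
    have h2 : f ▷ (Y ⊗ Yᘁ) = 0 := by
      rw [whiskerRight_tensor, h, MonoidalPreadditive.zero_whiskerRight, zero_comp, comp_zero]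
    have h3 : f ▷ (Yᘁ ⊗ Y) ≫ Z ◁ (β_ Yᘁ Y).hom = 0 := by
      rw [← whisker_exchange, h2, comp_zero]
    rw [← cancel_mono (Z ◁ (β_ Yᘁ Y).hom), h3, zero_comp]
  have h4 : f ▷ 𝟙_ C = (ρ_ Y).hom ≫ f ≫ (ρ_ Z).inv := by
    rw [rightUnitor_inv_naturality, Iso.hom_inv_id_assoc]
  have h5 := ExactPairing.evaluation_coevaluation Y Yᘁ
  have h6 : (η_ Y Yᘁ ▷ Y ≫ (α_ _ _ _).hom ≫ Y ◁ ε_ Y Yᘁ) ≫ f ▷ 𝟙_ C = 0 := by
    rw [Category.assoc, Category.assoc, whisker_exchange, h1, zero_comp, comp_zero, comp_zero]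
  rw [h5, h4] at h6
  have h7 : f = (λ_ Y).inv ≫ (((λ_ Y).hom ≫ (ρ_ Y).inv) ≫ (ρ_ Y).hom ≫ f ≫ (ρ_ Z).inv) ≫
      (ρ_ Z).hom := by simp
  rw [h7, h6, zero_comp, comp_zero]

omit [Linear ℚ C] [MonoidalLinear ℚ C] in
lemma T_inj (X : C) (k : ℕ) (f : X ⟶ X) (h : T X k ◁ f = 0) : f = 0 := by
  induction k with
  | zero =>
    have h1 : f = (λ_ X).inv ≫ (𝟙_ C ◁ f) ≫ (λ_ X).hom := by simp
    have h2 : 𝟙_ C ◁ f = 0 := h
    rw [h1, h2, zero_comp, comp_zero]
  | succ k ih =>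
    apply ih
    have h1 : (T X k ⊗ X) ◁ f = 0 := h
    exact zero_of_self (Y := T X k ⊗ X) (T X k ◁ f) (left_whisk _ _ (right_of_left h1))

end EMB

variable (C : Type u) [Category.{v} C] [Preadditive C] [Linear ℚ C] [MonoidalCategory C]
  [SymmetricCategory C] [MonoidalPreadditive C] [MonoidalLinear ℚ C] [RightRigidCategory C]

theorem t_EMB : S_EMB C := by
  refine ⟨fun X r hr hfin => ?_, fun P hP k => ?_⟩
  · obtain ⟨k, rfl⟩ : ∃ k, r = k + 1 := ⟨r - 1, by omega⟩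
    have hfin' : Module.Finite ℚ (T X k ⊗ X ⟶ T X k ⊗ X) := hfin
    let L : (X ⟶ X) →ₗ[ℚ] (T X k ⊗ X ⟶ T X k ⊗ X) :=
      { toFun := fun f => T X k ◁ f
        map_add' := fun f g => MonoidalPreadditive.whiskerLeft_add f g
        map_smul' := fun r f => MonoidalLinear.whiskerLeft_smul _ _ _ }
    refine Module.Finite.of_injective L ?_
    rw [injective_iff_map_eq_zero]
    intro f hf
    exact EMB.T_inj X k f hf
  · intro h0
    cases k with
    | zero =>
      have h1 : 𝟙 (𝟙_ C) = 0 := h0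
      apply hP
      have h2 : 𝟙 P = (ρ_ P).inv ≫ (P ◁ 𝟙 (𝟙_ C)) ≫ (ρ_ P).hom := by simp
      rw [h2, h1, MonoidalPreadditive.whiskerLeft_zero, zero_comp, comp_zero]
    | succ k =>
      apply hP
      apply EMB.T_inj P k
      rw [MonoidalCategory.whiskerLeft_id]
      exact h0

end MotP.GGap
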