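import Pool.Agent.GGap.St

/-!
# The growth gap (assembly)
-/

set_option autoImplicit false

open CategoryTheory MonoidalCategory BraidedCategory Limits

universe v u

namespace MotP.GGap

open Mot

noncomputable section

variable (C : Type u) [Category.{v} C] [Preadditive C] [Linear ℚ C] [MonoidalCategory C]
  [SymmetricCategory C] [MonoidalPreadditive C] [MonoidalLinear ℚ C] [RightRigidCategory C]

namespace GAP

/-- the numerical part -/
theorem num (hRIS : S_RIS) {a b k i l r D E c1 c2 : ℕ} (hr : k + (i + l) = r)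
    (h1 : (1 + a + b) ^ r ≤ (r + 1) ^ 2 * (c1 * c2 * (a ^ i * b ^ l)))
    (h2 : (c1 * c2) ^ 2 * D ≤ E)
    (h3 : i.factorial * l.factorial * (a ^ i * b ^ l) ^ 2 ≤
      D * ((∏ j ∈ Finset.range i, (a ^ 2 + j)) * ∏ j ∈ Finset.range l, (b ^ 2 + j))) :
    (a + b + 1) ^ (2 * r) ≤ (r + 1) ^ (a ^ 2 + b ^ 2 + 4) * E := by
  have h4 := hRIS (a ^ 2) i
  have h5 := hRIS (b ^ 2) l
  have h6 : i.factorial * l.factorial * (a ^ i * b ^ l) ^ 2 ≤
      i.factorial * l.factorial * (D * ((r + 1) ^ (a ^ 2) * (r + 1) ^ (b ^ 2))) := by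
    refine h3.trans ?_
    calc D * ((∏ j ∈ Finset.range i, (a ^ 2 + j)) * ∏ j ∈ Finset.range l, (b ^ 2 + j))
        ≤ D * ((i.factorial * (i + 1) ^ (a ^ 2)) * (l.factorial * (l + 1) ^ (b ^ 2))) :=
          Nat.mul_le_mul_left _ (Nat.mul_le_mul h4 h5)
      _ ≤ D * ((i.factorial * (r + 1) ^ (a ^ 2)) * (l.factorial * (r + 1) ^ (b ^ 2))) := by
          apply Nat.mul_le_mul_left
          apply Nat.mul_le_mul
          · exact Nat.mul_le_mul_left _ (Nat.pow_le_pow_left (by omega) _)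
          · exact Nat.mul_le_mul_left _ (Nat.pow_le_pow_left (by omega) _)
      _ = _ := by ring
  have h7 : (a ^ i * b ^ l) ^ 2 ≤ D * ((r + 1) ^ (a ^ 2) * (r + 1) ^ (b ^ 2)) :=
    Nat.le_of_mul_le_mul_left h6 (Nat.mul_pos i.factorial_pos l.factorial_pos)
  have e0 : a + b + 1 = 1 + a + b := by ring
  calc (a + b + 1) ^ (2 * r) = ((1 + a + b) ^ r) ^ 2 := by rw [e0, ← pow_mul, mul_comm]
    _ ≤ ((r + 1) ^ 2 * (c1 * c2 * (a ^ i * b ^ l))) ^ 2 := Nat.pow_le_pow_left h1 2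
    _ = (r + 1) ^ 4 * (c1 * c2) ^ 2 * (a ^ i * b ^ l) ^ 2 := by ring
    _ ≤ (r + 1) ^ 4 * (c1 * c2) ^ 2 * (D * ((r + 1) ^ (a ^ 2) * (r + 1) ^ (b ^ 2))) :=
        Nat.mul_le_mul_left _ h7
    _ = (r + 1) ^ (a ^ 2 + b ^ 2 + 4) * ((c1 * c2) ^ 2 * D) := by rw [pow_add, pow_add]; ring
    _ ≤ (r + 1) ^ (a ^ 2 + b ^ 2 + 4) * E := Nat.mul_le_mul_left _ h2

end GAP

theorem t_GAP : M_GAP C := by
  intro hNUM hRIS hCOP hCPD hEMB hGRM hNET hDEC
  intro _ W X r hr hfin f hf hn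
  have hfX : Module.Finite ℚ (X ⟶ X) := hEMB.1 X r hr hfin
  have hfE : Module.Finite ℚ (End X) := hfX
  obtain ⟨g, hg1, hg2⟩ := exIdem f hn
  obtain ⟨e, he⟩ : ∃ e : X ⟶ X, e = g ≫ f := ⟨_, rfl⟩
  have he1 : e ≫ e = e := by
    rw [he]
    exact hg1
  have he2 : e ≠ 0 := by
    rw [he]
    exact hg2
  have he3 : ∀ h : X ⟶ X, tr X (e ≫ h) = 0 := by
    intro h
    rw [he, Category.assoc, tr_comm, Category.assoc]
    exact hf _
  obtain ⟨P, i, p, h1, h2⟩ := IsIdempotentComplete.idempotents_split X e he1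
  have he4 : (𝟙 X - e) ≫ (𝟙 X - e) = 𝟙 X - e := by
    rw [Preadditive.sub_comp, Preadditive.comp_sub, Preadditive.comp_sub, Category.id_comp,
      Category.comp_id, Category.id_comp, he1]
    abel
  obtain ⟨Y, j, q, h3, h4⟩ := IsIdempotentComplete.idempotents_split X _ he4
  have hiq : i ≫ q = 0 := by
    calc i ≫ q = (i ≫ p) ≫ (i ≫ q) ≫ (j ≫ q) := by
          rw [h1, h3, Category.id_comp, Category.comp_id]
      _ = i ≫ ((p ≫ i) ≫ (q ≫ j)) ≫ q := by simp only [Category.assoc]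
      _ = 0 := by
          rw [h2, h4, Preadditive.comp_sub, Category.comp_id, he1, sub_self, Limits.zero_comp,
            Limits.comp_zero]
  have hjp : j ≫ p = 0 := by
    calc j ≫ p = (j ≫ q) ≫ (j ≫ p) ≫ (i ≫ p) := by
          rw [h1, h3, Category.id_comp, Category.comp_id]
      _ = j ≫ ((q ≫ j) ≫ (p ≫ i)) ≫ p := by simp only [Category.assoc]
      _ = 0 := by
          rw [h2, h4, Preadditive.sub_comp, Category.id_comp, he1, sub_self, Limits.zero_comp,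
            Limits.comp_zero]
  let O : Orth X P Y := ⟨i, p, j, q, h1, h3, hiq, hjp⟩
  have hP : 𝟙 P ≠ 0 := by
    intro h0
    apply he2
    rw [← h2, ← Category.id_comp i, h0, Limits.zero_comp, Limits.comp_zero]
  have htP : ∀ n, W.t P n = 0 := by
    intro n
    rw [W.t_retract i p h1, h2, he3, W.val_zero]
  have htX : ∀ n, W.t X n = W.t Y n := by
    intro n
    rw [W.t_split i p h1 j q h3 (by rw [h2, h4]; abel) n, htP, zero_add]
  obtain ⟨-, hbp, hbm⟩ := hNET W X Y htX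
  have hcY : Cp 1 Y X := ⟨fun _ => j, fun _ => q, fun _ => h3, fun s t hst =>
    absurd (Subsingleton.elim s t) hst⟩
  have hfY : Module.Finite ℚ (Y ⟶ Y) := (hCPD X Y 1 one_pos hcY hfX).1
  obtain ⟨A, B, O', hA, hB⟩ := hDEC W Y hfY
  obtain ⟨k, m, l, hkml, hnum⟩ := hNUM (W.bp X) (W.bm X) r
  obtain ⟨c1, hc1⟩ : ∃ c1, c1 = r.choose k := ⟨_, rfl⟩
  obtain ⟨c2, hc2⟩ : ∃ c2, c2 = (m + l).choose m := ⟨_, rfl⟩
  have hC1 : Cp c1 (T P k ⊗ T Y (m + l)) (T X r) := by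
    have h := hCOP.1 X P Y O k (m + l)
    rw [hkml, ← hc1] at h
    exact h
  have hC2 : Cp c2 (T P k ⊗ (T A m ⊗ T B l)) (T P k ⊗ T Y (m + l)) := by
    have h := hCOP.2.2.2 _ _ _ (T P k) (hCOP.1 Y A B O' m l)
    rw [← hc2] at h
    exact h
  have hC : Cp (c1 * c2) (T P k ⊗ (T A m ⊗ T B l)) (T X r) := hCOP.2.2.1 _ _ _ _ _ hC1 hC2
  have hcpos : 0 < c1 * c2 := by
    rw [hc1, hc2]
    exact Nat.mul_pos (Nat.choose_pos (by omega)) (Nat.choose_pos (by omega))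
  obtain ⟨hfZ, hE⟩ := hCPD _ _ _ hcpos hC hfin
  have hG := hGRM W (T P k) A B m l (hEMB.2 P hP k) hfZ
  rw [hA, hB, ← hbp, ← hbm] at hG
  have hG' : m.factorial * l.factorial * (W.bp X ^ m * W.bm X ^ l) ^ 2 ≤
      Module.finrank ℚ (T P k ⊗ (T A m ⊗ T B l) ⟶ T P k ⊗ (T A m ⊗ T B l)) *
        ((∏ j ∈ Finset.range m, (W.bp X ^ 2 + j)) * ∏ j ∈ Finset.range l, (W.bm X ^ 2 + j)) := by
    have e1 : ((-(W.bm X : ℚ)) ^ 2) = ((W.bm X : ℚ)) ^ 2 := by ring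
    have e2 : ((W.bp X : ℚ) ^ m * (-(W.bm X : ℚ)) ^ l) ^ 2 =
        ((W.bp X : ℚ) ^ m * (W.bm X : ℚ) ^ l) ^ 2 := by
      rw [mul_pow, mul_pow]
      congr 1
      rw [← pow_mul, mul_comm, pow_mul, e1, ← pow_mul, mul_comm, pow_mul]
    rw [e1, e2] at hG
    exact_mod_cast hG
  have := GAP.num hRIS (a := W.bp X) (b := W.bm X) (k := k) (i := m) (l := l) (r := r) (c1 := c1)
    (c2 := c2) hkml (by rw [hc1, hc2]; exact hnum) hE hG'
  exact this

end

end MotP.GGap
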