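import Pool.Agent.GGap.St

/-!
# GRM: the action of two symmetric groups
-/

set_option autoImplicit false

open CategoryTheory MonoidalCategory BraidedCategory Limits

universe v u

namespace MotP.GGap

open Mot

noncomputable section

set_option linter.unusedSectionVars false

variable {C : Type u} [Category.{v} C] [Preadditive C] [Linear ℚ C] [MonoidalCategory C]
  [SymmetricCategory C] [MonoidalPreadditive C] [MonoidalLinear ℚ C] [RightRigidCategory C]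

namespace GRM

/-- the character -/
def chi (W : Fr C) {X : C} (R : PermAct X) (n : ℕ) (σ : Equiv.Perm (Fin n)) : ℚ :=
  W.val (tr (T X n) (R.ρ n σ))

lemma chi_one (W : Fr C) {X : C} (R : PermAct X) (n : ℕ) :
    chi W R n 1 = W.val (tr (T X n) (𝟙 (T X n))) := by
  unfold chi
  rw [R.one]

lemma entry (W : Fr C) {A B : C} (RA : PermAct A) (RB : PermAct B) (i l : ℕ)
    (s t : Equiv.Perm (Fin i) × Equiv.Perm (Fin l)) :
    W.val (tr (T A i ⊗ T B l) ((RA.ρ i s.1 ⊗ₘ RB.ρ l s.2) ≫ (RA.ρ i t.1⁻¹ ⊗ₘ RB.ρ l t.2⁻¹))) =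
      chi W RA i (t.1⁻¹ * s.1) * chi W RB l (t.2⁻¹ * s.2) := by
  rw [MonoidalCategory.tensorHom_comp_tensorHom, ← RA.mul, ← RB.mul, W.tr_tensor, W.val_smul,
    mul_comm]
  rfl

lemma sum_shift {n : ℕ} (f : Equiv.Perm (Fin n) → ℚ) :
    ∑ s : Equiv.Perm (Fin n), ∑ t : Equiv.Perm (Fin n), f (t⁻¹ * s) =
      (n.factorial : ℚ) * ∑ σ, f σ := by
  rw [Finset.sum_comm]
  have h1 : ∀ t : Equiv.Perm (Fin n), ∑ s : Equiv.Perm (Fin n), f (t⁻¹ * s) = ∑ σ, f σ := by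
    intro t
    exact Fintype.sum_equiv (Equiv.mulLeft t⁻¹) _ _ fun s => rfl
  rw [Finset.sum_congr rfl fun t _ => h1 t, Finset.sum_const, Finset.card_univ,
    Fintype.card_perm, Fintype.card_fin, nsmul_eq_mul]

lemma sum_double {i l : ℕ} (f : Equiv.Perm (Fin i) → ℚ) (g : Equiv.Perm (Fin l) → ℚ) :
    ∑ s : Equiv.Perm (Fin i) × Equiv.Perm (Fin l), ∑ t : Equiv.Perm (Fin i) × Equiv.Perm (Fin l),
      (f (t.1⁻¹ * s.1) * g (t.2⁻¹ * s.2)) ^ 2 =
      ((i.factorial : ℚ) * ∑ σ, f σ ^ 2) * ((l.factorial : ℚ) * ∑ τ, g τ ^ 2) := by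
  rw [← sum_shift (fun σ => f σ ^ 2), ← sum_shift (fun σ => g σ ^ 2)]
  rw [Fintype.sum_prod_type, Finset.sum_mul]
  refine Finset.sum_congr rfl fun s1 _ => ?_
  rw [Finset.mul_sum]
  refine Finset.sum_congr rfl fun s2 _ => ?_
  rw [Fintype.sum_prod_type, Finset.sum_mul]
  refine Finset.sum_congr rfl fun t1 _ => ?_
  rw [Finset.mul_sum]
  refine Finset.sum_congr rfl fun t2 _ => ?_
  ring

end GRM

variable (C)

theorem t_GRM : M_GRM C := by
  intro hP hD hC W Q A B i l hQ hfin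
  obtain ⟨RA⟩ := hP A
  obtain ⟨RB⟩ := hP B
  have h1 := hD W Q (T A i ⊗ T B l) hQ hfin (Equiv.Perm (Fin i) × Equiv.Perm (Fin l))
    (fun s => RA.ρ i s.1 ⊗ₘ RB.ρ l s.2) (fun s => RA.ρ i s.1⁻¹ ⊗ₘ RB.ρ l s.2⁻¹)
  simp only [GRM.entry] at h1
  rw [GRM.sum_double] at h1
  have hA : ∑ σ, GRM.chi W RA i σ ^ 2 = ∏ j ∈ Finset.range i, ((W.val (tr A (𝟙 A))) ^ 2 + j) :=
    (hC W A RA i).1
  have hB : ∑ σ, GRM.chi W RB l σ ^ 2 = ∏ j ∈ Finset.range l, ((W.val (tr B (𝟙 B))) ^ 2 + j) :=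
    (hC W B RB l).1
  rw [hA, hB] at h1
  have h2 : ∑ s : Equiv.Perm (Fin i) × Equiv.Perm (Fin l),
      GRM.chi W RA i (s.1⁻¹ * s.1) * GRM.chi W RB l (s.2⁻¹ * s.2) =
      (i.factorial : ℚ) * l.factorial *
        ((W.val (tr A (𝟙 A))) ^ i * (W.val (tr B (𝟙 B))) ^ l) := by
    have h3 : ∀ s : Equiv.Perm (Fin i) × Equiv.Perm (Fin l),
        GRM.chi W RA i (s.1⁻¹ * s.1) * GRM.chi W RB l (s.2⁻¹ * s.2) =
          (W.val (tr A (𝟙 A))) ^ i * (W.val (tr B (𝟙 B))) ^ l := by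
      intro s
      rw [inv_mul_cancel, inv_mul_cancel, GRM.chi_one, GRM.chi_one, (hC W A RA i).2,
        (hC W B RB l).2]
    rw [Finset.sum_congr rfl fun s _ => h3 s, Finset.sum_const, Finset.card_univ,
      Fintype.card_prod, Fintype.card_perm, Fintype.card_perm, Fintype.card_fin,
      Fintype.card_fin, nsmul_eq_mul]
    push_cast
    ring
  rw [h2] at h1
  have hpos : (0 : ℚ) < (i.factorial : ℚ) * l.factorial := by
    have := Nat.factorial_pos i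
    have := Nat.factorial_pos l
    positivity
  refine le_of_mul_le_mul_left ?_ hpos
  refine le_trans (le_of_eq ?_) (h1.trans (le_of_eq ?_))
  · ring
  · ring

end

end MotP.GGap
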