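import Pool.Agent.GGap.St

/-!
# The sum of squares of the trace character over the symmetric group
-/

set_option autoImplicit false

open CategoryTheory MonoidalCategory BraidedCategory Limits

universe v u

namespace MotP.GGap

namespace GRP

/-- coset representatives -/
def cm (n : ℕ) (a : Equiv.Perm (Fin n) × Fin (n + 1)) : Equiv.Perm (Fin (n + 1)) :=
  up a.1 * Equiv.swap a.2 (Fin.last n)

lemma cm_apply (n : ℕ) (a : Equiv.Perm (Fin n) × Fin (n + 1)) : cm n a a.2 = Fin.last n := by
  unfold cm
  rw [Equiv.Perm.mul_apply, Equiv.swap_apply_left, up_last]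

lemma up_inj (n : ℕ) (x y : Equiv.Perm (Fin n)) (h : up x = up y) : x = y := by
  apply Equiv.ext
  intro i
  have h1 : up x i.castSucc = up y i.castSucc := by rw [h]
  rw [up_castSucc, up_castSucc] at h1
  exact Fin.castSucc_injective n h1

lemma cm_inj (n : ℕ) : Function.Injective (cm n) := by
  intro a b h
  have h1 : a.2 = b.2 := by
    apply (cm n a).injective
    rw [cm_apply, h, cm_apply]
  have h2 : up a.1 = up b.1 := by
    have h3 : up a.1 * Equiv.swap a.2 (Fin.last n) = up b.1 * Equiv.swap b.2 (Fin.last n) := h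
    rw [h1] at h3
    exact mul_right_cancel h3
  exact Prod.ext (up_inj n _ _ h2) h1

lemma cm_bij (n : ℕ) : Function.Bijective (cm n) := by
  rw [Fintype.bijective_iff_injective_and_card]
  refine ⟨cm_inj n, ?_⟩
  rw [Fintype.card_prod, Fintype.card_perm, Fintype.card_perm, Fintype.card_fin, Fintype.card_fin,
    Nat.factorial_succ, mul_comm]

lemma sum_cm (n : ℕ) (f : Equiv.Perm (Fin (n + 1)) → ℚ) :
    ∑ σ, f σ = ∑ x : Equiv.Perm (Fin n), ∑ j : Fin (n + 1), f (cm n (x, j)) := by
  rw [← Fintype.sum_prod_type' (f := fun x j => f (cm n (x, j)))]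
  exact (Function.Bijective.sum_comp (cm_bij n) f).symm

lemma cm_last (n : ℕ) (x : Equiv.Perm (Fin n)) : cm n (x, Fin.last n) = up x := by
  unfold cm
  rw [Equiv.swap_self]
  exact mul_one _

lemma cm_castSucc (m : ℕ) (x : Equiv.Perm (Fin (m + 1))) (i : Fin (m + 1)) :
    cm (m + 1) (x, i.castSucc) = up (x * Equiv.swap i (Fin.last m)) *
      Equiv.swap (Fin.last m).castSucc (Fin.last (m + 1)) * up (Equiv.swap i (Fin.last m)) := by
  have h1 : Equiv.swap i.castSucc (Fin.last (m + 1)) = up (Equiv.swap i (Fin.last m)) *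
      Equiv.swap (Fin.last m).castSucc (Fin.last (m + 1)) *
      (up (Equiv.swap i (Fin.last m)))⁻¹ := by
    have h2 := Equiv.swap_apply_apply (up (Equiv.swap i (Fin.last m))) (Fin.last m).castSucc
      (Fin.last (m + 1))
    rw [up_castSucc, up_last, Equiv.swap_apply_right] at h2
    exact h2
  have h3 : (up (Equiv.swap i (Fin.last m)))⁻¹ = up (Equiv.swap i (Fin.last m)) := by
    rw [inv_eq_iff_mul_eq_one, ← up_mul, Equiv.swap_mul_self, up_one]
  rw [h3] at h1
  unfold cm
  rw [up_mul]
  simp only [h1, mul_assoc]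

end GRP

theorem t_GRP : S_GRP := by
  intro t χ h0 hc hu hs n
  induction n with
  | zero =>
    rw [Finset.range_zero, Finset.prod_empty, Fintype.sum_unique]
    have h1 : (default : Equiv.Perm (Fin 0)) = 1 := Subsingleton.elim _ _
    rw [h1, h0, one_pow]
  | succ n ih =>
    have key : ∀ (x : Equiv.Perm (Fin n)) (i : Fin n),
        χ (n + 1) (GRP.cm n (x, i.castSucc)) = χ n x := by
      intro x i
      cases n with
      | zero => exact i.elim0
      | succ m =>
        have h3 : (up (Equiv.swap i (Fin.last m))) * up (x * Equiv.swap i (Fin.last m)) =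
            up (Equiv.swap i (Fin.last m) * (x * Equiv.swap i (Fin.last m))) := by
          rw [up_mul (Equiv.swap i (Fin.last m)) (x * Equiv.swap i (Fin.last m))]
        rw [GRP.cm_castSucc, hc, ← mul_assoc, h3, hs, hc, mul_assoc, Equiv.swap_mul_self, mul_one]
    rw [GRP.sum_cm, Finset.prod_range_succ, ← ih, Finset.sum_mul]
    apply Finset.sum_congr rfl
    intro x _
    rw [Fin.sum_univ_castSucc, GRP.cm_last, hu]
    have h4 : ∀ i : Fin n, χ (n + 1) (GRP.cm n (x, i.castSucc)) ^ 2 = χ n x ^ 2 := by
      intro i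
      rw [key]
    rw [Finset.sum_congr rfl (fun i _ => h4 i), Finset.sum_const, Finset.card_univ,
      Fintype.card_fin, nsmul_eq_mul]
    ring

end MotP.GGap
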