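import Pool.Agent.GGap.St

/-!
# The growth gap: a polynomial is smaller than an exponential function
-/

set_option autoImplicit false

namespace MotP.GGap

namespace GRW

lemma bern (b : ℕ) (hb : 0 < b) : 2 * b ^ b ≤ (b + 1) ^ b := by
  have h1 : ((1 : ℝ) + b * (1 / b)) ≤ (1 + 1 / b) ^ b :=
    one_add_mul_le_pow (by
      have : (0 : ℝ) ≤ 1 / b := by positivity
      linarith) b
  have hb' : (b : ℝ) ≠ 0 := by exact_mod_cast hb.ne'
  have h2 : (1 : ℝ) + b * (1 / b) = 2 := by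
    field_simp
    norm_num
  have h3 : ((1 : ℝ) + 1 / b) ^ b * b ^ b = (b + 1) ^ b := by
    rw [← mul_pow]
    congr 1
    field_simp
  have h4 : (2 : ℝ) * b ^ b ≤ (b + 1) ^ b := by
    rw [← h3, ← h2]
    exact mul_le_mul_of_nonneg_right h1 (by positivity)
  exact_mod_cast h4

lemma poly (K c : ℕ) : ∃ m : ℕ, 0 < m ∧ K * m ^ c < 4 ^ m := by
  have h := tendsto_pow_const_div_const_pow_of_one_lt c (show (1 : ℝ) < 4 by norm_num)
  have hK : (0 : ℝ) < 1 / ((K : ℝ) + 1) := by positivity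
  have h2 := (h.eventually (gt_mem_nhds hK)).and (Filter.eventually_gt_atTop 0)
  obtain ⟨m, hm, hm0⟩ := h2.exists
  refine ⟨m, hm0, ?_⟩
  have h4 : (0 : ℝ) < 4 ^ m := by positivity
  rw [div_lt_div_iff₀ h4 (by positivity)] at hm
  have h5 : (K : ℝ) * m ^ c < 4 ^ m := by
    have : (0 : ℝ) ≤ (m : ℝ) ^ c := by positivity
    nlinarith
  exact_mod_cast h5

end GRW

theorem t_GRW : S_GRW := by
  intro K c b
  rcases Nat.eq_zero_or_pos b with rfl | hb
  · refine ⟨1, one_pos, ?_⟩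
    simp
  · obtain ⟨m, hm, h⟩ := GRW.poly (K * (b + 1) ^ c) c
    refine ⟨b * m, Nat.mul_pos hb hm, ?_⟩
    have h1 := GRW.bern b hb
    have h2 : 4 ^ m * b ^ (2 * (b * m)) ≤ (b + 1) ^ (2 * (b * m)) := by
      have e1 : 4 ^ m * b ^ (2 * (b * m)) = (2 * b ^ b) ^ (2 * m) := by
        rw [mul_pow, ← pow_mul, pow_mul 2 2 m]
        norm_num
        congr 1
        ring
      have e2 : (b + 1) ^ (2 * (b * m)) = ((b + 1) ^ b) ^ (2 * m) := by
        rw [← pow_mul]
        congr 1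
        ring
      rw [e1, e2]
      exact Nat.pow_le_pow_left h1 _
    have h3 : (b * m + 1) ^ c ≤ (b + 1) ^ c * m ^ c := by
      rw [← mul_pow]
      apply Nat.pow_le_pow_left
      nlinarith
    have h4 : 0 < b ^ (2 * (b * m)) := by positivity
    calc K * (b * m + 1) ^ c * b ^ (2 * (b * m))
        ≤ K * ((b + 1) ^ c * m ^ c) * b ^ (2 * (b * m)) := by gcongr
      _ = (K * (b + 1) ^ c * m ^ c) * b ^ (2 * (b * m)) := by ring
      _ < 4 ^ m * b ^ (2 * (b * m)) := Nat.mul_lt_mul_of_pos_right h h4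
      _ ≤ (b + 1) ^ (2 * (b * m)) := h2

end MotP.GGap
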