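import Pool.Agent.GGap.St

/-!
# The growth gap, module NET: the traces determine the net multiplicities
-/

set_option autoImplicit false

open CategoryTheory MonoidalCategory BraidedCategory Limits

universe v u

namespace MotP.GGap

open Mot

noncomputable section

variable (C : Type u) [Category.{v} C] [Preadditive C] [Linear ℚ C] [MonoidalCategory C]
  [SymmetricCategory C] [MonoidalPreadditive C] [MonoidalLinear ℚ C] [RightRigidCategory C]

namespace NET

variable {C}

lemma t_sum (W : Fr C) (X : C) (n : ℕ) : (W.t X n : ℂ) = ∑ z ∈ W.S X, (W.ν X z : ℂ) * z ^ n := by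
  rw [W.t_formula, sum_nu]
  rfl

lemma t_sum' (W : Fr C) (X : C) (U : Finset ℂ) (hU : W.S X ⊆ U) (n : ℕ) :
    (W.t X n : ℂ) = ∑ z ∈ U, (W.ν X z : ℂ) * z ^ n := by
  rw [t_sum]
  apply Finset.sum_subset hU
  intro z _ hz
  have h1 : W.ν X z = 0 := nu_of_notMem hz
  rw [h1]
  simp

lemma ν_eq (W : Fr C) (X Y : C) (h : ∀ n, W.t X n = W.t Y n) (z : ℂ) : W.ν X z = W.ν Y z := by
  classical
  have h1 : ∀ n : ℕ, ∑ z ∈ W.S X ∪ W.S Y, ((W.ν X z : ℂ) - (W.ν Y z : ℂ)) * z ^ n = 0 := by
    intro n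
    have e1 := t_sum' W X (W.S X ∪ W.S Y) Finset.subset_union_left n
    have e2 := t_sum' W Y (W.S X ∪ W.S Y) Finset.subset_union_right n
    rw [h n] at e1
    rw [Finset.sum_congr rfl fun z _ => sub_mul _ _ _, Finset.sum_sub_distrib, ← e1, ← e2, sub_self]
  by_cases hz : z ∈ W.S X ∪ W.S Y
  · have h2 := lag _ _ h1 z hz
    have h3 : (W.ν X z : ℂ) = (W.ν Y z : ℂ) := sub_eq_zero.mp h2
    exact_mod_cast h3
  · rw [Finset.mem_union, not_or] at hz
    have h2 : W.ν X z = 0 := nu_of_notMem hz.1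
    have h3 : W.ν Y z = 0 := nu_of_notMem hz.2
    rw [h2, h3]

end NET

theorem t_NET : S_NET C := by
  classical
  intro W X Y h
  have hν := NET.ν_eq W X Y h
  have h1 : W.α X - W.β X = W.α Y - W.β Y := by
    ext z
    have h2 : ((W.α X).count z : ℤ) - ((W.β X).count z : ℤ) =
        ((W.α Y).count z : ℤ) - ((W.β Y).count z : ℤ) := hν z
    rw [Multiset.count_sub, Multiset.count_sub]
    omega
  have h3 : W.β X - W.α X = W.β Y - W.α Y := by
    ext z
    have h2 : ((W.α X).count z : ℤ) - ((W.β X).count z : ℤ) =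
        ((W.α Y).count z : ℤ) - ((W.β Y).count z : ℤ) := hν z
    rw [Multiset.count_sub, Multiset.count_sub]
    omega
  refine ⟨hν, ?_, ?_⟩
  · unfold Fr.bp
    rw [h1]
  · unfold Fr.bm
    rw [h3]

end

end MotP.GGap
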