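import Pool.Agent.GGap.St

/-!
# Nilpotence and the strong Tate conjecture imply that numerically trivial morphisms are zero
-/

set_option autoImplicit false

open CategoryTheory MonoidalCategory BraidedCategory Limits Polynomial

universe v u

namespace MotP.GGap.NIL

open Mot

noncomputable section

set_option linter.unusedSectionVars false

/-- The decomposition of a finite-dimensional algebra with respect to an element. -/
lemma fitting {A : Type v} [Ring A] [Algebra ℚ A] [Module.Finite ℚ A] (a : A) :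
    ∃ (e b : A) (k : ℕ), e * e = e ∧ a ^ k * e = 0 ∧ 1 - e = b * a := by
  have hint : IsIntegral ℚ a := IsIntegral.of_finite ℚ a
  have hm : minpoly ℚ a ≠ 0 := minpoly.ne_zero hint
  obtain ⟨q, hq, hdvd⟩ := Polynomial.exists_eq_pow_rootMultiplicity_mul_and_not_dvd
    (minpoly ℚ a) hm 0
  rw [Polynomial.C_0, sub_zero] at hq hdvd
  set k := Polynomial.rootMultiplicity 0 (minpoly ℚ a)
  have hcop : IsCoprime ((Polynomial.X : Polynomial ℚ) ^ (k + 1)) q :=
    ((Polynomial.irreducible_X.coprime_iff_not_dvd).mpr hdvd).pow_left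
  obtain ⟨c, d, hcd⟩ := hcop
  have hkill : aeval a (X ^ (k + 1) * q) = 0 := by
    have h1 : (X : ℚ[X]) ^ (k + 1) * q = X * minpoly ℚ a := by
      rw [hq, pow_succ']
      ring
    rw [h1, map_mul, minpoly.aeval, mul_zero]
  have h1 : aeval a (d * q) = 1 - aeval a (c * X ^ (k + 1)) := by
    have h2 := congrArg (aeval a) hcd
    rw [map_add, map_one] at h2
    rw [← h2]
    abel
  refine ⟨aeval a (d * q), aeval a (c * X ^ k), k + 1, ?_, ?_, ?_⟩
  · have h2 : aeval a (d * q) * aeval a (c * X ^ (k + 1)) = 0 := by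
      rw [← map_mul, show d * q * (c * X ^ (k + 1)) = d * c * (X ^ (k + 1) * q) by ring, map_mul,
        hkill, mul_zero]
    conv_lhs => rw [h1]
    rw [← h1]
    have h3 : aeval a (d * q) * (1 - aeval a (c * X ^ (k + 1))) = aeval a (d * q) := by
      rw [mul_sub, mul_one, h2, sub_zero]
    rwa [← h1] at h3
  · have h2 : a ^ (k + 1) = aeval a (X ^ (k + 1) : ℚ[X]) := by rw [map_pow, aeval_X]
    rw [h2, ← map_mul, show X ^ (k + 1) * (d * q) = d * (X ^ (k + 1) * q) by ring, map_mul, hkill,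
      mul_zero]
  · have h2 : aeval a (c * X ^ k) * a = aeval a (c * X ^ (k + 1)) := by
      have h3 : aeval a (c * X ^ k * X) = aeval a (c * X ^ k) * a := by
        rw [map_mul, aeval_X]
      rw [← h3, pow_succ, mul_assoc]
    rw [h1, h2]
    abel

variable {C : Type u} [Category.{v} C] [Preadditive C] [Linear ℚ C] [MonoidalCategory C]
  [SymmetricCategory C] [MonoidalPreadditive C] [MonoidalLinear ℚ C] [RightRigidCategory C]

variable (W : Fr C)

lemma tr_poly (X : C) (g : ℚ[X]) :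
    (W.val (tr X (aeval (W.FE X) g : End X)) : ℂ) = ∑ z ∈ W.S X, (W.ν X z : ℂ) * aeval z g := by
  induction g using Polynomial.induction_on' with
  | add p q hp hq =>
    rw [map_add]
    have h1 : tr X ((aeval (W.FE X) p + aeval (W.FE X) q : End X)) =
        tr X (aeval (W.FE X) p : End X) + tr X (aeval (W.FE X) q : End X) := tr_add _ _
    rw [h1, W.val_add]
    push_cast
    rw [hp, hq, ← Finset.sum_add_distrib]
    apply Finset.sum_congr rfl
    intro z _
    rw [map_add]
    ring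
  | monomial n a =>
    rw [aeval_monomial, W.FE_pow, ← Algebra.smul_def]
    have h1 : tr X ((a • (W.Fp X n : End X) : End X)) = a • tr X (W.Fp X n) := tr_smul _ _
    rw [h1, W.val_smul]
    push_cast
    have h2 := W.t_formula X n
    unfold Fr.t at h2
    rw [h2, sum_nu, Finset.mul_sum]
    apply Finset.sum_congr rfl
    intro z _
    rw [aeval_monomial]
    unfold Fr.ν
    change _ = _ * ((algebraMap ℚ ℂ a) * z ^ n)
    simp
    ring

/-- An object on which the Frobenius is unipotent and whose multiplicity is zero has traces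
zero. -/
lemma t_zero {X : C} {k : ℕ} (hk : (W.FE X - 1) ^ k = 0) (hm : W.mult X = 0) (n : ℕ) :
    W.t X n = 0 := by
  have h1 : ∀ n : ℕ, ∑ z ∈ W.S X, ((W.ν X z : ℂ) * (z - 1) ^ k) * z ^ n = 0 := by
    intro n
    have h2 := tr_poly W X ((Polynomial.X - 1) ^ k * Polynomial.X ^ n)
    have h3 : aeval (W.FE X) ((Polynomial.X - 1 : ℚ[X]) ^ k * Polynomial.X ^ n) = 0 := by
      rw [map_mul, map_pow, map_sub, map_one, aeval_X, hk, zero_mul]
    rw [h3] at h2
    have h4 : tr X ((0 : End X) : X ⟶ X) = 0 := tr_zero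
    rw [h4, W.val_zero, Rat.cast_zero] at h2
    rw [h2]
    apply Finset.sum_congr rfl
    intro z _
    rw [map_mul, map_pow, map_pow, map_sub, map_one, aeval_X]
    ring
  have h2 := lag (W.S X) _ h1
  have h3 : ∀ z ∈ W.S X, W.ν X z = 0 := by
    intro z hz
    by_cases hz1 : z = 1
    · subst hz1
      unfold Fr.ν nu
      have h4 : (W.α X).count 1 = 0 := hm
      rw [h4, Multiset.count_eq_zero.mpr (W.odd X)]
      rfl
    · rcases mul_eq_zero.mp (h2 z hz) with h4 | h4
      · exact_mod_cast h4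
      · exact absurd (sub_eq_zero.mp ((pow_eq_zero_iff
          (fun h0 => by simp [h0] at h4)).mp h4)) hz1
  have h4 := W.t_formula X n
  rw [sum_nu] at h4
  have h5 : (W.t X n : ℂ) = 0 := by
    rw [h4]
    apply Finset.sum_eq_zero
    intro z hz
    have h6 : nu (W.α X) (W.β X) z = 0 := h3 z hz
    rw [h6]
    simp
  exact_mod_cast h5

section Split

variable [IsIdempotentComplete C]

/-- An object with traces zero is zero. -/
lemma id_zero (hT : W.StrongTate) (hN : ∀ (X : C) (f : End X), NT (f : X ⟶ X) → IsNilpotent f)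
    {X : C} (h : ∀ n, W.t X n = 0) : 𝟙 X = 0 := by
  have h1 : W.mult (X ⊗ Xᘁ) = 0 := by
    apply W.mult_of_zero
    intro n
    rw [W.t_tensor, h n, zero_mul]
  have h2 := hT (X ⊗ Xᘁ)
  rw [h1, Nat.cast_zero, rank_zero_iff, Submodule.Quotient.subsingleton_iff] at h2
  have h3 : NT (𝟙 X : X ⟶ X) := by
    intro g
    have h4 : nm (𝟙 X) ∈ ntSections (X ⊗ Xᘁ) := by
      rw [h2]
      exact Submodule.mem_top
    rw [← nm_ev]
    exact h4 _
  obtain ⟨n, hn⟩ := hN X (1 : End X) h3
  rw [one_pow] at hn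
  exact hn

/-- the Frobenius of an object -/
def fr (X : C) : X ⟶ X := W.F.app X

/-- The sections of an object of multiplicity zero are zero. -/
lemma sec_zero (hT : W.StrongTate) (hF : ∀ X : C, Module.Finite ℚ (X ⟶ X))
    (hN : ∀ (X : C) (f : End X), NT (f : X ⟶ X) → IsNilpotent f) {Z : C} (hm : W.mult Z = 0)
    (f : 𝟙_ C ⟶ Z) : f = 0 := by
  have hfin : Module.Finite ℚ (End Z) := hF Z
  obtain ⟨e, b, k, he', hk, hb⟩ : ∃ (e b : Z ⟶ Z) (k : ℕ), e ≫ e = e ∧
      e ≫ (((W.FE Z - 1) ^ k : End Z) : Z ⟶ Z) = 0 ∧ 𝟙 Z - e = (fr W Z - 𝟙 Z) ≫ b :=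
    fitting (W.FE Z - 1)
  obtain ⟨Z₁, i, p, hip, hpi⟩ := IsIdempotentComplete.idempotents_split Z e he'
  have he2 : (𝟙 Z - e) ≫ (𝟙 Z - e) = 𝟙 Z - e := by
    rw [Preadditive.sub_comp, Preadditive.comp_sub, Preadditive.comp_sub, Category.id_comp,
      Category.comp_id, Category.id_comp, he']
    abel
  obtain ⟨Z₂, j, q, hjq, hqj⟩ := IsIdempotentComplete.idempotents_split Z _ he2
  have hmult := W.mult_add (W.t_split i p hip j q hjq (by rw [hpi, hqj]; abel))
  have hm1 : W.mult Z₁ = 0 := by omega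
  have hpow : ∀ n : ℕ, i ≫ (((W.FE Z - 1) ^ n : End Z) : Z ⟶ Z) =
      (((W.FE Z₁ - 1) ^ n : End Z₁) : Z₁ ⟶ Z₁) ≫ i := by
    intro n
    induction n with
    | zero =>
      rw [pow_zero, pow_zero]
      exact (Category.comp_id i).trans (Category.id_comp i).symm
    | succ n ih =>
      rw [pow_succ', pow_succ']
      have h1 : i ≫ ((W.FE Z - 1 : End Z) : Z ⟶ Z) = ((W.FE Z₁ - 1 : End Z₁) : Z₁ ⟶ Z₁) ≫ i := by
        have h2 : i ≫ fr W Z = fr W Z₁ ≫ i := W.F_nat i
        have h3 : i ≫ (fr W Z - 𝟙 Z) = (fr W Z₁ - 𝟙 Z₁) ≫ i := by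
          rw [Preadditive.comp_sub, Preadditive.sub_comp, h2, Category.comp_id, Category.id_comp]
        exact h3
      have h2 : (((W.FE Z - 1) * (W.FE Z - 1) ^ n : End Z) : Z ⟶ Z) =
        ((W.FE Z - 1) ^ n : End Z) ≫ (W.FE Z - 1 : End Z) := rfl
      have h3 : (((W.FE Z₁ - 1) * (W.FE Z₁ - 1) ^ n : End Z₁) : Z₁ ⟶ Z₁) =
        ((W.FE Z₁ - 1) ^ n : End Z₁) ≫ (W.FE Z₁ - 1 : End Z₁) := rfl
      rw [h2, h3, ← Category.assoc, ih, Category.assoc, h1, Category.assoc]
  have hnil : (W.FE Z₁ - 1) ^ k = 0 := by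
    have h1 : (((W.FE Z₁ - 1) ^ k : End Z₁) : Z₁ ⟶ Z₁) ≫ i = 0 := by
      rw [← hpow]
      have h2 : i = i ≫ e := by rw [← hpi, ← Category.assoc, hip, Category.id_comp]
      rw [h2, Category.assoc, hk, Limits.comp_zero]
    have h2 : (((W.FE Z₁ - 1) ^ k : End Z₁) : Z₁ ⟶ Z₁) = 0 := by
      rw [← Category.comp_id (((W.FE Z₁ - 1) ^ k : End Z₁) : Z₁ ⟶ Z₁), ← hip, ← Category.assoc, h1,
        Limits.zero_comp]
    exact h2
  have hid : 𝟙 Z₁ = 0 := id_zero W hT hN (t_zero W hnil hm1)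
  have h1 : f ≫ (𝟙 Z - e) = 0 := by
    have h3 : f ≫ fr W Z = f := by
      have h4 : f ≫ fr W Z = W.F.app (𝟙_ C) ≫ f := W.F_nat f
      rw [h4, W.F_unit]
      exact Category.id_comp f
    rw [hb, ← Category.assoc, Preadditive.comp_sub, h3, Category.comp_id, sub_self, Limits.zero_comp]
  have h2 : f ≫ e = 0 := by
    rw [← hpi, ← Category.comp_id p, hid, Limits.comp_zero, Limits.zero_comp, Limits.comp_zero]
  rw [Preadditive.comp_sub, Category.comp_id, h2, sub_zero] at h1
  exact h1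

/-- Numerically trivial sections are zero. -/
lemma nt_zero (hT : W.StrongTate) (hF : ∀ X : C, Module.Finite ℚ (X ⟶ X))
    (hN : ∀ (X : C) (f : End X), NT (f : X ⟶ X) → IsNilpotent f) (n : ℕ) :
    ∀ Z : C, W.mult Z = n → ∀ f : 𝟙_ C ⟶ Z, f ∈ ntSections Z → f = 0 := by
  induction n with
  | zero => exact fun Z hZ f _ => sec_zero W hT hF hN hZ f
  | succ n ih =>
    intro Z hZ f hf
    obtain ⟨h, hh⟩ : ∃ h : 𝟙_ C ⟶ Z, h ∉ ntSections Z := by
      by_contra hcon
      push Not at hcon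
      have h1 : ntSections Z = ⊤ := by
        rw [eq_top_iff]
        exact fun x _ => hcon x
      have h2 := hT Z
      rw [hZ] at h2
      have h3 : Subsingleton ((𝟙_ C ⟶ Z) ⧸ ntSections Z) :=
        Submodule.Quotient.subsingleton_iff.2 h1
      rw [rank_subsingleton'] at h2
      have h4 : ((0 : ℕ) : Cardinal.{v}) = ((n + 1 : ℕ) : Cardinal.{v}) := by
        rw [← h2]
        exact Nat.cast_zero
      exact absurd (Nat.cast_injective h4) (by omega)
    obtain ⟨g, hg⟩ : ∃ g : Z ⟶ 𝟙_ C, h ≫ g ≠ 0 := by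
      by_contra hcon
      push Not at hcon
      exact hh hcon
    have h1 := W.val_spec (h ≫ g)
    have h2 : W.val (h ≫ g) ≠ 0 := by
      intro h3
      rw [h3, zero_smul] at h1
      exact hg h1
    set g' : Z ⟶ 𝟙_ C := (W.val (h ≫ g))⁻¹ • g with hg'
    have h3 : h ≫ g' = 𝟙 _ := by
      rw [hg', Linear.comp_smul, h1, W.val_smul, W.val_id, mul_one, smul_smul,
        inv_mul_cancel₀ h2, one_smul]
    have h4 : (𝟙 Z - g' ≫ h) ≫ (𝟙 Z - g' ≫ h) = 𝟙 Z - g' ≫ h := by
      rw [Preadditive.sub_comp, Preadditive.comp_sub, Preadditive.comp_sub, Category.id_comp,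
        Category.comp_id, Category.id_comp, Category.assoc, ← Category.assoc h g', h3,
        Category.id_comp]
      abel
    obtain ⟨Y, i, p, h5, h6⟩ := IsIdempotentComplete.idempotents_split Z _ h4
    have h7 := W.mult_add (W.t_split h g' h3 i p h5 (by rw [h6]; abel))
    rw [W.mult_unit, hZ] at h7
    have h8 : f ≫ p = 0 := ih Y (by omega) (f ≫ p) fun g => by
      rw [Category.assoc]
      exact hf _
    have h9 : f = f ≫ (g' ≫ h + p ≫ i) := by
      rw [h6]
      have : g' ≫ h + (𝟙 Z - g' ≫ h) = 𝟙 Z := by abel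
      rw [this, Category.comp_id]
    rw [h9, Preadditive.comp_add, ← Category.assoc, hf g', Limits.zero_comp, ← Category.assoc, h8,
      Limits.zero_comp, add_zero]

end Split

end

end MotP.GGap.NIL

namespace MotP.GGap

open Mot

theorem t_NIL (C : Type u) [Category.{v} C] [Preadditive C] [Linear ℚ C] [MonoidalCategory C]
    [SymmetricCategory C] [MonoidalPreadditive C] [MonoidalLinear ℚ C] [RightRigidCategory C] :
    S_NIL C := by
  intro _ W hT hF hN X Y f hf
  have h1 : nm f = 0 := NIL.nt_zero W hT hF hN _ (Y ⊗ Xᘁ) rfl _ fun g => by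
    obtain ⟨h, rfl⟩ := ev_surj g
    rw [nm_ev]
    exact hf h
  apply nm_inj
  rw [h1]
  exact (map_zero (nmL X Y)).symm

end MotP.GGap
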