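import Pool.Agent.GGap.St

set_option autoImplicit false

namespace MotP.GGap.NUM

theorem one_term (x y m : ℕ) : ∃ i, i ≤ m ∧
    (x + y) ^ m ≤ (m + 1) * (m.choose i * (x ^ i * y ^ (m - i))) := by
  obtain ⟨i, hi, hmax⟩ := Finset.exists_max_image (Finset.range (m + 1))
    (fun i => x ^ i * y ^ (m - i) * m.choose i) ⟨0, Finset.mem_range.2 (Nat.succ_pos m)⟩
  refine ⟨i, Nat.lt_succ_iff.1 (Finset.mem_range.1 hi), ?_⟩
  rw [add_pow]
  have h := Finset.sum_le_card_nsmul (Finset.range (m + 1))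
    (fun i => x ^ i * y ^ (m - i) * m.choose i) _ hmax
  rw [Finset.card_range, smul_eq_mul] at h
  refine h.trans (le_of_eq ?_)
  ring

end MotP.GGap.NUM

namespace MotP.GGap

theorem t_NUM : S_NUM := by
  intro a b r
  obtain ⟨k, hk, h1⟩ := NUM.one_term 1 (a + b) r
  obtain ⟨i, hi, h2⟩ := NUM.one_term a b (r - k)
  refine ⟨k, i, r - k - i, by omega, ?_⟩
  have e : i + (r - k - i) = r - k := by omega
  rw [e]
  have h3 : (a + b) ^ (r - k) ≤
      (r + 1) * ((r - k).choose i * (a ^ i * b ^ (r - k - i))) :=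
    h2.trans (Nat.mul_le_mul_right _ (by omega))
  rw [one_pow, one_mul] at h1
  calc (1 + a + b) ^ r = (1 + (a + b)) ^ r := by rw [add_assoc]
    _ ≤ (r + 1) * (r.choose k * (a + b) ^ (r - k)) := h1
    _ ≤ (r + 1) * (r.choose k * ((r + 1) * ((r - k).choose i * (a ^ i * b ^ (r - k - i))))) :=
        Nat.mul_le_mul_left _ (Nat.mul_le_mul_left _ h3)
    _ = (r + 1) ^ 2 * (r.choose k * (r - k).choose i * (a ^ i * b ^ (r - k - i))) := by ring

end MotP.GGap
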