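import Pool.Agent.GGap.St

/-!
# The growth gap: the action of the symmetric groups on tensor powers (module PRM)
-/

set_option autoImplicit false

open CategoryTheory MonoidalCategory BraidedCategory Limits

universe v u

namespace MotP.GGap

open Mot

namespace PRM

open Equiv

/-! ## Permutations -/

lemma up_inj {n : ℕ} {σ τ : Perm (Fin n)} (h : up σ = up τ) : σ = τ := by
  ext i
  have h1 := congrArg (fun f : Perm (Fin (n + 1)) => f i.castSucc) h
  simp only [up_castSucc] at h1
  have h2 := Fin.castSucc_injective _ h1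
  rw [h2]

lemma up_swap {n : ℕ} (i j : Fin n) : up (swap i j) = swap i.castSucc j.castSucc := by
  ext k
  refine Fin.lastCases ?_ (fun k => ?_) k
  · rw [up_last, swap_apply_of_ne_of_ne (Fin.castSucc_lt_last i).ne' (Fin.castSucc_lt_last j).ne']
  · rw [up_castSucc]
    by_cases h1 : k = i
    · subst h1
      rw [swap_apply_left, swap_apply_left]
    · by_cases h2 : k = j
      · subst h2
        rw [swap_apply_right, swap_apply_right]
      · rw [swap_apply_of_ne_of_ne h1 h2, swap_apply_of_ne_of_ne]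
        · exact fun h => h1 (Fin.castSucc_injective _ h)
        · exact fun h => h2 (Fin.castSucc_injective _ h)

/-- the exchange of the last two letters -/
def sp (n : ℕ) : Perm (Fin (n + 2)) := swap (Fin.last n).castSucc (Fin.last (n + 1))

lemma sp_sq (n : ℕ) : sp n * sp n = 1 := swap_mul_self _ _

lemma sp_comm (n : ℕ) (σ : Perm (Fin n)) : up (up σ) * sp n = sp n * up (up σ) := by
  unfold sp
  rw [mul_swap_eq_swap_mul, up_last, up_castSucc, up_last]

lemma sp_braid (n : ℕ) : sp (n + 1) * up (sp n) * sp (n + 1) = up (sp n) * sp (n + 1) * up (sp n) := by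
  unfold sp
  rw [up_swap]
  have h1 : (Fin.last n).castSucc.castSucc ≠ (Fin.last (n + 1)).castSucc := by
    intro h
    have := Fin.castSucc_injective _ h
    exact (Fin.castSucc_lt_last _).ne this
  have h2 : (Fin.last n).castSucc.castSucc ≠ Fin.last (n + 2) := (Fin.castSucc_lt_last _).ne
  have h3 : (Fin.last (n + 1)).castSucc ≠ Fin.last (n + 2) := (Fin.castSucc_lt_last _).ne
  rw [swap_mul_swap_mul_swap h1 h2, swap_comm (Fin.last n).castSucc.castSucc,
    swap_comm (Fin.last (n + 1)).castSucc (Fin.last (n + 2)),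
    swap_mul_swap_mul_swap h3.symm h2.symm, swap_comm]

/-- `up` as a homomorphism -/
def upH (n : ℕ) : Perm (Fin n) →* Perm (Fin (n + 1)) where
  toFun := up
  map_one' := up_one
  map_mul' := up_mul

/-! ## Towers of monoids -/

section Tower

variable {E : ℕ → Type v} [∀ n, Monoid (E n)] (w : ∀ n, E n →* E (n + 1)) (s : ∀ n, E (n + 2))

/-- the homomorphism on pairs -/
def io (n : ℕ) : Perm (Fin n) × E n →* Perm (Fin (n + 1)) × E (n + 1) :=
  MonoidHom.prodMap (upH n) (w n)

/-- the last generator -/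
def S (n : ℕ) : Perm (Fin (n + 2)) × E (n + 2) := (sp n, s n)

/-- the monoids generated by the pairs -/
def M : (n : ℕ) → Submonoid (Perm (Fin n) × E n)
  | 0 => ⊥
  | 1 => ⊥
  | n + 2 => Submonoid.closure ((io w (n + 1)) '' (M (n + 1)) ∪ {S s n})

variable {w s}

lemma io_mem {n : ℕ} {x : Perm (Fin n) × E n} (hx : x ∈ M w s n) : io w n x ∈ M w s (n + 1) := by
  cases n with
  | zero =>
    have h1 : x = 1 := Submonoid.mem_bot.mp hx
    rw [h1, map_one]
    exact one_mem _
  | succ n => exact Submonoid.subset_closure (Or.inl ⟨x, hx, rfl⟩)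

lemma S_mem (n : ℕ) : S s n ∈ M w s (n + 2) := Submonoid.subset_closure (Or.inr rfl)

lemma S_sq (hs : ∀ n, s n * s n = 1) (n : ℕ) : S s n * S s n = 1 := by
  unfold S
  rw [Prod.mk_mul_mk, sp_sq, hs]
  rfl

lemma S_comm (hc : ∀ n x, w (n + 1) (w n x) * s n = s n * w (n + 1) (w n x)) (n : ℕ)
    (x : Perm (Fin n) × E n) : io w (n + 1) (io w n x) * S s n = S s n * io w (n + 1) (io w n x) := by
  obtain ⟨σ, g⟩ := x
  exact Prod.ext (sp_comm n σ) (hc n g)

lemma S_braid (hb : ∀ n, s (n + 1) * w (n + 2) (s n) * s (n + 1) =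
    w (n + 2) (s n) * s (n + 1) * w (n + 2) (s n)) (n : ℕ) :
    S s (n + 1) * io w (n + 2) (S s n) * S s (n + 1) =
      io w (n + 2) (S s n) * S s (n + 1) * io w (n + 2) (S s n) :=
  Prod.ext (sp_braid n) (hb n)

/-- the normal form -/
lemma normal (hs : ∀ n, s n * s n = 1)
    (hc : ∀ n x, w (n + 1) (w n x) * s n = s n * w (n + 1) (w n x))
    (hb : ∀ n, s (n + 1) * w (n + 2) (s n) * s (n + 1) =
      w (n + 2) (s n) * s (n + 1) * w (n + 2) (s n)) (n : ℕ) :
    ∀ z ∈ M w s (n + 2), (∃ x ∈ M w s (n + 1), z = io w (n + 1) x) ∨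
      ∃ x ∈ M w s (n + 1), ∃ y ∈ M w s (n + 1), z = io w (n + 1) x * S s n * io w (n + 1) y := by
  induction n with
  | zero =>
    intro z hz
    refine Submonoid.closure_induction_right (motive := fun z _ =>
      (∃ x ∈ M w s 1, z = io w 1 x) ∨ ∃ x ∈ M w s 1, ∃ y ∈ M w s 1,
        z = io w 1 x * S s 0 * io w 1 y) ?_ ?_ hz
    · exact Or.inl ⟨1, one_mem _, (map_one _).symm⟩
    · rintro a ha g hg ih
      rcases hg with ⟨g, hg, rfl⟩ | hg
      · rcases ih with ⟨x, hx, rfl⟩ | ⟨x, hx, y, hy, rfl⟩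
        · exact Or.inl ⟨x * g, mul_mem hx hg, (map_mul _ _ _).symm⟩
        · exact Or.inr ⟨x, hx, y * g, mul_mem hy hg, by simp only [map_mul, mul_assoc]⟩
      · have hg' : g = S s 0 := hg
        subst hg'
        rcases ih with ⟨x, hx, rfl⟩ | ⟨x, hx, y, hy, rfl⟩
        · exact Or.inr ⟨x, hx, 1, one_mem _, by rw [map_one, mul_one]⟩
        · have h1 : y = 1 := Submonoid.mem_bot.mp hy
          refine Or.inl ⟨x, hx, ?_⟩
          rw [h1, map_one, mul_one, mul_assoc, S_sq hs, mul_one]
  | succ n ihn =>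
    intro z hz
    refine Submonoid.closure_induction_right (motive := fun z _ =>
      (∃ x ∈ M w s (n + 2), z = io w (n + 2) x) ∨ ∃ x ∈ M w s (n + 2), ∃ y ∈ M w s (n + 2),
        z = io w (n + 2) x * S s (n + 1) * io w (n + 2) y) ?_ ?_ hz
    · exact Or.inl ⟨1, one_mem _, (map_one _).symm⟩
    · rintro a ha g hg ih
      rcases hg with ⟨g, hg, rfl⟩ | hg
      · rcases ih with ⟨x, hx, rfl⟩ | ⟨x, hx, y, hy, rfl⟩
        · exact Or.inl ⟨x * g, mul_mem hx hg, (map_mul _ _ _).symm⟩
        · exact Or.inr ⟨x, hx, y * g, mul_mem hy hg, by simp only [map_mul, mul_assoc]⟩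
      · have hg' : g = S s (n + 1) := hg
        subst hg'
        rcases ih with ⟨x, hx, rfl⟩ | ⟨x, hx, y, hy, rfl⟩
        · exact Or.inr ⟨x, hx, 1, one_mem _, by rw [map_one, mul_one]⟩
        · rcases ihn y hy with ⟨u, hu, rfl⟩ | ⟨u, hu, v, hv, rfl⟩
          · refine Or.inl ⟨x * io w (n + 1) u, mul_mem hx (io_mem hu), ?_⟩
            rw [mul_assoc, S_comm hc, mul_assoc, ← mul_assoc (S s (n + 1)), S_sq hs, one_mul,
              map_mul]
          · refine Or.inr ⟨x * io w (n + 1) u * S s n,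
              mul_mem (mul_mem hx (io_mem hu)) (S_mem n), S s n * io w (n + 1) v,
              mul_mem (S_mem n) (io_mem hv), ?_⟩
            have e1 := S_comm hc (n + 1) u
            have e2 := S_comm hc (n + 1) v
            have e3 := S_braid hb n
            simp only [map_mul]
            generalize io w (n + 2) x = X at *
            generalize io w (n + 2) (io w (n + 1) u) = U at *
            generalize io w (n + 2) (io w (n + 1) v) = V at *
            generalize io w (n + 2) (S s n) = A at *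
            generalize S s (n + 1) = B at *
            calc X * B * (U * A * V) * B = X * (B * U) * A * (V * B) := by simp only [mul_assoc]
              _ = X * (U * B) * A * (B * V) := by rw [e2, e1]
              _ = X * U * (B * A * B) * V := by simp only [mul_assoc]
              _ = X * U * (A * B * A) * V := by rw [e3]
              _ = _ := by simp only [mul_assoc]

lemma inj (hs : ∀ n, s n * s n = 1)
    (hc : ∀ n x, w (n + 1) (w n x) * s n = s n * w (n + 1) (w n x))
    (hb : ∀ n, s (n + 1) * w (n + 2) (s n) * s (n + 1) =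
      w (n + 2) (s n) * s (n + 1) * w (n + 2) (s n)) (n : ℕ) (g : E n)
    (hg : ((1 : Perm (Fin n)), g) ∈ M w s n) : g = 1 := by
  induction n with
  | zero => exact (Prod.ext_iff.mp (Submonoid.mem_bot.mp hg)).2
  | succ n ih =>
    cases n with
    | zero => exact (Prod.ext_iff.mp (Submonoid.mem_bot.mp hg)).2
    | succ n =>
      rcases normal hs hc hb n _ hg with ⟨⟨σ, x⟩, hx, e⟩ | ⟨⟨σ, x⟩, hx, ⟨τ, y⟩, hy, e⟩
      · have e1 : (1 : Perm (Fin (n + 2))) = up σ := (Prod.ext_iff.mp e).1
        have e2 : g = w (n + 1) x := (Prod.ext_iff.mp e).2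
        have e3 : (1 : Perm (Fin (n + 1))) = σ := by
          apply up_inj
          rw [up_one, e1]
        subst e3
        rw [e2, ih x hx, map_one]
      · exfalso
        have e1 : (1 : Perm (Fin (n + 2))) = up σ * sp n * up τ := (Prod.ext_iff.mp e).1
        have e2 := congrArg (fun f : Perm (Fin (n + 2)) => f (Fin.last (n + 1))) e1
        simp only [Perm.coe_one, id_eq, Perm.coe_mul, Function.comp_apply, up_last] at e2
        unfold sp at e2
        rw [swap_apply_right, up_castSucc] at e2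
        exact (Fin.castSucc_lt_last _).ne' e2

lemma io_inv {n : ℕ} {x x' : Perm (Fin n) × E n} (h : x * x' = 1) :
    io w n x * io w n x' = 1 := by
  rw [← map_mul, h, map_one]

lemma inv (hs : ∀ n, s n * s n = 1) (n : ℕ) :
    ∀ x ∈ M w s n, ∃ y ∈ M w s n, x * y = 1 ∧ y * x = 1 := by
  have key : ∀ (n : ℕ), (∀ x ∈ M w s (n + 1), ∃ y ∈ M w s (n + 1), x * y = 1 ∧ y * x = 1) →
      ∀ x ∈ M w s (n + 2), ∃ y ∈ M w s (n + 2), x * y = 1 ∧ y * x = 1 := by
    intro n ih x hx
    refine Submonoid.closure_induction (motive := fun x _ => ∃ y ∈ M w s (n + 2), x * y = 1 ∧ y * x = 1)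
      ?_ ?_ ?_ hx
    · rintro g (⟨g, hg, rfl⟩ | hg)
      · obtain ⟨y, hy, h1, h2⟩ := ih g hg
        exact ⟨io w (n + 1) y, io_mem hy, io_inv h1, io_inv h2⟩
      · have hg' : g = S s n := hg
        subst hg'
        exact ⟨S s n, S_mem n, S_sq hs n, S_sq hs n⟩
    · exact ⟨1, one_mem _, one_mul _, one_mul _⟩
    · rintro a b _ _ ⟨a', ha, h1, h2⟩ ⟨b', hb, h3, h4⟩
      refine ⟨b' * a', mul_mem hb ha, ?_, ?_⟩
      · calc a * b * (b' * a') = a * (b * b') * a' := by simp only [mul_assoc]
          _ = 1 := by rw [h3, mul_one, h1]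
      · calc b' * a' * (a * b) = b' * (a' * a) * b := by simp only [mul_assoc]
          _ = 1 := by rw [h2, mul_one, h4]
  induction n with
  | zero =>
    intro x hx
    have h1 : x = 1 := Submonoid.mem_bot.mp hx
    exact ⟨1, one_mem _, by rw [h1, one_mul], by rw [h1, one_mul]⟩
  | succ n ih =>
    cases n with
    | zero =>
      intro x hx
      have h1 : x = 1 := Submonoid.mem_bot.mp hx
      exact ⟨1, one_mem _, by rw [h1, one_mul], by rw [h1, one_mul]⟩
    | succ n => exact key n ih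

lemma uniq (hs : ∀ n, s n * s n = 1)
    (hc : ∀ n x, w (n + 1) (w n x) * s n = s n * w (n + 1) (w n x))
    (hb : ∀ n, s (n + 1) * w (n + 2) (s n) * s (n + 1) =
      w (n + 2) (s n) * s (n + 1) * w (n + 2) (s n)) (n : ℕ) (σ : Perm (Fin n)) (g h : E n)
    (hg : (σ, g) ∈ M w s n) (hh : (σ, h) ∈ M w s n) : g = h := by
  obtain ⟨⟨τ, k⟩, hk, h1, h2⟩ := inv hs n _ hg
  have e1 : σ * τ = 1 := (Prod.ext_iff.mp h1).1
  have e2 : g * k = 1 := (Prod.ext_iff.mp h1).2
  have e3 : k * g = 1 := (Prod.ext_iff.mp h2).2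
  have h3 : ((1 : Perm (Fin n)), h * k) ∈ M w s n := by
    have := mul_mem hh hk
    rwa [Prod.mk_mul_mk, e1] at this
  have h4 := inj hs hc hb n _ h3
  calc g = (h * k) * g := by rw [h4, one_mul]
    _ = h := by rw [mul_assoc, e3, mul_one]

lemma surj (n : ℕ) : ∀ σ : Perm (Fin n), ∃ g : E n, (σ, g) ∈ M w s n := by
  have key : ∀ n : ℕ, (∀ σ : Perm (Fin (n + 1)), ∃ g : E (n + 1), (σ, g) ∈ M w s (n + 1)) →
      ∀ σ : Perm (Fin (n + 2)), ∃ g : E (n + 2), (σ, g) ∈ M w s (n + 2) := by
    intro n ih σ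
    have hσ : σ ∈ Submonoid.closure
        (Set.range fun i : Fin (n + 1) => swap i.castSucc i.succ) := by
      rw [Perm.mclosure_swap_castSucc_succ]
      trivial
    refine Submonoid.closure_induction (motive := fun σ _ => ∃ g : E (n + 2), (σ, g) ∈ M w s (n + 2))
      ?_ ?_ ?_ hσ
    · rintro _ ⟨i, rfl⟩
      refine Fin.lastCases ?_ (fun j => ?_) i
      · exact ⟨s n, S_mem n⟩
      · obtain ⟨g, hg⟩ := ih (swap j.castSucc j.succ)
        refine ⟨w (n + 1) g, ?_⟩
        have h1 := io_mem hg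
        have h2 : io w (n + 1) (swap j.castSucc j.succ, g) =
            (swap j.castSucc.castSucc j.castSucc.succ, w (n + 1) g) := by
          refine Prod.ext ?_ rfl
          change up (swap j.castSucc j.succ) = _
          rw [up_swap]
          rfl
        rw [h2] at h1
        exact h1
    · exact ⟨1, one_mem _⟩
    · rintro a b _ _ ⟨g, hg⟩ ⟨h, hh⟩
      exact ⟨g * h, mul_mem hg hh⟩
  induction n with
  | zero =>
    intro σ
    refine ⟨1, ?_⟩
    have h1 : σ = 1 := Subsingleton.elim _ _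
    rw [h1]
    exact one_mem _
  | succ n ih =>
    cases n with
    | zero =>
      intro σ
      refine ⟨1, ?_⟩
      have h1 : σ = 1 := by
        ext i
        have h2 : ∀ a b : Fin (0 + 1), a = b := fun a b => by
          apply Fin.ext
          omega
        rw [h2 (σ i) ((1 : Perm (Fin (0 + 1))) i)]
      rw [h1]
      exact one_mem _
    | succ n => exact key n ih

/-- the action for a tower of monoids -/
theorem act (hs : ∀ n, s n * s n = 1)
    (hc : ∀ n x, w (n + 1) (w n x) * s n = s n * w (n + 1) (w n x))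
    (hb : ∀ n, s (n + 1) * w (n + 2) (s n) * s (n + 1) =
      w (n + 2) (s n) * s (n + 1) * w (n + 2) (s n)) :
    ∃ ρ : ∀ n, Perm (Fin n) → E n, (∀ n, ρ n 1 = 1) ∧ (∀ n σ τ, ρ n (σ * τ) = ρ n σ * ρ n τ) ∧
      (∀ n σ, ρ (n + 1) (up σ) = w n (ρ n σ)) ∧ ∀ n, ρ (n + 2) (sp n) = s n := by
  choose ρ hρ using (surj (w := w) (s := s))
  refine ⟨ρ, fun n => ?_, fun n σ τ => ?_, fun n σ => ?_, fun n => ?_⟩
  · exact uniq hs hc hb n 1 _ _ (hρ n 1) (one_mem _)
  · exact uniq hs hc hb n _ _ _ (hρ n _) (mul_mem (hρ n σ) (hρ n τ))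
  · exact uniq hs hc hb _ _ _ _ (hρ (n + 1) _) (io_mem (hρ n σ))
  · exact uniq hs hc hb _ _ _ _ (hρ (n + 2) _) (S_mem n)

end Tower

end PRM

noncomputable section

variable (C : Type u) [Category.{v} C] [Preadditive C] [Linear ℚ C] [MonoidalCategory C]
  [SymmetricCategory C] [MonoidalPreadditive C] [MonoidalLinear ℚ C] [RightRigidCategory C]

theorem t_PRM : S_PRM C := by
  intro X
  obtain ⟨ρ, h1, h2, h3, h4⟩ := PRM.act (E := fun n => End (T X n))
    (w := fun n => { toFun := fun f => ((f : T X n ⟶ T X n) ▷ X : T X n ⊗ X ⟶ T X n ⊗ X)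
                     map_one' := id_whiskerRight _ _
                     map_mul' := fun f g => comp_whiskerRight _ _ _ })
    (s := fun n => (sw (T X n) X : (T X n ⊗ X) ⊗ X ⟶ (T X n ⊗ X) ⊗ X))
    (fun n => sw_sq _ _) (fun n f => (sw_nat _ _).symm) (fun n => sw_braid _ _)
  exact ⟨⟨ρ, h1, h2, h3, h4⟩⟩

end

end MotP.GGap
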