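import Pool.Agent.GGap.St

/-!
# Module RIS of the growth gap: rising factorials
-/

set_option autoImplicit false

namespace MotP.GGap

namespace RIS

/-- Telescoping: `c * ∏_(j < i) (c + 1 + j) = (c + i) * ∏_(j < i) (c + j)`. -/
theorem tele (c i : ℕ) :
    c * ∏ j ∈ Finset.range i, (c + 1 + j) = (c + i) * ∏ j ∈ Finset.range i, (c + j) := by
  induction i with
  | zero => simp
  | succ i ih =>
    rw [Finset.prod_range_succ, Finset.prod_range_succ, ← mul_assoc, ih]
    ring

theorem one (i : ℕ) : ∏ j ∈ Finset.range i, (1 + j) = i.factorial := by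
  induction i with
  | zero => simp
  | succ i ih =>
    rw [Finset.prod_range_succ, ih, Nat.factorial_succ]
    ring

theorem main (i c : ℕ) : ∏ j ∈ Finset.range i, (c + j) ≤ i.factorial * (i + 1) ^ c := by
  induction c with
  | zero =>
    rcases Nat.eq_zero_or_pos i with h | h
    · subst h
      simp
    · have h0 : ∏ j ∈ Finset.range i, (0 + j) = 0 :=
        Finset.prod_eq_zero (Finset.mem_range.2 h) (by simp)
      rw [h0]
      exact Nat.zero_le _
  | succ c ih =>
    rcases Nat.eq_zero_or_pos c with h | h
    · subst h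
      have h1 : ∏ j ∈ Finset.range i, (0 + 1 + j) = i.factorial := one i
      rw [h1]
      exact Nat.le_mul_of_pos_right _ (Nat.pos_of_ne_zero (pow_ne_zero _ (Nat.succ_ne_zero i)))
    · have h2 : c + i ≤ c * (i + 1) := by nlinarith
      have h3 : c * ∏ j ∈ Finset.range i, (c + 1 + j) ≤
          c * (i.factorial * (i + 1) ^ (c + 1)) := by
        rw [tele]
        calc (c + i) * ∏ j ∈ Finset.range i, (c + j)
            ≤ (c * (i + 1)) * (i.factorial * (i + 1) ^ c) := Nat.mul_le_mul h2 ih
          _ = c * (i.factorial * (i + 1) ^ (c + 1)) := by ring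
      exact Nat.le_of_mul_le_mul_left h3 h

end RIS

theorem t_RIS : S_RIS := fun c i => RIS.main i c

end MotP.GGap
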