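import Pool.Agent.GGap.St

/-!
# Module RKL: the square of the trace is at most the rank times the sum of the squares
-/

set_option autoImplicit false

universe v

namespace MotP.GGap

noncomputable section

namespace RKL

/-- The real statement for vectors `g t` in a subspace. -/
theorem main {ι : Type} [Fintype ι] (E : Submodule ℝ (EuclideanSpace ℝ ι))
    (g : ι → EuclideanSpace ℝ ι) (hg : ∀ t, g t ∈ E) :
    (∑ t, g t t) ^ 2 ≤ (Module.finrank ℝ E : ℝ) * ∑ s, ∑ t, (g t s) ^ 2 := by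
  set u := stdOrthonormalBasis ℝ E with hu
  have hrep : ∀ t s, g t s = ∑ j, inner ℝ (u j) (⟨g t, hg t⟩ : E) * (u j : EuclideanSpace ℝ ι) s := by
    intro t s
    have h1 := u.sum_repr' (⟨g t, hg t⟩ : E)
    have h2 := congrArg (fun z : E => (z : EuclideanSpace ℝ ι)) h1
    simp only [AddSubmonoidClass.coe_finsetSum, Submodule.coe_smul] at h2
    have h3 := congrArg (fun z : EuclideanSpace ℝ ι => z s) h2
    simp only [WithLp.ofLp_sum, Finset.sum_apply, WithLp.ofLp_smul, Pi.smul_apply,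
      smul_eq_mul] at h3
    exact h3.symm
  have h1 : ∑ t, g t t = ∑ q : ι × Fin (Module.finrank ℝ E),
      inner ℝ (u q.2) (⟨g q.1, hg q.1⟩ : E) * (u q.2 : EuclideanSpace ℝ ι) q.1 := by
    rw [Fintype.sum_prod_type]
    exact Finset.sum_congr rfl fun t _ => hrep t t
  have h2 : ∑ q : ι × Fin (Module.finrank ℝ E), ((u q.2 : EuclideanSpace ℝ ι) q.1) ^ 2 =
      (Module.finrank ℝ E : ℝ) := by
    rw [Fintype.sum_prod_type_right]
    have h3 : ∀ j, ∑ t, ((u j : EuclideanSpace ℝ ι) t) ^ 2 = 1 := by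
      intro j
      have h7 : ‖(u j : EuclideanSpace ℝ ι)‖ = 1 := u.norm_eq_one j
      rw [← EuclideanSpace.real_norm_sq_eq, h7]
      norm_num
    rw [Finset.sum_congr rfl fun j _ => h3 j]
    simp
  have h3 : ∑ q : ι × Fin (Module.finrank ℝ E), (inner ℝ (u q.2) (⟨g q.1, hg q.1⟩ : E)) ^ 2 =
      ∑ s, ∑ t, (g t s) ^ 2 := by
    rw [Fintype.sum_prod_type]
    rw [Finset.sum_comm (f := fun s t => (g t s) ^ 2)]
    apply Finset.sum_congr rfl
    intro t _
    rw [← EuclideanSpace.real_norm_sq_eq]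
    have h4 := u.sum_sq_norm_inner_right (⟨g t, hg t⟩ : E)
    have h5 : ‖(⟨g t, hg t⟩ : E)‖ = ‖g t‖ := rfl
    rw [← h5, ← h4]
    apply Finset.sum_congr rfl
    intro j _
    rw [Real.norm_eq_abs, sq_abs]
  rw [h1, ← h2, ← h3, mul_comm]
  exact Finset.sum_mul_sq_le_sq_mul_sq _ _ _

end RKL

theorem t_RKL : S_RKL.{v} := by
  intro ι _ V _ _ _ x φ
  set b := Module.finBasis ℚ V with hb
  set col : Fin (Module.finrank ℚ V) → EuclideanSpace ℝ ι :=
    fun k => WithLp.toLp 2 fun s => ((b.repr (x s) k : ℚ) : ℝ) with hcol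
  set g : ι → EuclideanSpace ℝ ι := fun t => WithLp.toLp 2 fun s => ((φ t (x s) : ℚ) : ℝ) with hgdef
  have hg : ∀ t, g t ∈ Submodule.span ℝ (Set.range col) := by
    intro t
    have h1 : g t = ∑ k, ((φ t (b k) : ℚ) : ℝ) • col k := by
      ext s
      simp only [hgdef, hcol, WithLp.ofLp_sum, Finset.sum_apply, WithLp.ofLp_smul, Pi.smul_apply,
        smul_eq_mul]
      have h2 : φ t (x s) = ∑ k, φ t (b k) * b.repr (x s) k := by
        conv_lhs => rw [← b.sum_repr (x s)]
        rw [map_sum]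
        apply Finset.sum_congr rfl
        intro k _
        rw [map_smul, smul_eq_mul, mul_comm]
      rw [h2]
      push_cast
      rfl
    rw [h1]
    exact Submodule.sum_mem _ fun k _ => Submodule.smul_mem _ _ (Submodule.subset_span ⟨k, rfl⟩)
  have h1 := RKL.main (Submodule.span ℝ (Set.range col)) g hg
  have h2 : Module.finrank ℝ (Submodule.span ℝ (Set.range col)) ≤ Module.finrank ℚ V := by
    have h3 := finrank_range_le_card (R := ℝ) col
    rw [Fintype.card_fin] at h3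
    exact h3
  have h4 : (0 : ℝ) ≤ ∑ s, ∑ t, (g t s) ^ 2 :=
    Finset.sum_nonneg fun s _ => Finset.sum_nonneg fun t _ => sq_nonneg _
  have h5 : (∑ t, g t t) ^ 2 ≤ (Module.finrank ℚ V : ℝ) * ∑ s, ∑ t, (g t s) ^ 2 :=
    h1.trans (mul_le_mul_of_nonneg_right (by exact_mod_cast h2) h4)
  have h6 : (((∑ s, φ s (x s)) ^ 2 : ℚ) : ℝ) ≤
      (((Module.finrank ℚ V : ℚ) * ∑ s, ∑ t, (φ t (x s)) ^ 2 : ℚ) : ℝ) := by
    push_cast
    exact h5
  exact_mod_cast h6

end

end MotP.GGap
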