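import Pool.Agent.GGap.St

/-!
# The growth gap, module TVD: the dual object
-/

set_option autoImplicit false

open CategoryTheory MonoidalCategory BraidedCategory Limits Polynomial

universe v u

namespace MotP.GGap

open Mot

noncomputable section

set_option linter.unusedSectionVars false

variable {C : Type u} [Category.{v} C] [Preadditive C] [Linear ℚ C] [MonoidalCategory C]
  [SymmetricCategory C] [MonoidalPreadditive C] [MonoidalLinear ℚ C] [RightRigidCategory C]

namespace TVD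

/-- the trace of an endomorphism of the dual -/
lemma tr_dual {X : C} (G : Xᘁ ⟶ Xᘁ) (H : X ⟶ X) (h : η_ X Xᘁ ≫ X ◁ G = nm H) :
    tr Xᘁ G = tr X H := by
  let inst : ExactPairing Xᘁ X := exactPairing_swap X Xᘁ
  have h1 : tr Xᘁ G = @trP C _ _ _ Xᘁ X inst G := by
    unfold tr
    exact trP_indep G
  rw [h1]
  unfold trP ev
  have h2 : @ExactPairing.coevaluation C _ _ Xᘁ X inst = η_ X Xᘁ ≫ (β_ Xᘁ X).inv := rfl
  have h3 : @ExactPairing.evaluation C _ _ Xᘁ X inst = (β_ X Xᘁ).hom ≫ ε_ X Xᘁ := rfl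
  rw [h2, h3]
  have h4 : (β_ Xᘁ X).inv = (β_ X Xᘁ).hom :=
    (SymmetricCategory.braiding_swap_eq_inv_braiding Xᘁ X).symm
  rw [h4, SymmetricCategory.symmetry_assoc, Category.assoc, ← braiding_naturality_right_assoc,
    ← Category.assoc, h]
  unfold nm tr trP ev
  rw [Category.assoc]

/-- in a finite-dimensional algebra the inverse of an element is a polynomial in it -/
lemma inv_poly {A : Type v} [Ring A] [Algebra ℚ A] [Module.Finite ℚ A] (a b : A)
    (h : a * b = 1) :
    ∃ g : ℚ[X], aeval a (X * g) = 1 ∧ minpoly ℚ a ∣ X * g - 1 := by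
  have hint : IsIntegral ℚ a := IsIntegral.of_finite ℚ a
  set μ := minpoly ℚ a with hμ
  have hm : μ ≠ 0 := minpoly.ne_zero hint
  have hdiv := Polynomial.X_mul_divX_add μ
  have hc : μ.coeff 0 ≠ 0 := by
    intro h0
    rw [h0, C_0, add_zero] at hdiv
    have h1 : aeval a (divX μ) * a = 0 := by
      have h2 : aeval a (divX μ * X) = 0 := by
        rw [mul_comm, hdiv]
        exact minpoly.aeval ℚ a
      rwa [map_mul, aeval_X] at h2
    have h2 : aeval a (divX μ) = 0 := by
      calc aeval a (divX μ) = aeval a (divX μ) * a * b := by rw [mul_assoc, h, mul_one]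
        _ = 0 := by rw [h1, zero_mul]
    have h3 : divX μ ≠ 0 := by
      intro h4
      rw [h4, mul_zero] at hdiv
      exact hm hdiv.symm
    have h4 := minpoly.degree_le_of_ne_zero ℚ a h3 h2
    have h5 : degree μ = degree (divX μ) + 1 := by
      conv_lhs => rw [← hdiv]
      rw [degree_mul, degree_X, add_comm]
    rw [← hμ, h5, degree_eq_natDegree h3] at h4
    have h6 : (((divX μ).natDegree + 1 : ℕ) : WithBot ℕ) ≤ ((divX μ).natDegree : WithBot ℕ) := by
      exact_mod_cast h4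
    have h7 : (divX μ).natDegree + 1 ≤ (divX μ).natDegree := by exact_mod_cast h6
    omega
  have hg : X * (C (-(μ.coeff 0)⁻¹) * divX μ) - 1 = C (-(μ.coeff 0)⁻¹) * μ := by
    have h1 : C (-(μ.coeff 0)⁻¹) * μ = C (-(μ.coeff 0)⁻¹) * (X * divX μ + C (μ.coeff 0)) := by
      rw [hdiv]
    rw [h1, mul_add, ← C_mul]
    have h2 : -(μ.coeff 0)⁻¹ * μ.coeff 0 = -1 := by
      rw [neg_mul, inv_mul_cancel₀ hc]
    rw [h2]
    simp only [map_neg, C_1]
    ring
  refine ⟨C (-(μ.coeff 0)⁻¹) * divX μ, ?_, ?_⟩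
  · have h1 : aeval a (X * (C (-(μ.coeff 0)⁻¹) * divX μ) - 1) = 0 := by
      rw [hg, map_mul, hμ, minpoly.aeval, mul_zero]
    rw [map_sub, map_one, sub_eq_zero] at h1
    exact h1
  · rw [hg]
    exact Dvd.intro_left _ rfl

variable (W : Fr C)

lemma tr_poly (X : C) (g : ℚ[X]) :
    (W.val (tr X (aeval (W.FE X) g : End X)) : ℂ) = ∑ z ∈ W.S X, (W.ν X z : ℂ) * aeval z g := by
  induction g using Polynomial.induction_on' with
  | add p q hp hq =>
    rw [map_add]
    have h1 : tr X ((aeval (W.FE X) p + aeval (W.FE X) q : End X)) =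
        tr X (aeval (W.FE X) p : End X) + tr X (aeval (W.FE X) q : End X) := tr_add _ _
    rw [h1, W.val_add]
    push_cast
    rw [hp, hq, ← Finset.sum_add_distrib]
    apply Finset.sum_congr rfl
    intro z _
    rw [map_add]
    ring
  | monomial n a =>
    rw [aeval_monomial, Fr.FE_pow, ← Algebra.smul_def]
    have h1 : tr X ((a • (W.Fp X n : End X) : End X)) = a • tr X (W.Fp X n) := tr_smul _ _
    rw [h1, W.val_smul]
    push_cast
    have h2 := W.t_formula X n
    unfold Fr.t at h2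
    rw [h2, sum_nu, Finset.mul_sum]
    apply Finset.sum_congr rfl
    intro z _
    rw [aeval_monomial]
    unfold Fr.ν
    change _ = _ * ((algebraMap ℚ ℂ a) * z ^ n)
    simp
    ring

lemma mem_of_ν {X : C} {z : ℂ} (h : W.ν X z ≠ 0) : z ∈ W.S X := by
  by_contra h1
  exact h (nu_of_notMem h1)

lemma ν_root {X : C} (hfin : Module.Finite ℚ (X ⟶ X)) {z : ℂ} (h : W.ν X z ≠ 0) :
    aeval z (minpoly ℚ (W.FE X)) = 0 := by
  have hfin : Module.Finite ℚ (End X) := hfin
  set g := minpoly ℚ (W.FE X) with hg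
  have h1 : ∀ n : ℕ, ∑ z ∈ W.S X, ((W.ν X z : ℂ) * aeval z g) * z ^ n = 0 := by
    intro n
    have h2 := tr_poly W X (g * Polynomial.X ^ n)
    have h3 : aeval (W.FE X) (g * Polynomial.X ^ n) = 0 := by
      rw [map_mul, hg, minpoly.aeval, zero_mul]
    rw [h3] at h2
    have h4 : tr X ((0 : End X) : X ⟶ X) = 0 := tr_zero
    rw [h4, W.val_zero] at h2
    rw [Rat.cast_zero] at h2
    rw [h2]
    apply Finset.sum_congr rfl
    intro z _
    rw [map_mul, map_pow, aeval_X]
    ring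
  have h2 := lag (W.S X) _ h1 z (mem_of_ν W h)
  rcases mul_eq_zero.mp h2 with h4 | h4
  · exfalso
    apply h
    exact_mod_cast h4
  · exact h4

/-- the inverse of the power of Frobenius and the trace on the dual -/
lemma dual_inv (X : C) (n : ℕ) : ∃ H : End X, (H : X ⟶ X) ≫ W.Fp X n = 𝟙 X ∧
    W.t Xᘁ n = W.val (tr X H) := by
  obtain ⟨H, hH⟩ := nm_surj (η_ X Xᘁ ≫ X ◁ W.Fp Xᘁ n)
  have h1 : η_ X Xᘁ ≫ (W.Fp X n ⊗ₘ W.Fp Xᘁ n) = η_ X Xᘁ := by
    rw [← W.Fp_tensor, W.Fp_nat, W.Fp_of_one W.F_unit, Category.id_comp]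
  refine ⟨H, ?_, ?_⟩
  · apply nm_inj
    rw [nm_comp, hH, Category.assoc, ← tensorHom_def', h1]
    unfold nm
    rw [id_whiskerRight, Category.comp_id]
  · unfold Fr.t
    rw [tr_dual _ H hH.symm]

/-- the traces of Frobenius on the dual, and the eigenvalues are not zero -/
lemma t_dual (X : C) (hfin0 : Module.Finite ℚ (X ⟶ X)) : (∀ n, (W.t Xᘁ n : ℂ) = ∑ z ∈ W.S X, (W.ν X z : ℂ) * (z⁻¹) ^ n) ∧
    ∀ z, W.ν X z ≠ 0 → z ≠ 0 := by
  have hfin : Module.Finite ℚ (End X) := hfin0
  obtain ⟨H1, hH1, -⟩ := dual_inv W X 1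
  have hF : W.FE X * (H1 : End X) = 1 := by
    have h1 : W.Fp X 1 = W.FE X := by
      have h2 := W.FE_pow X 1
      rw [pow_one] at h2
      exact h2.symm
    rw [h1] at hH1
    exact hH1
  obtain ⟨g, hg1, hg2⟩ := inv_poly (W.FE X) H1 hF
  have hz : ∀ z, W.ν X z ≠ 0 → z * aeval z g = 1 := by
    intro z h
    obtain ⟨q, hq⟩ := hg2
    have h1 := congrArg (aeval z) hq
    rw [map_mul, ν_root W hfin0 h, zero_mul, map_sub, map_one, map_mul, aeval_X, sub_eq_zero] at h1
    exact h1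
  refine ⟨?_, ?_⟩
  · intro n
    obtain ⟨H, hH, ht⟩ := dual_inv W X n
    have h1 : (H : End X) = aeval (W.FE X) (g ^ n) := by
      have h2 : W.FE X ^ n * (H : End X) = 1 := by
        rw [W.FE_pow]
        exact hH
      have h3 : aeval (W.FE X) (g ^ n) * W.FE X ^ n = 1 := by
        have h4 : aeval (W.FE X) ((Polynomial.X * g) ^ n) = 1 := by
          rw [map_pow, hg1, one_pow]
        have h5 : (Polynomial.X * g) ^ n = g ^ n * Polynomial.X ^ n := by
          rw [mul_pow, mul_comm]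
        rw [h5, map_mul, map_pow _ (Polynomial.X), aeval_X] at h4
        exact h4
      calc (H : End X) = (aeval (W.FE X) (g ^ n) * W.FE X ^ n) * (H : End X) := by
            rw [h3, one_mul]
        _ = aeval (W.FE X) (g ^ n) * (W.FE X ^ n * (H : End X)) := by rw [mul_assoc]
        _ = _ := by rw [h2, mul_one]
    have h2 := tr_poly W X (g ^ n)
    rw [← h1] at h2
    rw [ht]
    refine h2.trans ?_
    apply Finset.sum_congr rfl
    intro z _
    by_cases h3 : W.ν X z = 0
    · rw [h3]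
      simp
    · have h4 := hz z h3
      have h5 : z ≠ 0 := by
        intro h6
        rw [h6, zero_mul] at h4
        exact zero_ne_one h4
      have h6 : aeval z g = z⁻¹ := by
        field_simp
        rw [mul_comm]
        exact h4
      rw [map_pow, h6]
  · intro z h h0
    have h4 := hz z h
    rw [h0, zero_mul] at h4
    exact zero_ne_one h4

lemma b_eq (X : C) (U : Finset ℂ) (hU : W.S X ⊆ U) : (W.b X : ℤ) = ∑ z ∈ U, |W.ν X z| := by
  classical
  have h1 : ∑ z ∈ U, (W.α X - W.β X).count z = W.bp X := by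
    apply Multiset.sum_count_eq_card
    intro z hz
    apply hU
    have h2 : z ∈ W.α X := Multiset.mem_of_le (Multiset.sub_le_self _ _) hz
    show z ∈ (W.α X + W.β X).toFinset
    simp [h2]
  have h2 : ∑ z ∈ U, (W.β X - W.α X).count z = W.bm X := by
    apply Multiset.sum_count_eq_card
    intro z hz
    apply hU
    have h2 : z ∈ W.β X := Multiset.mem_of_le (Multiset.sub_le_self _ _) hz
    show z ∈ (W.α X + W.β X).toFinset
    simp [h2]
  unfold Fr.b
  rw [← h1, ← h2, ← Finset.sum_add_distrib]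
  push_cast
  apply Finset.sum_congr rfl
  intro z _
  have h3 : W.ν X z = ((W.α X).count z : ℤ) - ((W.β X).count z : ℤ) := rfl
  rw [h3, Multiset.count_sub, Multiset.count_sub]
  rcases le_total ((W.α X).count z) ((W.β X).count z) with h4 | h4
  · rw [abs_of_nonpos (by omega)]
    omega
  · rw [abs_of_nonneg (by omega)]
    omega

lemma t_sum' (X : C) (U : Finset ℂ) (hU : W.S X ⊆ U) (n : ℕ) :
    (W.t X n : ℂ) = ∑ z ∈ U, (W.ν X z : ℂ) * z ^ n := by
  have h0 : (W.t X n : ℂ) = ∑ z ∈ W.S X, (W.ν X z : ℂ) * z ^ n := by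
    rw [W.t_formula, sum_nu]
    rfl
  rw [h0]
  apply Finset.sum_subset hU
  intro z _ hz
  have h1 : W.ν X z = 0 := nu_of_notMem hz
  rw [h1]
  simp

/-- uniqueness of the net multiplicities -/
lemma ν_unique (X : C) (a : ℂ → ℤ) (U : Finset ℂ) (ha : ∀ z, z ∉ U → a z = 0)
    (h : ∀ n, (W.t X n : ℂ) = ∑ z ∈ U, (a z : ℂ) * z ^ n) (z : ℂ) : W.ν X z = a z := by
  classical
  have h1 : ∀ n : ℕ, ∑ z ∈ W.S X ∪ U, ((W.ν X z : ℂ) - (a z : ℂ)) * z ^ n = 0 := by
    intro n
    have e1 := t_sum' W X (W.S X ∪ U) Finset.subset_union_left n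
    have e2 : ∑ z ∈ U, (a z : ℂ) * z ^ n = ∑ z ∈ W.S X ∪ U, (a z : ℂ) * z ^ n := by
      apply Finset.sum_subset Finset.subset_union_right
      intro w _ hw
      rw [ha w hw]
      simp
    rw [Finset.sum_congr rfl fun z _ => sub_mul _ _ _, Finset.sum_sub_distrib, ← e1, ← e2, ← h n, sub_self]
  by_cases hz : z ∈ W.S X ∪ U
  · have h2 := lag _ _ h1 z hz
    rw [sub_eq_zero] at h2
    exact_mod_cast h2
  · rw [Finset.mem_union, not_or] at hz
    have h2 : W.ν X z = 0 := nu_of_notMem hz.1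
    rw [h2, ha z hz.2]

end TVD

variable (C)

theorem t_TVD : S_TVD C := by
  classical
  intro W X hfin
  obtain ⟨ht, -⟩ := TVD.t_dual W X hfin
  have hinj : Function.Injective (fun z : ℂ => z⁻¹) := inv_injective
  have hν : ∀ w, W.ν Xᘁ w = W.ν X w⁻¹ := by
    apply TVD.ν_unique W Xᘁ (fun w => W.ν X w⁻¹) ((W.S X).image fun z => z⁻¹)
    · intro w hw
      have h1 : w⁻¹ ∉ W.S X := by
        intro h2
        apply hw
        rw [Finset.mem_image]
        exact ⟨w⁻¹, h2, inv_inv w⟩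
      exact nu_of_notMem h1
    · intro n
      rw [ht n, Finset.sum_image fun a _ b _ hab => hinj hab]
      apply Finset.sum_congr rfl
      intro z _
      rw [inv_inv]
  have h1 := TVD.b_eq W Xᘁ (W.S Xᘁ ∪ (W.S X).image fun z => z⁻¹) Finset.subset_union_left
  have h2 := TVD.b_eq W X (W.S X) (Finset.Subset.refl _)
  have h3 : ∑ w ∈ (W.S X).image (fun z => z⁻¹), |W.ν Xᘁ w| =
      ∑ w ∈ W.S Xᘁ ∪ (W.S X).image (fun z => z⁻¹), |W.ν Xᘁ w| := by
    apply Finset.sum_subset Finset.subset_union_right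
    intro w _ hw
    have h4 : w⁻¹ ∉ W.S X := by
      intro h2
      apply hw
      rw [Finset.mem_image]
      exact ⟨w⁻¹, h2, inv_inv w⟩
    have h5 : W.ν X w⁻¹ = 0 := nu_of_notMem h4
    rw [hν, h5, abs_zero]
  rw [← h3, Finset.sum_image fun a _ b _ hab => hinj hab] at h1
  have h4 : ∑ z ∈ W.S X, |W.ν Xᘁ z⁻¹| = ∑ z ∈ W.S X, |W.ν X z| := by
    apply Finset.sum_congr rfl
    intro z _
    rw [hν, inv_inv]
  rw [h4, ← h2] at h1
  have h5 : W.b Xᘁ = W.b X := by exact_mod_cast h1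
  exact h5.le

end

end MotP.GGap
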