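import Pool.Agent.GGap.Cat
import Pool.Agent.GGap.P_CHI
import Pool.Agent.GGap.P_COP
import Pool.Agent.GGap.P_CPD
import Pool.Agent.GGap.P_DEC
import Pool.Agent.GGap.P_DIM
import Pool.Agent.GGap.P_EMB
import Pool.Agent.GGap.P_GAP
import Pool.Agent.GGap.P_GRM
import Pool.Agent.GGap.P_GRP
import Pool.Agent.GGap.P_GRW
import Pool.Agent.GGap.P_NET
import Pool.Agent.GGap.P_NIL
import Pool.Agent.GGap.P_NUM
import Pool.Agent.GGap.P_PRM
import Pool.Agent.GGap.P_RIS
import Pool.Agent.GGap.P_RKL
import Pool.Agent.GGap.P_TVA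
import Pool.Agent.GGap.P_TVD

/-!
# The growth gap: the theorems for categories
-/

set_option autoImplicit false

open CategoryTheory MonoidalCategory BraidedCategory Limits

universe v u

namespace MotP.GGap

open Mot

noncomputable section

variable (C : Type u) [Category.{v} C] [Preadditive C] [Linear ℚ C] [MonoidalCategory C]
  [SymmetricCategory C] [MonoidalPreadditive C] [MonoidalLinear ℚ C] [RightRigidCategory C]

/-- the growth gap -/
theorem f_GAP : S_GAP C :=
  t_GAP C t_NUM t_RIS (t_COP C) (t_CPD C) (t_EMB C)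
    (t_GRM C (t_PRM C) (t_DIM C t_RKL) (t_CHI C t_GRP)) (t_NET C) (t_DEC C)

variable {C}

/-- The growth gap for one object: if the endomorphism space of one tensor power of `X` is small,
then the numerically trivial endomorphisms of `X` are nilpotent. -/
theorem gap [IsIdempotentComplete C] (W : MotP.Frobenius C) (X : C) (r : ℕ) (hr : 0 < r)
    (h : Small W X r) (f : End X) (hf : NumTrivial (f : X ⟶ X)) : IsNilpotent f :=
  nil_of_small (f_GAP C) W X r hr h f hf

/-- The equivalences under the strong Tate conjecture. -/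
theorem equivalences [HasFiniteBiproducts C] [IsIdempotentComplete C] (W : MotP.Frobenius C)
    (hT : W.StrongTate) :
    [IsAbelian C,
      ∀ (X Y : C) (f : X ⟶ Y), NumTrivial f → f = 0,
      ∃ K : ℕ, ∀ X : C, Module.rank ℚ (𝟙_ C ⟶ X) ≤ ((K * number W X : ℕ) : Cardinal.{v}),
      ∀ X : C, ∃ r, 0 < r ∧ Small W X r].TFAE :=
  tfae (t_EMB C) (f_GAP C) t_GRW (t_TVA C) (t_TVD C) (t_NIL C) W hT

/-- an abelian category with a Frobenius structure: the dimensions of the spaces of sections -/
theorem rank_of_abelian {C : Type u} [Category.{v} C] [Abelian C] [Linear ℚ C]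
    [MonoidalCategory C] [SymmetricCategory C] [MonoidalPreadditive C] [MonoidalLinear ℚ C]
    [RightRigidCategory C] (W : MotP.Frobenius C) (X : C) :
    Module.rank ℚ (𝟙_ C ⟶ X) ≤ ((number W X : ℕ) : Cardinal.{v}) := by
  have hfin := W.toMot.finite_hom (𝟙_ C) X
  have hfin' := W.toMot.finite_hom X (𝟙_ C)
  have h1 : Module.finrank ℚ (𝟙_ C ⟶ X) + Module.finrank ℚ (Mot.Nt' X) ≤
    (W.even X).count 1 := W.toMot.bound X
  have h2 : (W.even X).count 1 ≤ number W X := (t_TVA C (ofFrobenius W)).2.2.2 X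
  rw [← Module.finrank_eq_rank, Nat.cast_le]
  omega

theorem bound_of_abelian [HasFiniteBiproducts C] (W : MotP.Frobenius C) (h : IsAbelian C)
    (X : C) : Module.rank ℚ (𝟙_ C ⟶ X) ≤ ((number W X : ℕ) : Cardinal.{v}) := by
  obtain ⟨hK, hCK, hcomp⟩ := h
  have hc : ∀ {X Y : C} (f : X ⟶ Y), IsIso (Abelian.coimageImageComparison f) :=
    fun f => hcomp _ _ f
  let _ : Abelian C := Abelian.ofCoimageImageComparisonIsIso
  exact rank_of_abelian W X

/-- abelian categories satisfy the inequality -/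
theorem small_of_abelian [HasFiniteBiproducts C] (W : MotP.Frobenius C) (h : IsAbelian C)
    (X : C) : ∃ r, 0 < r ∧ Small W X r :=
  small_of_bound t_GRW (t_TVA C) (t_TVD C) W 1
    (fun Y => by rw [one_mul]; exact bound_of_abelian W h Y) X

/-- The growth criterion. -/
theorem criterion [HasFiniteBiproducts C] [IsIdempotentComplete C] (W : MotP.Frobenius C) :
    (IsAbelian C → ∀ X : C, ∃ r, 0 < r ∧ Small W X r) ∧
    (∀ (X : C) (r : ℕ), 0 < r → Small W X r → ∀ f : End X, NumTrivial (f : X ⟶ X) →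
      IsNilpotent f) ∧
    (W.StrongTate → [IsAbelian C,
      ∀ X : C, ∃ r, 0 < r ∧ Small W X r,
      ∃ K : ℕ, ∀ X : C,
        Module.rank ℚ (𝟙_ C ⟶ X) ≤ ((K * number W X : ℕ) : Cardinal.{v})].TFAE) := by
  refine ⟨small_of_abelian W, fun X r hr h f hf => gap W X r hr h f hf, fun hT => ?_⟩
  have h := equivalences W hT
  tfae_have 1 ↔ 2 := h.out 0 3
  tfae_have 1 ↔ 3 := h.out 0 2
  tfae_finish

/-- The equivalences, with the strong Tate conjecture as a part of the conditions. -/
theorem equivalences' [HasFiniteBiproducts C] [IsIdempotentComplete C] (W : MotP.Frobenius C) :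
    [IsAbelian C ∧ W.StrongTate,
      (∀ (X Y : C) (f : X ⟶ Y), NumTrivial f → f = 0) ∧ W.StrongTate,
      (∃ K : ℕ, ∀ X : C,
        Module.rank ℚ (𝟙_ C ⟶ X) ≤ ((K * number W X : ℕ) : Cardinal.{v})) ∧ W.StrongTate,
      (∀ X : C, ∃ r, 0 < r ∧ Small W X r) ∧ W.StrongTate].TFAE := by
  tfae_have 1 ↔ 2 := and_congr_left fun hT => (equivalences W hT).out 0 1
  tfae_have 1 ↔ 3 := and_congr_left fun hT => (equivalences W hT).out 0 2
  tfae_have 1 ↔ 4 := and_congr_left fun hT => (equivalences W hT).out 0 3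
  tfae_finish

end

end MotP.GGap
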