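import Pool.Agent.GGap.St

/-!
# The growth gap, module TVA: the number of eigenvalues of a tensor product
-/

set_option autoImplicit false

open CategoryTheory MonoidalCategory BraidedCategory Limits

universe v u

namespace MotP.GGap

open Mot

noncomputable section

set_option linter.unusedSectionVars false

variable (C : Type u) [Category.{v} C] [Preadditive C] [Linear ℚ C] [MonoidalCategory C]
  [SymmetricCategory C] [MonoidalPreadditive C] [MonoidalLinear ℚ C] [RightRigidCategory C]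

namespace TVA

variable {C}

lemma t_sum (W : Fr C) (X : C) (n : ℕ) : (W.t X n : ℂ) = ∑ z ∈ W.S X, (W.ν X z : ℂ) * z ^ n := by
  rw [W.t_formula, sum_nu]
  rfl

lemma t_sum' (W : Fr C) (X : C) (U : Finset ℂ) (hU : W.S X ⊆ U) (n : ℕ) :
    (W.t X n : ℂ) = ∑ z ∈ U, (W.ν X z : ℂ) * z ^ n := by
  rw [t_sum]
  apply Finset.sum_subset hU
  intro z _ hz
  have h1 : W.ν X z = 0 := nu_of_notMem hz
  rw [h1]
  simp

/-- uniqueness of the net multiplicities -/
lemma ν_eq (W : Fr C) (X : C) (U : Finset ℂ) (hU : W.S X ⊆ U) (a : ℂ → ℤ)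
    (h : ∀ n, (W.t X n : ℂ) = ∑ z ∈ U, (a z : ℂ) * z ^ n) : ∀ z ∈ U, W.ν X z = a z := by
  intro z hz
  have h1 : ∀ n : ℕ, ∑ z ∈ U, ((W.ν X z : ℂ) - (a z : ℂ)) * z ^ n = 0 := by
    intro n
    rw [Finset.sum_congr rfl fun z _ => sub_mul _ _ _, Finset.sum_sub_distrib, ← h n,
      ← t_sum' W X U hU n, sub_self]
  have h2 := lag _ _ h1 z hz
  have h3 : (W.ν X z : ℂ) = (a z : ℂ) := sub_eq_zero.mp h2
  exact_mod_cast h3

/-- the number of eigenvalues after cancellation is the sum of the absolute values of the net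
multiplicities -/
lemma b_eq (W : Fr C) (X : C) (U : Finset ℂ) (hU : W.S X ⊆ U) :
    (W.b X : ℤ) = ∑ z ∈ U, |W.ν X z| := by
  classical
  have hα : ∀ z ∈ W.α X - W.β X, z ∈ U := by
    intro z hz
    apply hU
    have h1 : z ∈ W.α X := Multiset.mem_of_le (Multiset.sub_le_self _ _) hz
    simp [Fr.S, h1]
  have hβ : ∀ z ∈ W.β X - W.α X, z ∈ U := by
    intro z hz
    apply hU
    have h1 : z ∈ W.β X := Multiset.mem_of_le (Multiset.sub_le_self _ _) hz
    simp [Fr.S, h1]
  have e1 := Multiset.sum_count_eq_card hα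
  have e2 := Multiset.sum_count_eq_card hβ
  have h1 : W.b X = Multiset.card (W.α X - W.β X) + Multiset.card (W.β X - W.α X) := rfl
  rw [h1, ← e1, ← e2, ← Finset.sum_add_distrib, Nat.cast_sum]
  apply Finset.sum_congr rfl
  intro z _
  have h2 : W.ν X z = ((W.α X).count z : ℤ) - ((W.β X).count z : ℤ) := rfl
  rw [h2, Multiset.count_sub, Multiset.count_sub]
  rcases le_total ((W.α X).count z) ((W.β X).count z) with h3 | h3
  · rw [abs_of_nonpos (by omega)]
    omega
  · rw [abs_of_nonneg (by omega)]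
    omega

lemma b_tensor (W : Fr C) (X Y : C) : W.b (X ⊗ Y) ≤ W.b X * W.b Y := by
  classical
  set P : Finset (ℂ × ℂ) := W.S X ×ˢ W.S Y with hP
  set V : Finset ℂ := W.S (X ⊗ Y) ∪ P.image (fun q => q.1 * q.2) with hV
  have hmaps : ∀ q ∈ P, q.1 * q.2 ∈ V := by
    intro q hq
    rw [hV, Finset.mem_union]
    right
    exact Finset.mem_image_of_mem (fun q : ℂ × ℂ => q.1 * q.2) hq
  have ht : ∀ n, (W.t (X ⊗ Y) n : ℂ) =
      ∑ w ∈ V, ((∑ q ∈ P with q.1 * q.2 = w, W.ν X q.1 * W.ν Y q.2 : ℤ) : ℂ) * w ^ n := by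
    intro n
    rw [W.t_tensor]
    push_cast
    rw [t_sum W X n, t_sum W Y n, Finset.sum_mul_sum, ← Finset.sum_product',
      ← Finset.sum_fiberwise_of_maps_to (s := P) (t := V) (g := fun q => q.1 * q.2) hmaps]
    apply Finset.sum_congr rfl
    intro w _
    rw [Finset.sum_mul]
    apply Finset.sum_congr rfl
    intro q hq
    rw [Finset.mem_filter] at hq
    rw [← hq.2]
    ring
  have h1 := ν_eq W (X ⊗ Y) V Finset.subset_union_left
    (fun w => ∑ q ∈ P with q.1 * q.2 = w, W.ν X q.1 * W.ν Y q.2) ht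
  have h2 : (W.b (X ⊗ Y) : ℤ) ≤ W.b X * W.b Y := by
    rw [b_eq W (X ⊗ Y) V Finset.subset_union_left, b_eq W X (W.S X) (Finset.Subset.refl _),
      b_eq W Y (W.S Y) (Finset.Subset.refl _), Finset.sum_mul_sum, ← Finset.sum_product',
      ← Finset.sum_fiberwise_of_maps_to (s := P) (t := V) (g := fun q => q.1 * q.2) hmaps]
    apply Finset.sum_le_sum
    intro w hw
    rw [h1 w hw]
    refine (Finset.abs_sum_le_sum_abs _ _).trans (le_of_eq ?_)
    apply Finset.sum_congr rfl
    intro q _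
    exact abs_mul _ _
  exact_mod_cast h2

lemma b_unit (W : Fr C) : W.b (𝟙_ C) = 1 := by
  classical
  set V : Finset ℂ := W.S (𝟙_ C) ∪ {1} with hV
  have h1V : (1 : ℂ) ∈ V := by
    rw [hV, Finset.mem_union]
    right
    exact Finset.mem_singleton_self _
  have ht : ∀ n, (W.t (𝟙_ C) n : ℂ) =
      ∑ w ∈ V, (((if w = 1 then 1 else 0 : ℤ)) : ℂ) * w ^ n := by
    intro n
    rw [W.t_unit, Finset.sum_eq_single_of_mem (1 : ℂ) h1V]
    · simp
    · intro w _ hw
      simp [hw]
  have h1 := ν_eq W (𝟙_ C) V Finset.subset_union_left (fun w => if w = 1 then 1 else 0) ht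
  have h2 : (W.b (𝟙_ C) : ℤ) = 1 := by
    rw [b_eq W (𝟙_ C) V Finset.subset_union_left, Finset.sum_eq_single_of_mem (1 : ℂ) h1V]
    · rw [h1 1 h1V]
      simp
    · intro w hw hw1
      rw [h1 w hw]
      simp [hw1]
  exact_mod_cast h2

lemma mult_le (W : Fr C) (X : C) : W.mult X ≤ W.b X := by
  classical
  have h1 : (W.β X).count 1 = 0 := Multiset.count_eq_zero.mpr (W.odd X)
  have h2 : (W.α X - W.β X).count 1 = W.mult X := by
    rw [Multiset.count_sub, h1, Nat.sub_zero]
    rfl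
  have h3 : (W.α X - W.β X).count 1 ≤ Multiset.card (W.α X - W.β X) := Multiset.count_le_card _ _
  have h4 : W.b X = Multiset.card (W.α X - W.β X) + Multiset.card (W.β X - W.α X) := rfl
  omega

lemma b_pow (W : Fr C) (X : C) (n : ℕ) : W.b (T X n) ≤ W.b X ^ n := by
  induction n with
  | zero =>
    have h : W.b (T X 0) = 1 := b_unit W
    rw [h, pow_zero]
  | succ n ih =>
    have h : W.b (T X (n + 1)) ≤ W.b (T X n) * W.b X := b_tensor W (T X n) X
    rw [pow_succ]
    exact h.trans (Nat.mul_le_mul_right _ ih)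

end TVA

theorem t_TVA : S_TVA C := fun W =>
  ⟨TVA.b_tensor W, TVA.b_unit W, TVA.b_pow W, TVA.mult_le W⟩

end

end MotP.GGap
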