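import Pool.Agent.MotP.Defs

/-!
# The growth gap: the inequality

Numbers of Frobenius eigenvalues, and the inequality `Small` for the dimension of the space of
endomorphisms of one tensor power.
-/

set_option autoImplicit false

open CategoryTheory MonoidalCategory

universe v u

namespace MotP.GGap

open Mot

noncomputable section

variable {C : Type u} [Category.{v} C] [Preadditive C] [Linear ℚ C] [MonoidalCategory C]
  [SymmetricCategory C] [MonoidalPreadditive C] [MonoidalLinear ℚ C] [RightRigidCategory C]

/-- The number of even Frobenius eigenvalues of `X` (after cancellation against the odd ones). -/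
def evenNumber (W : MotP.Frobenius C) (X : C) : ℕ := Multiset.card (W.even X - W.odd X)

/-- The number of odd Frobenius eigenvalues of `X` (after cancellation against the even ones). -/
def oddNumber (W : MotP.Frobenius C) (X : C) : ℕ := Multiset.card (W.odd X - W.even X)

/-- The number of Frobenius eigenvalues of `X`. -/
def number (W : MotP.Frobenius C) (X : C) : ℕ := evenNumber W X + oddNumber W X

/-- The inequality `(r + 1) ^ (p ^ 2 + m ^ 2 + 4) * dim End (X ^ (⊗ r)) < (b + 1) ^ (2 r)` with `p`,
`m` the numbers of even and of odd eigenvalues and `b = p + m`. -/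
def Small (W : MotP.Frobenius C) (X : C) (r : ℕ) : Prop :=
  (((r + 1) ^ (evenNumber W X ^ 2 + oddNumber W X ^ 2 + 4) : ℕ) : Cardinal.{v}) *
    Module.rank ℚ (T X r ⟶ T X r) < (((number W X + 1) ^ (2 * r) : ℕ) : Cardinal.{v})

end

end MotP.GGap
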