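import Pool.Agent.GGap.St
import Pool.Agent.GGap.Small

/-!
# The growth gap: the equivalences under the strong Tate conjecture (assembly)
-/

set_option autoImplicit false

open CategoryTheory MonoidalCategory BraidedCategory Limits

universe v u

namespace MotP.GGap

open Mot

noncomputable section

section Defs

variable {C : Type u} [Category.{v} C] [Preadditive C] [Linear ℚ C] [MonoidalCategory C]
  [SymmetricCategory C] [MonoidalPreadditive C] [MonoidalLinear ℚ C] [RightRigidCategory C]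

lemma Small.finite {W : MotP.Frobenius C} {X : C} {r : ℕ} (h : Small W X r) :
    Module.Finite ℚ (T X r ⟶ T X r) := by
  rw [← Module.rank_lt_aleph0_iff]
  have h1 : (((r + 1) ^ (evenNumber W X ^ 2 + oddNumber W X ^ 2 + 4) : ℕ) : Cardinal.{v}) *
      Module.rank ℚ (T X r ⟶ T X r) < Cardinal.aleph0 :=
    lt_of_lt_of_le h (Cardinal.natCast_le_aleph0)
  refine lt_of_le_of_lt ?_ h1
  have h2 : (1 : Cardinal.{v}) ≤
      (((r + 1) ^ (evenNumber W X ^ 2 + oddNumber W X ^ 2 + 4) : ℕ) : Cardinal.{v}) := by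
    exact_mod_cast Nat.one_le_iff_ne_zero.2 (pow_ne_zero _ (Nat.succ_ne_zero r))
  calc Module.rank ℚ (T X r ⟶ T X r) = 1 * Module.rank ℚ (T X r ⟶ T X r) := (one_mul _).symm
    _ ≤ _ := mul_le_mul_left h2 _

lemma Small.nat {W : MotP.Frobenius C} {X : C} {r : ℕ} (h : Small W X r) :
    (r + 1) ^ (evenNumber W X ^ 2 + oddNumber W X ^ 2 + 4) *
      Module.finrank ℚ (T X r ⟶ T X r) < (number W X + 1) ^ (2 * r) := by
  have hf := h.finite
  have h1 := h
  unfold Small at h1
  rw [← Module.finrank_eq_rank] at h1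
  exact_mod_cast h1

end Defs

variable {C : Type u} [Category.{v} C] [Preadditive C] [Linear ℚ C] [MonoidalCategory C]
  [SymmetricCategory C] [MonoidalPreadditive C] [MonoidalLinear ℚ C] [RightRigidCategory C]

/-- nilpotence -/
theorem nil_of_small (hGAP : S_GAP C) [IsIdempotentComplete C]
    (W : MotP.Frobenius C) (X : C) (r : ℕ) (hr : 0 < r) (h : Small W X r) (f : End X)
    (hf : NumTrivial (f : X ⟶ X)) : IsNilpotent f := by
  by_contra hn
  have h1 := hGAP (ofFrobenius W) X r hr h.finite f hf hn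
  have h2 := h.nat
  exact absurd (lt_of_le_of_lt h1 h2) (lt_irrefl _)

/-- the bound for the spaces of sections implies the bound for the tensor powers -/
theorem small_of_bound (hGRW : S_GRW) (hTVA : S_TVA C) (hTVD : S_TVD C)
    (W : MotP.Frobenius C) (K : ℕ)
    (h : ∀ X : C, Module.rank ℚ (𝟙_ C ⟶ X) ≤ ((K * number W X : ℕ) : Cardinal.{v})) (X : C) :
    ∃ r, 0 < r ∧ Small W X r := by
  have hE : ∀ Y : C, Module.rank ℚ (Y ⟶ Y) ≤ Module.rank ℚ (𝟙_ C ⟶ Y ⊗ Yᘁ) := fun Y =>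
    LinearMap.rank_le_of_injective (nmL Y Y) (fun f g h => nm_inj h)
  have hF : ∀ Y : C, Module.Finite ℚ (Y ⟶ Y) := by
    intro Y
    rw [← Module.rank_lt_aleph0_iff]
    exact lt_of_le_of_lt ((hE Y).trans (h _)) Cardinal.natCast_lt_aleph0
  obtain ⟨r, hr, hr2⟩ := hGRW K (evenNumber W X ^ 2 + oddNumber W X ^ 2 + 4) (number W X)
  refine ⟨r, hr, ?_⟩
  obtain ⟨h1, h2, h3, h4⟩ := hTVA (ofFrobenius W)
  have hb : number W (T X r ⊗ (T X r)ᘁ) ≤ number W X ^ (2 * r) := by
    calc number W (T X r ⊗ (T X r)ᘁ) ≤ number W (T X r) * number W (T X r)ᘁ := h1 _ _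
      _ ≤ number W (T X r) * number W (T X r) :=
          Nat.mul_le_mul_left _ (hTVD (ofFrobenius W) (T X r) (hF _))
      _ ≤ number W X ^ r * number W X ^ r := Nat.mul_le_mul (h3 X r) (h3 X r)
      _ = number W X ^ (2 * r) := by rw [← pow_add]; congr 1; ring
  have h5 : Module.rank ℚ (T X r ⟶ T X r) ≤ ((K * number W X ^ (2 * r) : ℕ) : Cardinal.{v}) := by
    refine ((hE _).trans (h _)).trans ?_
    exact_mod_cast Nat.mul_le_mul_left K hb
  unfold Small
  refine lt_of_le_of_lt (mul_le_mul_right h5 _) ?_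
  have h6 : (r + 1) ^ (evenNumber W X ^ 2 + oddNumber W X ^ 2 + 4) *
      (K * number W X ^ (2 * r)) < (number W X + 1) ^ (2 * r) := by
    calc _ = K * (r + 1) ^ (evenNumber W X ^ 2 + oddNumber W X ^ 2 + 4) *
          number W X ^ (2 * r) := by ring
      _ < _ := hr2
  exact_mod_cast h6

/-- all equivalences under the strong Tate conjecture -/
theorem tfae (hEMB : S_EMB C) (hGAP : S_GAP C) (hGRW : S_GRW) (hTVA : S_TVA C) (hTVD : S_TVD C)
    (hNIL : S_NIL C) [HasFiniteBiproducts C] [IsIdempotentComplete C] (W : MotP.Frobenius C)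
    (hT : W.StrongTate) :
    [IsAbelian C,
      ∀ (X Y : C) (f : X ⟶ Y), NumTrivial f → f = 0,
      ∃ K : ℕ, ∀ X : C, Module.rank ℚ (𝟙_ C ⟶ X) ≤ ((K * number W X : ℕ) : Cardinal.{v}),
      ∀ X : C, ∃ r, 0 < r ∧ Small W X r].TFAE := by
  have e : (IsAbelian C ∧ W.StrongTate) ↔
      ((∀ (X Y : C) (f : X ⟶ Y), NumTrivial f → f = 0) ∧ W.StrongTate) :=
    (MotP.equivalence W).out 1 2
  tfae_have 1 → 2 := fun h => (e.1 ⟨h, hT⟩).1
  tfae_have 2 → 1 := fun h => (e.2 ⟨h, hT⟩).1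
  tfae_have 2 → 3 := by
    intro h
    refine ⟨1, fun X => ?_⟩
    have h1 : Module.rank ℚ (𝟙_ C ⟶ X) ≤ (((W.toFrob h).mult X : ℕ) : Cardinal.{v}) :=
      (W.toFrob h).rank_le X
    refine h1.trans ?_
    rw [one_mul]
    exact_mod_cast (hTVA (ofFrobenius W)).2.2.2 X
  tfae_have 3 → 4 := fun ⟨K, h⟩ X => small_of_bound hGRW hTVA hTVD W K h X
  tfae_have 4 → 2 := by
    intro h
    apply hNIL (ofFrobenius W) hT
    · intro X
      obtain ⟨r, hr, hs⟩ := h X
      exact hEMB.1 X r hr hs.finite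
    · intro X f hf
      obtain ⟨r, hr, hs⟩ := h X
      exact nil_of_small hGAP W X r hr hs f hf
  tfae_finish

end

end MotP.GGap
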