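import Pool.Agent.MotP.Eq

/-!
# The growth gap: Frobenius structures which may have numerically trivial morphisms (definitions)

`Fr` is `MotP.Frob` without the condition that there are no numerically trivial morphisms; the
lemmas are those of `Pool.Agent.MotP.Base` (helper97, helper8), which do not use this condition.
-/

set_option autoImplicit false

open CategoryTheory MonoidalCategory BraidedCategory Limits

universe v u

namespace MotP.GGap

open Mot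

noncomputable section

set_option linter.unusedSectionVars false

variable (C : Type u) [Category.{v} C] [Preadditive C] [Linear ℚ C] [MonoidalCategory C]
  [SymmetricCategory C] [MonoidalPreadditive C] [MonoidalLinear ℚ C] [RightRigidCategory C]

/-- A Frobenius structure (the data of `MotP.Frobenius`, with the trace `MotP.tr`). -/
structure Fr where
  scalar : ∀ f : 𝟙_ C ⟶ 𝟙_ C, ∃ r : ℚ, f = r • 𝟙 (𝟙_ C)
  ne : 𝟙 (𝟙_ C) ≠ 0
  F : 𝟭 C ⟶ 𝟭 C
  F_unit : F.app (𝟙_ C) = 𝟙 (𝟙_ C)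
  F_tensor : ∀ X Y : C, F.app (X ⊗ Y) = F.app X ⊗ₘ F.app Y
  α : C → Multiset ℂ
  β : C → Multiset ℂ
  trace : ∀ (X : C) (n : ℕ) (r : ℚ), tr X (pw (F.app X) n) = r • 𝟙 (𝟙_ C) →
    (r : ℂ) = ((α X).map (fun z => z ^ n)).sum - ((β X).map (fun z => z ^ n)).sum
  odd : ∀ X : C, (1 : ℂ) ∉ β X

variable {C}

namespace Fr

variable (W : Fr C)

/-- the scalar of an endomorphism of the unit -/
def val (f : 𝟙_ C ⟶ 𝟙_ C) : ℚ := (W.scalar f).choose

lemma val_spec (f : 𝟙_ C ⟶ 𝟙_ C) : f = W.val f • 𝟙 (𝟙_ C) := (W.scalar f).choose_spec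

lemma smul_inj (W : Fr C) {r s : ℚ} (h : r • 𝟙 (𝟙_ C) = s • 𝟙 (𝟙_ C)) : r = s := by
  have h1 : (r - s) • 𝟙 (𝟙_ C) = 0 := by rw [sub_smul, h, sub_self]
  rcases smul_eq_zero.mp h1 with h2 | h2
  · linarith
  · exact absurd h2 W.ne

lemma val_eq {f : 𝟙_ C ⟶ 𝟙_ C} {r : ℚ} (h : f = r • 𝟙 (𝟙_ C)) : W.val f = r :=
  W.smul_inj ((W.val_spec f).symm.trans h)

lemma val_add (f g : 𝟙_ C ⟶ 𝟙_ C) : W.val (f + g) = W.val f + W.val g := by
  apply W.val_eq
  rw [add_smul, ← W.val_spec, ← W.val_spec]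

lemma val_smul (r : ℚ) (f : 𝟙_ C ⟶ 𝟙_ C) : W.val (r • f) = r * W.val f := by
  apply W.val_eq
  rw [mul_smul, ← W.val_spec]

lemma val_zero : W.val (0 : 𝟙_ C ⟶ 𝟙_ C) = 0 := W.val_eq (by simp)

lemma val_id : W.val (𝟙 (𝟙_ C)) = 1 := W.val_eq (by simp)

lemma val_sub (f g : 𝟙_ C ⟶ 𝟙_ C) : W.val (f - g) = W.val f - W.val g := by
  rw [sub_eq_add_neg, ← neg_one_smul ℚ g, W.val_add, W.val_smul]
  ring

/-- iterates of the Frobenius -/
def Fp (X : C) (n : ℕ) : X ⟶ X := pw (W.F.app X) n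

lemma F_nat {X Y : C} (f : X ⟶ Y) : f ≫ W.F.app Y = W.F.app X ≫ f := W.F.naturality f

lemma Fp_nat {X Y : C} (f : X ⟶ Y) (n : ℕ) : f ≫ W.Fp Y n = W.Fp X n ≫ f := by
  induction n with
  | zero => simp [Fp, pw]
  | succ n ih =>
    have h1 : W.Fp Y (n + 1) = W.Fp Y n ≫ W.F.app Y := rfl
    have h2 : W.Fp X (n + 1) = W.Fp X n ≫ W.F.app X := rfl
    rw [h1, h2, ← Category.assoc, ih, Category.assoc, W.F_nat, Category.assoc]

lemma Fp_tensor (X Y : C) (n : ℕ) : W.Fp (X ⊗ Y) n = W.Fp X n ⊗ₘ W.Fp Y n := by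
  induction n with
  | zero => simp [Fp, pw]
  | succ n ih =>
    have h1 : W.Fp (X ⊗ Y) (n + 1) = W.Fp (X ⊗ Y) n ≫ W.F.app (X ⊗ Y) := rfl
    have h2 : W.Fp X (n + 1) = W.Fp X n ≫ W.F.app X := rfl
    have h3 : W.Fp Y (n + 1) = W.Fp Y n ≫ W.F.app Y := rfl
    rw [h1, h2, h3, ih, W.F_tensor, MonoidalCategory.tensorHom_comp_tensorHom]

lemma Fp_of_one {X : C} (h : W.F.app X = 𝟙 X) (n : ℕ) : W.Fp X n = 𝟙 X := by
  induction n with
  | zero => rfl
  | succ n ih =>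
    have h2 : W.Fp X (n + 1) = W.Fp X n ≫ W.F.app X := rfl
    rw [h2, ih, h]
    exact Category.comp_id _

/-- the traces of the Frobenius -/
def t (X : C) (n : ℕ) : ℚ := W.val (tr X (W.Fp X n))

lemma t_formula (X : C) (n : ℕ) :
    (W.t X n : ℂ) = ((W.α X).map (fun z => z ^ n)).sum - ((W.β X).map (fun z => z ^ n)).sum :=
  W.trace X n _ (W.val_spec _)

lemma t_retract {X Y : C} (i : Y ⟶ X) (p : X ⟶ Y) (h : i ≫ p = 𝟙 Y) (n : ℕ) :
    W.t Y n = W.val (tr X ((p ≫ i) ≫ W.Fp X n)) := by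
  have h5 : W.Fp Y n = i ≫ (p ≫ W.Fp Y n) := by rw [← Category.assoc, h, Category.id_comp]
  have h6 : (p ≫ W.Fp Y n) ≫ i = (p ≫ i) ≫ W.Fp X n := by
    rw [Category.assoc, ← W.Fp_nat, ← Category.assoc]
  unfold t
  rw [h5, tr_comm, h6]

lemma t_split {X Y Z : C} (i : Y ⟶ X) (p : X ⟶ Y) (h : i ≫ p = 𝟙 Y) (j : Z ⟶ X) (q : X ⟶ Z)
    (h' : j ≫ q = 𝟙 Z) (hs : p ≫ i + q ≫ j = 𝟙 X) (n : ℕ) : W.t X n = W.t Y n + W.t Z n := by
  rw [W.t_retract i p h, W.t_retract j q h', ← W.val_add, ← tr_add, ← Preadditive.add_comp, hs,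
    Category.id_comp]
  rfl

lemma tr_tensor (X Y : C) (f : X ⟶ X) (g : Y ⟶ Y) :
    tr (X ⊗ Y) (f ⊗ₘ g) = W.val (tr Y g) • tr X f := by
  unfold tr
  rw [trP_indep (X' := (X ⊗ Y)ᘁ) (X'' := Yᘁ ⊗ Xᘁ)]
  exact trP_tensor f g _ (W.val_spec _)

lemma t_tensor (X Y : C) (n : ℕ) : W.t (X ⊗ Y) n = W.t X n * W.t Y n := by
  unfold t
  rw [W.Fp_tensor, W.tr_tensor, W.val_smul, mul_comm]

lemma tr_unit : tr (𝟙_ C) (𝟙 (𝟙_ C)) = 𝟙 (𝟙_ C) := by
  unfold tr
  rw [trP_indep (X'' := 𝟙_ C)]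
  unfold trP ev
  have h1 : η_ (𝟙_ C) (𝟙_ C) = (ρ_ (𝟙_ C)).inv := rfl
  have h2 : ε_ (𝟙_ C) (𝟙_ C) = (ρ_ (𝟙_ C)).hom := rfl
  rw [h1, h2, braiding_tensorUnit_right, unitors_inv_equal]
  simp

lemma t_unit (n : ℕ) : W.t (𝟙_ C) n = 1 := by
  unfold t
  rw [W.Fp_of_one W.F_unit, tr_unit, W.val_id]

/-- the multiplicity of the even eigenvalue 1 -/
def mult (X : C) : ℕ := (W.α X).count 1

lemma mult_eq (X : C) (P : Polynomial ℂ) (h1 : P.eval 1 = 1)
    (hα : ∀ z ∈ W.α X, z ≠ 1 → P.eval z = 0) (hβ : ∀ z ∈ W.β X, z ≠ 1 → P.eval z = 0) :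
    ∑ k ∈ P.support, P.coeff k * (W.t X k : ℂ) = W.mult X := by
  have h2 := sum_count P h1 (W.α X) hα
  have h3 := sum_count P h1 (W.β X) hβ
  rw [sum_eval] at h2 h3
  have h4 : (W.β X).count 1 = 0 := Multiset.count_eq_zero.mpr (W.odd X)
  rw [h4, Nat.cast_zero] at h3
  have h5 : ∀ k ∈ P.support, P.coeff k * (W.t X k : ℂ) =
      P.coeff k * ((W.α X).map (fun z => z ^ k)).sum -
        P.coeff k * ((W.β X).map (fun z => z ^ k)).sum := by
    intro k _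
    rw [W.t_formula, mul_sub]
  rw [Finset.sum_congr rfl h5, Finset.sum_sub_distrib, h2, h3, sub_zero]
  rfl

/-- additivity of the multiplicity -/
lemma mult_add {X Y Z : C} (h : ∀ n, W.t X n = W.t Y n + W.t Z n) :
    W.mult X = W.mult Y + W.mult Z := by
  classical
  obtain ⟨P, h1, hP⟩ := exP ((W.α X + W.β X + (W.α Y + W.β Y) + (W.α Z + W.β Z)).toFinset)
  have e1 := W.mult_eq X P h1 (fun z hz => hP z (by simp [hz])) (fun z hz => hP z (by simp [hz]))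
  have e2 := W.mult_eq Y P h1 (fun z hz => hP z (by simp [hz])) (fun z hz => hP z (by simp [hz]))
  have e3 := W.mult_eq Z P h1 (fun z hz => hP z (by simp [hz])) (fun z hz => hP z (by simp [hz]))
  have h2 : (W.mult X : ℂ) = W.mult Y + W.mult Z := by
    rw [← e1, ← e2, ← e3, ← Finset.sum_add_distrib]
    apply Finset.sum_congr rfl
    intro k _
    rw [h]
    push_cast
    ring
  exact_mod_cast h2

lemma mult_of_const {X : C} (h : ∀ n, W.t X n = W.t X 0) : (W.mult X : ℚ) = W.t X 0 := by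
  classical
  obtain ⟨P, h1, hP⟩ := exP ((W.α X + W.β X).toFinset)
  have e1 := W.mult_eq X P h1 (fun z hz => hP z (by simp [hz])) (fun z hz => hP z (by simp [hz]))
  have h2 : (W.mult X : ℂ) = ((W.t X 0 : ℚ) : ℂ) := by
    rw [← e1]
    have h3 : ∀ k ∈ P.support, P.coeff k * (W.t X k : ℂ) = P.coeff k * 1 ^ k * (W.t X 0 : ℂ) := by
      intro k _
      rw [h k]
      simp
    rw [Finset.sum_congr rfl h3, ← Finset.sum_mul]
    have h4 : ∑ k ∈ P.support, P.coeff k * 1 ^ k = P.eval 1 := by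
      rw [Polynomial.eval_eq_sum, Polynomial.sum]
    rw [h4, h1, one_mul]
  have h5 : (((W.mult X : ℚ)) : ℂ) = ((W.t X 0 : ℚ) : ℂ) := by
    rw [← h2]
    push_cast
    rfl
  exact_mod_cast h5

lemma mult_unit : W.mult (𝟙_ C) = 1 := by
  have h := W.mult_of_const (X := 𝟙_ C) (fun n => by rw [W.t_unit, W.t_unit])
  rw [W.t_unit] at h
  exact_mod_cast h

lemma mult_of_zero {X : C} (h : ∀ n, W.t X n = 0) : W.mult X = 0 := by
  have h1 := W.mult_of_const (X := X) (fun n => by rw [h n, h 0])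
  rw [h 0] at h1
  exact_mod_cast h1

include W in
lemma tr_self (s : 𝟙_ C ⟶ 𝟙_ C) : tr (𝟙_ C) s = s := by
  rw [W.val_spec s, tr_smul, tr_unit]

/-- the set of eigenvalues -/
def S (X : C) : Finset ℂ := (W.α X + W.β X).toFinset

/-- net multiplicities -/
def ν (X : C) (z : ℂ) : ℤ := nu (W.α X) (W.β X) z

/-- the Frobenius as an element of the endomorphism algebra -/
def FE (X : C) : End X := W.F.app X

lemma FE_pow (X : C) (n : ℕ) : (W.FE X) ^ n = (W.Fp X n : End X) := end_pow _ n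

/-- the number of even eigenvalues after cancellation -/
def bp (X : C) : ℕ := Multiset.card (W.α X - W.β X)

/-- the number of odd eigenvalues after cancellation -/
def bm (X : C) : ℕ := Multiset.card (W.β X - W.α X)

/-- the number of eigenvalues after cancellation -/
def b (X : C) : ℕ := W.bp X + W.bm X

/-- the strong Tate conjecture -/
def StrongTate : Prop :=
  ∀ X : C, Module.rank ℚ ((𝟙_ C ⟶ X) ⧸ ntSections X) = (W.mult X : ℕ)

end Fr

/-- the Frobenius structure of the hand-ins -/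
def ofFrobenius (W : MotP.Frobenius C) : Fr C where
  scalar := W.scalar
  ne := W.unit_ne
  F := W.F
  F_unit := W.F_unit
  F_tensor := W.F_tensor
  α := W.even
  β := W.odd
  trace := by
    intro X n r h
    apply W.trace_formula X n r
    rw [← h]
    have h1 : component W.F X ^ n = (pw (W.F.app X) n : End X) := end_pow _ n
    rw [h1]
    rfl
  odd := W.one_not_odd

/-- numerically trivial morphisms -/
def NT {X Y : C} (f : X ⟶ Y) : Prop := ∀ g : Y ⟶ X, tr X (f ≫ g) = 0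

/-- `Z` occurs `c` times as a direct summand of `X`. -/
def Cp (c : ℕ) (Z X : C) : Prop :=
  ∃ (i : Fin c → (Z ⟶ X)) (p : Fin c → (X ⟶ Z)), (∀ s, i s ≫ p s = 𝟙 Z) ∧
    ∀ s t, s ≠ t → i s ≫ p t = 0

/-- `Y` and `Z` are orthogonal direct summands of `X` -/
structure Orth (X Y Z : C) where
  i : Y ⟶ X
  p : X ⟶ Y
  j : Z ⟶ X
  q : X ⟶ Z
  ip : i ≫ p = 𝟙 Y
  jq : j ≫ q = 𝟙 Z
  iq : i ≫ q = 0
  jp : j ≫ p = 0

/-- a permutation of `n` letters as a permutation of `n + 1` letters which fixes the last one -/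
def up {n : ℕ} (σ : Equiv.Perm (Fin n)) : Equiv.Perm (Fin (n + 1)) :=
  (finSuccEquivLast.trans (Equiv.optionCongr σ)).trans finSuccEquivLast.symm

lemma up_castSucc {n : ℕ} (σ : Equiv.Perm (Fin n)) (i : Fin n) :
    up σ i.castSucc = (σ i).castSucc := by
  simp [up]

lemma up_last {n : ℕ} (σ : Equiv.Perm (Fin n)) : up σ (Fin.last n) = Fin.last n := by
  simp [up]

lemma up_one {n : ℕ} : up (1 : Equiv.Perm (Fin n)) = 1 := by
  ext i
  refine Fin.lastCases ?_ (fun j => ?_) i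
  · rw [up_last]
    rfl
  · rw [up_castSucc]
    rfl

lemma up_mul {n : ℕ} (σ τ : Equiv.Perm (Fin n)) : up (σ * τ) = up σ * up τ := by
  ext i
  refine Fin.lastCases ?_ (fun j => ?_) i
  · rw [up_last, Equiv.Perm.mul_apply, up_last, up_last]
  · rw [up_castSucc, Equiv.Perm.mul_apply, Equiv.Perm.mul_apply, up_castSucc, up_castSucc]

/-- The symmetric groups act on the tensor powers of `X`. -/
structure PermAct (X : C) where
  ρ : ∀ n : ℕ, Equiv.Perm (Fin n) → (T X n ⟶ T X n)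
  one : ∀ n, ρ n 1 = 𝟙 _
  mul : ∀ n σ τ, ρ n (σ * τ) = ρ n τ ≫ ρ n σ
  up : ∀ n (σ : Equiv.Perm (Fin n)), ρ (n + 1) (up σ) = (ρ n σ ▷ X : T X n ⊗ X ⟶ T X n ⊗ X)
  last : ∀ n, ρ (n + 2) (Equiv.swap (Fin.last n).castSucc (Fin.last (n + 1))) =
    (sw (T X n) X : (T X n ⊗ X) ⊗ X ⟶ (T X n ⊗ X) ⊗ X)

end

end MotP.GGap
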