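import Pool.Agent.GGap.Mots

/-!
# The growth gap and Weil-etale cohomology (assembly)
-/

set_option autoImplicit false

open CategoryTheory MonoidalCategory BraidedCategory Limits

universe v u

namespace MotP.GGap

open Mot

noncomputable section

section Iso

variable {C : Type u} [Category.{v} C] [Preadditive C] [Linear ℚ C] [MonoidalCategory C]
  [SymmetricCategory C] [MonoidalPreadditive C] [MonoidalLinear ℚ C] [RightRigidCategory C]

lemma t_iso (W : Fr C) {X Y : C} (e : X ≅ Y) (n : ℕ) : W.t X n = W.t Y n := by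
  have h := W.t_retract (X := Y) (Y := X) e.hom e.inv e.hom_inv_id n
  rw [h, e.inv_hom_id, Category.id_comp]
  rfl

lemma number_iso (hNET : S_NET C) (W : MotP.Frobenius C) {X Y : C} (e : X ≅ Y) :
    number W X = number W Y := by
  obtain ⟨-, h1, h2⟩ := hNET (ofFrobenius W) X Y (t_iso _ e)
  show (ofFrobenius W).bp X + (ofFrobenius W).bm X = (ofFrobenius W).bp Y + (ofFrobenius W).bm Y
  rw [h1, h2]

/-- conjugation by an isomorphism -/
def conj {X Y : C} (e : X ≅ Y) : (X ⟶ X) ≃ₗ[ℚ] (Y ⟶ Y) where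
  toFun f := e.inv ≫ f ≫ e.hom
  map_add' f g := by rw [Preadditive.add_comp, Preadditive.comp_add]
  map_smul' r f := by rw [Linear.smul_comp, Linear.comp_smul, RingHom.id_apply]
  invFun f := e.hom ≫ f ≫ e.inv
  left_inv f := by simp
  right_inv f := by simp

lemma rank_iso {X Y : C} (e : X ≅ Y) : Module.rank ℚ (X ⟶ X) = Module.rank ℚ (Y ⟶ Y) :=
  LinearEquiv.rank_eq (conj e)

end Iso

namespace Mots

variable (M : Mots.{v, u})

lemma TC_compl (X : WE.Theory) {ℓ : Nat.Primes} (hℓ : ℓ ≠ X.p) {n m : ℕ} (hd : n + m = X.d)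
    (h : n ≤ m) (hT : X.TC ℓ n) : X.TC ℓ m :=
  WE.TC_of_T X (WE.T_lef X hℓ hd h (WE.T_of_TC X hℓ hT))

/-- finite generation from nilpotence -/
theorem L_of_nil (hPR0 : S_PR0) (hNPR : S_NPR.{v, u}) (X : M.V) (hN : M.Nil X) (n m : ℕ)
    (hd : n + m = (M.th X).d) (ℓ : Nat.Primes) (hℓ : ℓ ≠ M.p) (hT : (M.th X).TC ℓ n)
    (hS : (M.th X).SS ℓ n) (hT' : (M.th X).TC ℓ m) : (M.th X).L n := by
  have hℓ' : ℓ ≠ (M.th X).p := by rw [M.p_th]; exact hℓ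
  obtain ⟨h1, h2⟩ := hNPR M X ℓ hℓ n m hd (hPR0 (M.th X) ℓ hℓ' n m hd hT hS hT') hN
  exact WE.pgd (M.th X) n m hd h1 h2

theorem Nil_of_small (hGAP : S_GAP M.C) (X : M.V) (r : ℕ) (hr : 0 < r)
    (h : Small M.W (M.h X) r) : M.Nil X := by
  rintro a ⟨ℓ, hℓ, n, ha⟩
  exact nil_of_small hGAP M.W (M.h X) r hr h a (M.triv X ℓ hℓ n a ha)

/-- the Tate conjecture and semisimplicity in codimension `n` for one prime, with its complement -/
theorem L_of_TS (hPR0 : S_PR0) (hNPR : S_NPR.{v, u}) (X : M.V) (hN : M.Nil X)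
    (h : ∀ n, n ≤ (M.th X).d → M.TS X n) (n : ℕ) (hn : n ≤ (M.th X).d) : (M.th X).L n := by
  have hp : ∀ ℓ, ℓ ≠ M.p → ℓ ≠ (M.th X).p := fun ℓ hℓ => by rw [M.p_th]; exact hℓ
  have low : ∀ n m, n + m = (M.th X).d → n ≤ m → (M.th X).L n := by
    intro n m hd hnm
    obtain ⟨ℓ, hℓ, hT, hS⟩ := h n (by omega)
    exact M.L_of_nil hPR0 hNPR X hN n m hd ℓ hℓ hT hS (TC_compl _ (hp ℓ hℓ) hd hnm hT)
  rcases le_total n ((M.th X).d - n) with h1 | h1
  · exact low n _ (by omega) h1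
  · obtain ⟨ℓ, hℓ, hT, hS⟩ := h n hn
    have h2 : (M.th X).L ((M.th X).d - n) := low _ n (by omega) h1
    exact M.L_of_nil hPR0 hNPR X hN n ((M.th X).d - n) (by omega) ℓ hℓ hT hS
      (WE.single_fwd _ ℓ _ (h2 _)).1

theorem TS_of_L (X : M.V) (n : ℕ) (h : (M.th X).L n) : M.TS X n := by
  obtain ⟨ℓ, hℓ⟩ := WE.Fam.exists_ne M.p
  obtain ⟨h1, h2, -⟩ := WE.single_fwd (M.th X) ℓ n (h _)
  exact ⟨ℓ, hℓ, h1, h2⟩

/-- `dim CH^d(X × X)_ℚ ≤ K b(X)^2` for all `X` -/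
def Bounded : Prop := ∃ K : ℕ, ∀ X : M.V,
  Module.rank ℚ (M.h X ⟶ M.h X) ≤ ((K * number M.W (M.h X) ^ 2 : ℕ) : Cardinal.{v})

theorem number_pow (hTVA : S_TVA M.C) (hNET : S_NET M.C) (X : M.V) (r : ℕ) :
    number M.W (M.h (M.pow X r)) ≤ number M.W (M.h X) ^ r := by
  obtain ⟨e⟩ := M.h_pow X r
  rw [number_iso hNET M.W e]
  exact (hTVA (ofFrobenius M.W)).2.2.1 (M.h X) r

theorem small_of_bounded (hGRW : S_GRW) (hTVA : S_TVA M.C) (hNET : S_NET M.C)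
    (h : M.Bounded) (X : M.V) : ∃ r, 0 < r ∧ Small M.W (M.h X) r := by
  obtain ⟨K, hK⟩ := h
  set c := evenNumber M.W (M.h X) ^ 2 + oddNumber M.W (M.h X) ^ 2 + 4 with hc
  obtain ⟨r, hr, hr2⟩ := hGRW K c (number M.W (M.h X))
  refine ⟨r, hr, ?_⟩
  obtain ⟨e⟩ := M.h_pow X r
  have h1 : Module.rank ℚ (T (M.h X) r ⟶ T (M.h X) r) ≤
      ((K * number M.W (M.h X) ^ (2 * r) : ℕ) : Cardinal.{v}) := by
    rw [← rank_iso e]
    refine (hK (M.pow X r)).trans ?_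
    have h2 : number M.W (M.h (M.pow X r)) ^ 2 ≤ number M.W (M.h X) ^ (2 * r) := by
      rw [mul_comm 2 r, pow_mul]
      exact Nat.pow_le_pow_left (M.number_pow hTVA hNET X r) 2
    exact_mod_cast Nat.mul_le_mul_left K h2
  unfold Small
  rw [← hc]
  refine lt_of_le_of_lt (mul_le_mul_right h1 _) ?_
  have h6 : (r + 1) ^ c * (K * number M.W (M.h X) ^ (2 * r)) <
      (number M.W (M.h X) + 1) ^ (2 * r) := by
    calc _ = K * (r + 1) ^ c * number M.W (M.h X) ^ (2 * r) := by ring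
      _ < _ := hr2
  exact_mod_cast h6

theorem bounded_of_Q1 (hRNK : S_RNK.{v, u}) (hTVA : S_TVA M.C) (hNET : S_NET M.C) (h : M.Q1) :
    M.Bounded := by
  refine ⟨1, fun X => (hRNK M X (h _ _)).trans ?_⟩
  rw [one_mul]
  exact_mod_cast M.number_pow hTVA hNET X 2

/-- one variety -/
theorem single (hPR0 : S_PR0) (hNPR : S_NPR.{v, u}) (hNGD : S_NGD.{v, u}) (hGAP : S_GAP M.C)
    (X : M.V) (r : ℕ) (hr : 0 < r) (h : Small M.W (M.h X) r) :
    M.Nil X ∧ (∀ n, (M.th X).d < n → (M.th X).L n) ∧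
      (∀ n m : ℕ, n + m = (M.th X).d → ∀ ℓ, ℓ ≠ M.p → (M.th X).TC ℓ n → (M.th X).SS ℓ n →
        n ≤ m ∨ (M.th X).TC ℓ m → (M.th X).L n) := by
  have hN := M.Nil_of_small hGAP X r hr h
  refine ⟨hN, fun n hn => hNGD M X n hn hN, fun n m hd ℓ hℓ hT hS h1 => ?_⟩
  refine M.L_of_nil hPR0 hNPR X hN n m hd ℓ hℓ hT hS ?_
  rcases h1 with h1 | h1
  · exact TC_compl _ (by rw [M.p_th]; exact hℓ) hd h1 hT
  · exact h1

/-- all varieties -/
theorem tfae (hPR0 : S_PR0) (hNPR : S_NPR.{v, u}) (hNGD : S_NGD.{v, u}) (hRNK : S_RNK.{v, u})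
    (hGAP : S_GAP M.C) (hGRW : S_GRW) (hTVA : S_TVA M.C) (hNET : S_NET M.C) :
    [M.Q1,
      (∀ X n, n ≤ (M.th X).d → M.TS X n) ∧ M.Bounded,
      (∀ X n, n ≤ (M.th X).d → M.TS X n) ∧ ∀ X, ∃ r, 0 < r ∧ Small M.W (M.h X) r].TFAE := by
  tfae_have 1 → 2 := fun h => ⟨fun X n _ => M.TS_of_L X n (h X n),
    M.bounded_of_Q1 hRNK hTVA hNET h⟩
  tfae_have 2 → 3 := fun h => ⟨h.1, M.small_of_bounded hGRW hTVA hNET h.2⟩
  tfae_have 3 → 1 := by
    rintro ⟨h1, h2⟩ X n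
    obtain ⟨r, hr, hs⟩ := h2 X
    have hN := M.Nil_of_small hGAP X r hr hs
    rcases le_or_gt n (M.th X).d with h | h
    · exact M.L_of_TS hPR0 hNPR X hN (h1 X) n h
    · exact hNGD M X n h hN
  tfae_finish

end Mots

end

end MotP.GGap
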