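import Pool.Agent.GGap.Small
import Pool.Agent.WEt.LightFam

/-!
# The growth gap and Weil-etale motivic cohomology: the statement

`Chow W` collects, for a class of smooth projective varieties over one finite field which is
stable under powers, the cohomology of these varieties (`WEt.Coh`) and its connection with the
category `C` of Chow motives with rational coefficients.
-/

set_option autoImplicit false

open CategoryTheory MonoidalCategory Limits TensorProduct Polynomial

universe u

namespace MotP.GGap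

noncomputable section

open WEt (Ab Zl QAlg Groups Duality Coh Tors)

/-- Actions of a `ℚ`-algebra `R` (the algebra of correspondences of `X`) on the cohomology of `X̄`
with rational coefficients. -/
structure Acts (R : QAlg) (X : Groups) where
  /-- the action on `H^i(X̄, ℚ(n))` -/
  act : ∀ n i, R.Act ((X.W n).C i)
  /-- the action on `H^i(X̄, ℚ_ℓ(n))`, `ℓ ≠ p` -/
  actE : ∀ ℓ, ℓ ≠ X.p → ∀ n i, R.ActE ((X.E ℓ n).C i)

/-- The element `a` acts as zero on the cohomology of `X̄` with coefficients `ℚ_ℓ(n)`. -/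
def Acts.Trivial {R : QAlg} {X : Groups} (D : Acts R X) (ℓ : Nat.Primes) (hℓ : ℓ ≠ X.p) (n : ℕ)
    (a : R.T) : Prop :=
  ∀ i : ℤ, 0 ≤ i → i ≤ 2 * (X.d : ℤ) → (D.actE ℓ hℓ n i).ap a = 0

/-- The element `γ` acts on the cohomology of weight `n` as `q^n` times the Frobenius of `X̄`. -/
structure IsFrob {R : QAlg} {X : Groups} (D : Acts R X) (q : ℕ) (γ : R.T) : Prop where
  act : ∀ n i x, ((D.act n i).ap γ).ap (Ab.one _ x) = q ^ n • Ab.one _ (((X.W n).F i).ap x)
  actE : ∀ ℓ hℓ n i x, ((D.actE ℓ hℓ n i).ap γ).ap (Zl.one _ x) =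
    q ^ n • Zl.one _ (((X.E ℓ n).F i).ap x)

/-- The intersection number of an element of `H^(2n)(X̄, ℤ(n))` and a cycle of codimension `m`. -/
def deg {X : Groups} {n m : ℕ} (P : Duality X n m) (y : ((X.W n).C (2 * (n : ℤ))).T)
    (g : X.Cyc m) : ℤ :=
  P.pair.ap (((X.W n).inc _).ap y) g

/-- The exterior products `z × g` of cycles of codimensions `n` and `m`, `n + m = d`. -/
structure Exterior {R : QAlg} {X : Groups} (D : Acts R X) {n m : ℕ} (P : Duality X n m) where
  ext : X.Cyc n → X.Cyc m → R.T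
  act : ∀ z g (i : ℤ), i ≠ 2 * (n : ℤ) → (D.act n i).ap (ext z g) = 0
  act' : ∀ z g y, ((D.act n (2 * (n : ℤ))).ap (ext z g)).ap (Ab.one _ y) =
    Ab.one _ (deg P y g • ((X.W n).res _).ap z)
  actE : ∀ ℓ hℓ z g (i : ℤ), i ≠ 2 * (n : ℤ) → (D.actE ℓ hℓ n i).ap (ext z g) = 0
  actE' : ∀ ℓ hℓ z g y, ((D.actE ℓ hℓ n (2 * (n : ℤ))).ap (ext z g)).ap (Zl.one _ y) =
    Zl.one _ (P.num ℓ y g • X.cl ℓ n z)

/-- The elements of `R` are cycles of codimension `d` on a variety `Y`, modulo rational equivalence
and with rational coefficients, inside `H^(2d)(Ȳ, ℚ(d))`. -/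
structure Cycles (R : QAlg) (Y : Groups) (d : ℕ) where
  cyc : R.Lin ((Y.W d).C (2 * (d : ℤ)))
  inj : Function.Injective cyc.ap
  fixed : ∀ a, ((Y.W d).F (2 * (d : ℤ))).Fixes (cyc.ap a)

variable {C : Type u} [Category.{0} C] [Preadditive C] [Linear ℚ C] [MonoidalCategory C]
  [SymmetricCategory C] [MonoidalPreadditive C] [MonoidalLinear ℚ C] [RightRigidCategory C]

/-- The algebra of endomorphisms of an object. -/
def endo (A : C) : QAlg := ⟨End A⟩

/-- A class `V` of smooth projective varieties over one finite field, stable under powers, and its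
connection with the category `C` of Chow motives, with the Frobenius structure `W`. -/
structure Chow (W : MotP.Frobenius C) where
  /-- the characteristic -/
  p : Nat.Primes
  /-- the number of elements of the field -/
  q : ℕ
  q_pos : 0 < q
  V : Type
  coh : V → Coh
  char : ∀ X, (coh X).p = p
  /-- the motive of a variety -/
  h : V → C
  /-- the powers `X^r` -/
  pow : V → ℕ → V
  kunneth : ∀ X r, Nonempty (h (pow X r) ≅ Mot.T (h X) r)
  dim : ∀ X r, (coh (pow X r)).d = r * (coh X).d
  /-- the action of correspondences -/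
  acts : ∀ X, Acts (endo (h X)) (coh X).toGroups
  frob : ∀ X, IsFrob (acts X) q (Mot.component W.F (h X))
  ext : ∀ X n m e, Exterior (acts X) ((coh X).duality n m e)
  /-- the Lefschetz trace formula: homologically trivial correspondences are numerically trivial -/
  lefschetz : ∀ X ℓ hℓ n (a : End (h X)), (acts X).Trivial ℓ hℓ n a → NumTrivial (a : h X ⟶ h X)
  /-- `End (h X) = CH^d(X × X)_ℚ` -/
  cycles : ∀ X, Cycles (endo (h X)) (coh (pow X 2)).toGroups (coh X).d
  /-- Betti numbers are at most the number of Frobenius eigenvalues -/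
  betti : ∀ X ℓ, ℓ ≠ p → ∀ n i, WEt.rank (((coh X).E ℓ n).C i) ≤ number W (h X)

namespace Chow

variable {W : MotP.Frobenius C} (M : Chow W)

/-- `L^n(X)` for all `X` and `n` -/
def Q1 : Prop := ∀ X n, (M.coh X).L n

/-- For all `X` and all `n ≤ dim X`: the Tate conjecture and the semisimplicity of the eigenvalue
`1` in codimension `n` for one prime `ℓ ≠ p`. -/
def TateSemisimple : Prop := ∀ X n, n ≤ (M.coh X).d →
  ∃ ℓ, ℓ ≠ M.p ∧ (M.coh X).TC ℓ n ∧ (M.coh X).SS ℓ n

/-- `dim CH^d(X × X)_ℚ ≤ K b(X)^2` for all `X`, with a constant `K`. -/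
def Bounded : Prop := ∃ K : ℕ, ∀ X : M.V,
  Module.rank ℚ (M.h X ⟶ M.h X) ≤ ((K * number W (M.h X) ^ 2 : ℕ) : Cardinal.{0})

end Chow

end

end MotP.GGap
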