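import Pool.Agent.GGap.Mots

/-!
# The growth gap: weights larger than the dimension (module GG_NGD, helper15)
-/

set_option autoImplicit false

open CategoryTheory MonoidalCategory Limits TensorProduct Polynomial Filter

universe v u w

namespace MotP.GGap

noncomputable section

namespace NGD

section Ring

variable {A : Type w} [Ring A] [Algebra ℚ A] {K : Type} [Field K] [CharZero K] {B : Type} [Ring B]
  [Algebra K B]

lemma hom_smul (φ : A →+* B) (r : ℚ) (a : A) : φ (r • a) = (r : K) • φ a := by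
  have h : φ.comp (algebraMap ℚ A) = (algebraMap K B).comp (algebraMap ℚ K) := RingHom.ext_rat _ _
  have h1 : φ (algebraMap ℚ A r) = algebraMap K B (r : K) := by
    have := RingHom.congr_fun h r
    simpa using this
  rw [Algebra.smul_def, map_mul, h1, Algebra.smul_def]

lemma hom_aeval (φ : A →+* B) (g : A) (S : ℚ[X]) :
    φ (aeval g S) = aeval (φ g) (S.map (algebraMap ℚ K)) := by
  have h : φ.comp (algebraMap ℚ A) = (algebraMap K B).comp (algebraMap ℚ K) := RingHom.ext_rat _ _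
  rw [aeval_def, hom_eval₂, h, aeval_def, eval₂_map]

end Ring

variable (M : Mots.{v, u}) (X : M.V)

/-- the normalised Frobenius -/
def g0 (n : ℕ) : End (M.h X) := (((M.q : ℚ) ^ n)⁻¹) • Mot.component M.W.F (M.h X)

lemma hq (n : ℕ) : ((M.q : ℚ) ^ n) ≠ 0 := pow_ne_zero _ (by exact_mod_cast M.q_pos.ne')

lemma act_g0 (n : ℕ) (i : ℤ) :
    M.act X n i (g0 M X n) = (((M.th X).W n).F i).toIntLinearMap.baseChange ℚ := by
  rw [g0, map_smul, M.act_F, smul_smul, inv_mul_cancel₀ (hq M n), one_smul]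

lemma actE_g0 {ℓ : Nat.Primes} (hℓ : ℓ ≠ M.p) (n : ℕ) (i : ℤ) :
    M.actE X ℓ hℓ n i (g0 M X n) = (((M.th X).E ℓ n).F i).baseChange ℚ_[ℓ] := by
  rw [g0, hom_smul (K := ℚ_[ℓ]), M.actE_F, smul_smul]
  have h1 : ((((M.q : ℚ) ^ n)⁻¹ : ℚ) : ℚ_[ℓ]) * (M.q : ℚ_[ℓ]) ^ n = 1 := by
    have h2 : (M.q : ℚ_[ℓ]) ^ n = (((M.q : ℚ) ^ n : ℚ) : ℚ_[ℓ]) := by push_cast; rfl
    rw [h2, ← Rat.cast_mul, inv_mul_cancel₀ (hq M n), Rat.cast_one]
  rw [h1, one_smul]

theorem fixed_tors (n : ℕ) (hn : (M.th X).d < n) (hN : M.Nil X) (i : ℤ)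
    (x : ((M.th X).W n).C i) (hx : ((M.th X).W n).F i x = x) : WE.Tors x := by
  classical
  obtain ⟨ℓ, hℓ⟩ := WE.Fam.exists_ne M.p
  set I : Finset ℤ := Finset.Icc 0 (2 * ((M.th X).d : ℤ)) with hI
  set S : ℚ[X] := ∏ j ∈ I, (M.th X).P n j with hS
  have hS1 : S.eval 1 ≠ 0 := by
    rw [hS, eval_prod]
    exact Finset.prod_ne_zero_iff.2 fun j _ => WE.P_all (M.th X) hn j
  set a : End (M.h X) := aeval (g0 M X n) S with ha
  have haE : M.HomTrivial X a := by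
    refine ⟨ℓ, hℓ, n, fun j hj0 hj1 => ?_⟩
    have hℓ' : ℓ ≠ (M.th X).p := by rw [M.p_th]; exact hℓ
    have := (M.th X).finC ℓ hℓ' n j
    have hch := (M.th X).charpoly ℓ hℓ' n j
    have h0 : (M.th X).P n j ∣ S := Finset.dvd_prod_of_mem _ (Finset.mem_Icc.2 ⟨hj0, hj1⟩)
    obtain ⟨Q, hQ⟩ := h0
    rw [ha, hom_aeval (K := ℚ_[ℓ]), actE_g0, hQ, Polynomial.map_mul, map_mul, ← hch,
      LinearMap.aeval_self_charpoly, zero_mul]
  obtain ⟨s, hs⟩ := hN a haE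
  have hfix : ((((M.th X).W n).F i).toIntLinearMap.baseChange ℚ) ((1 : ℚ) ⊗ₜ[ℤ] x)
      = (1 : ℚ) ⊗ₜ[ℤ] x := by
    rw [LinearMap.baseChange_tmul]
    exact congrArg (fun y => (1 : ℚ) ⊗ₜ[ℤ] y) hx
  have hact : ∀ k : ℕ, M.act X n i (a ^ k) ((1 : ℚ) ⊗ₜ[ℤ] x) =
      (S.eval 1) ^ k • ((1 : ℚ) ⊗ₜ[ℤ] x) := by
    intro k
    have h1 : a ^ k = aeval (g0 M X n) (S ^ k) := by rw [map_pow]
    rw [h1, ← aeval_algHom_apply, act_g0, WE.PAR.aeval_fixed _ _ hfix, eval_pow]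
  have h2 := hact s
  rw [hs, map_zero, LinearMap.zero_apply] at h2
  exact WE.PAR.Q_zero ((smul_eq_zero.1 h2.symm).resolve_left (pow_ne_zero _ hS1))

end NGD

theorem t_NGD : S_NGD.{v, u} := by
  intro M X n hn hN i
  have hfix := NGD.fixed_tors M X n hn hN
  obtain ⟨j, rfl⟩ : ∃ j, i = j + 1 := ⟨i - 1, by ring⟩
  refine WE.SG.fg_of_finite_tors (fun x => ?_) (WE.tors_finite_of (M.th X) n j (fun ℓ e => ?_) ?_)
  · exact WE.PGD.tors_of_res ((M.th X).W n) (hfix j) rfl x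
      (hfix _ _ ((((M.th X).W n).res_mem _ _).mp ⟨x, rfl⟩))
  · obtain ⟨N, hN', h⟩ := WE.tors_all (M.th X) WE.rk hn ℓ _ e
    exact ⟨N, hN', by rw [h]; exact zero_mem _⟩
  · filter_upwards [WE.ev_zero_all (M.th X) WE.pq WE.ann WE.cha hn (j + 1)] with ℓ h x _
    exact h x

end

end MotP.GGap
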