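import Pool.Agent.GGap.Mots
import Pool.Agent.WEt.PAR

/-!
# Parshin's conjecture and the span of the cycles from nilpotence
-/

set_option autoImplicit false

open CategoryTheory MonoidalCategory Limits TensorProduct Polynomial

universe v u

namespace MotP.GGap

noncomputable section

namespace NPR

section Ring

variable {A : Type v} [Ring A] [Algebra ℚ A] {K : Type} [Field K] [CharZero K] {B : Type} [Ring B]
  [Algebra K B]

lemma hom_smul (φ : A →+* B) (r : ℚ) (a : A) : φ (r • a) = (r : K) • φ a := by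
  have h : φ.comp (algebraMap ℚ A) = (algebraMap K B).comp (algebraMap ℚ K) := RingHom.ext_rat _ _
  have h1 : φ (algebraMap ℚ A r) = algebraMap K B (r : K) := by
    have := RingHom.congr_fun h r
    simpa using this
  rw [Algebra.smul_def, map_mul, h1, Algebra.smul_def]

lemma hom_aeval (φ : A →+* B) (g : A) (S : ℚ[X]) :
    φ (aeval g S) = aeval (φ g) (S.map (algebraMap ℚ K)) := by
  have h : φ.comp (algebraMap ℚ A) = (algebraMap K B).comp (algebraMap ℚ K) := RingHom.ext_rat _ _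
  rw [aeval_def, hom_eval₂, h, aeval_def, eval₂_map]

end Ring

variable (M : Mots.{v, u}) (Y : M.V) {ℓ : Nat.Primes} (hℓ : ℓ ≠ M.p) {n m : ℕ}
  {hd : n + m = (M.th Y).d}

lemma actE_ext_apply (h : n + m = (M.th Y).d) (z : ((M.th Y).W n).H (2 * (n : ℤ)))
    (g : ((M.th Y).W m).H (2 * (m : ℤ)))
    (y : ℚ_[ℓ] ⊗[ℤ_[ℓ]] ((M.th Y).E ℓ n).C (2 * (n : ℤ))) :
    M.actE Y ℓ hℓ n (2 * (n : ℤ)) (M.ext Y n m h z g) y =
      WE.PAR.psi (M.th Y) ℓ n m h g y •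
        ((1 : ℚ_[ℓ]) ⊗ₜ (M.th Y).cC ℓ n _ (((M.th Y).W n).res _ z)) := by
  induction y using TensorProduct.induction_on with
  | zero => simp
  | tmul r y =>
    have h1 : r ⊗ₜ[ℤ_[ℓ]] y = r • ((1 : ℚ_[ℓ]) ⊗ₜ[ℤ_[ℓ]] y) := by
      rw [smul_tmul', smul_eq_mul, mul_one]
    rw [h1, map_smul, map_smul, M.actE_ext', WE.PAR.psi_tmul, one_mul, smul_assoc]
  | add a b ha hb => rw [map_add, map_add, ha, hb, add_smul]

/-- the classes `z_l` -/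
def zz (G : Pre0 (M.th Y) n m hd) (ℓ : Nat.Primes) (l : Fin G.ρ) :
    ℚ_[ℓ] ⊗[ℤ_[ℓ]] ((M.th Y).E ℓ n).C (2 * (n : ℤ)) :=
  (1 : ℚ_[ℓ]) ⊗ₜ (M.th Y).cC ℓ n _ (((M.th Y).W n).res _ (G.a l))

/-- the rational intersection matrix -/
def DQ (G : Pre0 (M.th Y) n m hd) : Matrix (Fin G.ρ) (Fin G.ρ) ℚ := Matrix.of fun j k =>
  (((M.th Y).pair n m hd (((M.th Y).W n).inc _ (((M.th Y).W n).res _ (G.a j))) (G.g k) : ℤ) : ℚ)

/-- the projection to the cycles -/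
def EE (G : Pre0 (M.th Y) n m hd) (U : Matrix (Fin G.ρ) (Fin G.ρ) ℚ) : End (M.h Y) :=
  ∑ l, ∑ k, U k l • M.ext Y n m hd (G.a l) (G.g k)

/-- the homologically trivial correspondence -/
lemma exists_a (G : Pre0 (M.th Y) n m hd) : ∃ (S : ℚ[X]) (U : Matrix (Fin G.ρ) (Fin G.ρ) ℚ)
    (a : End (M.h Y)), S.eval 1 ≠ 0 ∧ DQ M Y G * U = 1 ∧
    (∀ j : ℤ, 0 ≤ j → j ≤ 2 * ((M.th Y).d : ℤ) → M.actE Y ℓ hℓ n j a = 0) ∧
    ∀ i : ℤ, M.act Y n i a = aeval ((((M.th Y).W n).F i).toIntLinearMap.baseChange ℚ) S -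
      S.eval 1 • M.act Y n i (EE M Y G U) := by
  classical
  have hℓ' : ℓ ≠ (M.th Y).p := by rw [M.p_th]; exact hℓ
  obtain ⟨S, r, hS1, hS2, hS3⟩ :=
    WE.PAR.exists_S (M.th Y) n (Finset.Icc 0 (2 * ((M.th Y).d : ℤ)))
  have hdetQ : (DQ M Y G).det ≠ 0 := by
    have : (DQ M Y G).det = (((Matrix.of fun j k => (M.th Y).pair n m hd (((M.th Y).W n).inc _
        (((M.th Y).W n).res _ (G.a j))) (G.g k)).det : ℤ) : ℚ) :=
      ((Int.castRingHom ℚ).map_det _).symm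
    rw [this]
    exact_mod_cast G.det_ne
  set U : Matrix (Fin G.ρ) (Fin G.ρ) ℚ := (DQ M Y G)⁻¹ with hU
  have hDU : DQ M Y G * U = 1 := Matrix.mul_nonsing_inv _ (isUnit_iff_ne_zero.2 hdetQ)
  set UK : Matrix (Fin G.ρ) (Fin G.ρ) ℚ_[ℓ] := U.map (algebraMap ℚ ℚ_[ℓ]) with hUK
  have hDUK : (DQ M Y G).map (algebraMap ℚ ℚ_[ℓ]) * UK = 1 := by
    rw [hUK, ← Matrix.map_mul, hDU]
    exact Matrix.map_one _ (map_zero _) (map_one _)
  set g0 : End (M.h Y) := (((M.q : ℚ) ^ n)⁻¹) • Mot.component M.W.F (M.h Y) with hg0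
  set a : End (M.h Y) := aeval g0 S - S.eval 1 • EE M Y G U with ha
  have hq : ((M.q : ℚ) ^ n) ≠ 0 := pow_ne_zero _ (by exact_mod_cast M.q_pos.ne')
  have hgE : ∀ j : ℤ, M.actE Y ℓ hℓ n j g0 = (((M.th Y).E ℓ n).F j).baseChange ℚ_[ℓ] := by
    intro j
    rw [hg0, hom_smul (K := ℚ_[ℓ]), M.actE_F, smul_smul]
    have h1 : ((((M.q : ℚ) ^ n)⁻¹ : ℚ) : ℚ_[ℓ]) * (M.q : ℚ_[ℓ]) ^ n = 1 := by
      have h2 : (M.q : ℚ_[ℓ]) ^ n = (((M.q : ℚ) ^ n : ℚ) : ℚ_[ℓ]) := by push_cast; rfl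
      rw [h2, ← Rat.cast_mul, inv_mul_cancel₀ hq, Rat.cast_one]
    rw [h1, one_smul]
  refine ⟨S, U, a, hS1, hDU, ?_, ?_⟩
  · intro j hj0 hj1
    have := (M.th Y).finC ℓ hℓ' n j
    have hch := (M.th Y).charpoly ℓ hℓ' n j
    have e1 : M.actE Y ℓ hℓ n j a = aeval ((((M.th Y).E ℓ n).F j).baseChange ℚ_[ℓ])
        (S.map (algebraMap ℚ ℚ_[ℓ])) - ((S.eval 1 : ℚ) : ℚ_[ℓ]) •
          ∑ l, ∑ k, (U k l : ℚ_[ℓ]) • M.actE Y ℓ hℓ n j (M.ext Y n m hd (G.a l) (G.g k)) := by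
      rw [ha, map_sub, hom_aeval (K := ℚ_[ℓ]), hgE, hom_smul (K := ℚ_[ℓ]), EE, map_sum]
      simp only [map_sum, hom_smul (K := ℚ_[ℓ])]
    rw [e1]
    by_cases hj : j = 2 * (n : ℤ)
    · subst hj
      refine LinearMap.ext fun y => ?_
      have hS1K : (S.map (algebraMap ℚ ℚ_[ℓ])).eval 1 = ((S.eval 1 : ℚ) : ℚ_[ℓ]) := by
        have h1 := Polynomial.eval_map_apply (f := algebraMap ℚ ℚ_[ℓ]) (p := S) (1 : ℚ)
        rw [map_one] at h1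
        exact h1
      have hmul : ((((M.th Y).E ℓ n).F (2 * (n : ℤ))).baseChange ℚ_[ℓ]).charpoly.rootMultiplicity 1
          ≤ G.ρ := by
        rw [hch, WE.RK.mult]
        exact G.big
      have hdvd : ((((M.th Y).E ℓ n).F (2 * (n : ℤ))).baseChange ℚ_[ℓ]).charpoly ∣
          (X - 1) ^ r * S.map (algebraMap ℚ ℚ_[ℓ]) := by
        rw [hch]
        have h1 := Polynomial.map_dvd (algebraMap ℚ ℚ_[ℓ]) hS3
        rw [Polynomial.map_mul, Polynomial.map_pow, Polynomial.map_sub, Polynomial.map_X,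
          Polynomial.map_one] at h1
        exact h1
      have hk := WE.PAR.key ((((M.th Y).E ℓ n).F (2 * (n : ℤ))).baseChange ℚ_[ℓ])
        (zz M Y G ℓ) (fun l => by
          rw [zz, LinearMap.baseChange_tmul, ← (M.th Y).res_cH, ((M.th Y).E ℓ n).F_res])
        (fun k => WE.PAR.psi (M.th Y) ℓ n m hd (G.g k)) (fun k y => WE.PAR.psi_F _ _ _ _ _ _ _) UK
        (by
          rw [← hDUK]
          congr 1
          ext j k
          rw [Matrix.of_apply, zz, WE.PAR.psi_tmul, one_mul, ← (M.th Y).cH_inc, (M.th Y).pair_cH]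
          rw [Matrix.map_apply, DQ, Matrix.of_apply]
          simp) hmul (S.map (algebraMap ℚ ℚ_[ℓ])) r hdvd y
      rw [LinearMap.sub_apply, hk, hS1K, LinearMap.smul_apply, LinearMap.zero_apply, sub_eq_zero]
      congr 1
      rw [LinearMap.sum_apply]
      refine Finset.sum_congr rfl fun l _ => ?_
      rw [LinearMap.sum_apply, Finset.sum_smul]
      refine Finset.sum_congr rfl fun k _ => ?_
      rw [LinearMap.smul_apply, actE_ext_apply, mul_smul]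
      rfl
    · have h1 : aeval ((((M.th Y).E ℓ n).F j).baseChange ℚ_[ℓ]) (S.map (algebraMap ℚ ℚ_[ℓ])) = 0 := by
        obtain ⟨Q, hQ⟩ := hS2 j (Finset.mem_Icc.2 ⟨hj0, hj1⟩) hj
        rw [hQ, Polynomial.map_mul, map_mul, ← hch, LinearMap.aeval_self_charpoly, zero_mul]
      rw [h1]
      simp only [M.actE_ext Y ℓ hℓ n m hd _ _ j hj, smul_zero, Finset.sum_const_zero, sub_zero]
  · intro i
    have h1 : M.act Y n i g0 = (((M.th Y).W n).F i).toIntLinearMap.baseChange ℚ := by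
      rw [hg0, map_smul, M.act_F, smul_smul, inv_mul_cancel₀ hq, one_smul]
    rw [ha, map_sub, ← aeval_algHom_apply, h1, map_smul]

/-- a nilpotent operator has no eigenvectors with nonzero eigenvalues -/
lemma nil_eigen {E : Type} [AddCommGroup E] [Module ℚ E] (A : Module.End ℚ E) (s : ℕ)
    (hA : A ^ s = 0) (c : ℚ) (hc : c ≠ 0) (y : E) (hy : A y = c • y) : y = 0 := by
  have h1 : ∀ k : ℕ, (A ^ k) y = c ^ k • y := by
    intro k
    induction k with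
    | zero => simp
    | succ k ih => rw [pow_succ, Module.End.mul_apply, hy, map_smul, ih, smul_smul, pow_succ,
        mul_comm]
  have h2 := h1 s
  rw [hA, LinearMap.zero_apply] at h2
  exact (smul_eq_zero.1 h2.symm).resolve_left (pow_ne_zero _ hc)

lemma EE_one (G : Pre0 (M.th Y) n m hd) (U : Matrix (Fin G.ρ) (Fin G.ρ) ℚ)
    (x : ((M.th Y).W n).C (2 * (n : ℤ))) :
    M.act Y n (2 * (n : ℤ)) (EE M Y G U) ((1 : ℚ) ⊗ₜ[ℤ] x) =
      ∑ l, (∑ k, U k l *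
        (((M.th Y).pair n m hd (((M.th Y).W n).inc _ x) (G.g k) : ℤ) : ℚ)) •
          ((1 : ℚ) ⊗ₜ[ℤ] ((M.th Y).W n).res _ (G.a l)) := by
  rw [EE, map_sum, LinearMap.sum_apply]
  refine Finset.sum_congr rfl fun l _ => ?_
  rw [map_sum, LinearMap.sum_apply, Finset.sum_smul]
  refine Finset.sum_congr rfl fun k _ => ?_
  rw [map_smul, LinearMap.smul_apply, M.act_ext', mul_smul]

lemma EE_res (G : Pre0 (M.th Y) n m hd) (U : Matrix (Fin G.ρ) (Fin G.ρ) ℚ)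
    (hU : DQ M Y G * U = 1) (j : Fin G.ρ) :
    M.act Y n (2 * (n : ℤ)) (EE M Y G U)
      ((1 : ℚ) ⊗ₜ[ℤ] ((M.th Y).W n).res _ (G.a j)) =
        (1 : ℚ) ⊗ₜ[ℤ] ((M.th Y).W n).res _ (G.a j) := by
  classical
  rw [EE_one]
  have h1 : ∀ l, (∑ k, U k l * (((M.th Y).pair n m hd (((M.th Y).W n).inc _
      (((M.th Y).W n).res _ (G.a j))) (G.g k) : ℤ) : ℚ)) = (1 : Matrix (Fin G.ρ) (Fin G.ρ) ℚ) j l := by
    intro l
    rw [← hU, Matrix.mul_apply]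
    refine Finset.sum_congr rfl fun k _ => ?_
    rw [DQ, Matrix.of_apply, mul_comm]
  simp only [h1, Matrix.one_apply, ite_smul, one_smul, zero_smul]
  rw [Finset.sum_ite_eq Finset.univ j, if_pos (Finset.mem_univ j)]

end NPR

open NPR in
theorem t_NPR : S_NPR.{v, u} := by
  classical
  intro M Y ℓ hℓ n m hd ⟨G⟩ hN
  obtain ⟨S, U, a, hS1, hU, haE, hact⟩ := exists_a M Y hℓ G
  obtain ⟨s, hs⟩ := hN a ⟨ℓ, hℓ, n, haE⟩
  have hnil : ∀ i, (M.act Y n i a) ^ s = 0 := by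
    intro i
    rw [← map_pow, hs, map_zero]
  refine ⟨⟨{ ρ := G.ρ, a := G.a, g := G.g, det_ne := G.det_ne, big := G.big, maxC := ?_ }⟩, ?_⟩
  · intro x hx
    set A := M.act Y n (2 * (n : ℤ)) a with hA
    set E := M.act Y n (2 * (n : ℤ)) (EE M Y G U) with hE
    set Fq := (((M.th Y).W n).F (2 * (n : ℤ))).toIntLinearMap.baseChange ℚ with hFq
    have hfix : Fq ((1 : ℚ) ⊗ₜ[ℤ] x) = (1 : ℚ) ⊗ₜ[ℤ] x := by
      rw [hFq, LinearMap.baseChange_tmul]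
      exact congrArg (fun y => (1 : ℚ) ⊗ₜ[ℤ] y) hx
    have hfa : ∀ l, Fq ((1 : ℚ) ⊗ₜ[ℤ] ((M.th Y).W n).res _ (G.a l)) =
        (1 : ℚ) ⊗ₜ[ℤ] ((M.th Y).W n).res _ (G.a l) := by
      intro l
      have h1 := (((M.th Y).W n).res_mem _ (((M.th Y).W n).res _ (G.a l))).1 ⟨_, rfl⟩
      rw [hFq, LinearMap.baseChange_tmul]
      exact congrArg (fun y => (1 : ℚ) ⊗ₜ[ℤ] y) h1
    obtain ⟨c, hc⟩ : ∃ c : Fin G.ρ → ℚ, E ((1 : ℚ) ⊗ₜ[ℤ] x) =
        ∑ l, c l • ((1 : ℚ) ⊗ₜ[ℤ] ((M.th Y).W n).res _ (G.a l)) := ⟨_, EE_one M Y G U x⟩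
    have hEE : E (E ((1 : ℚ) ⊗ₜ[ℤ] x)) = E ((1 : ℚ) ⊗ₜ[ℤ] x) := by
      rw [hc, map_sum]
      refine Finset.sum_congr rfl fun l _ => ?_
      rw [map_smul, EE_res M Y G U hU]
    have hFE : Fq (E ((1 : ℚ) ⊗ₜ[ℤ] x)) = E ((1 : ℚ) ⊗ₜ[ℤ] x) := by
      rw [hc, map_sum]
      refine Finset.sum_congr rfl fun l _ => ?_
      rw [map_smul, hfa]
    have hy : A ((1 : ℚ) ⊗ₜ[ℤ] x - E ((1 : ℚ) ⊗ₜ[ℤ] x)) =
        S.eval 1 • ((1 : ℚ) ⊗ₜ[ℤ] x - E ((1 : ℚ) ⊗ₜ[ℤ] x)) := by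
      rw [hA, hact, LinearMap.sub_apply, LinearMap.smul_apply]
      have h2 : Fq ((1 : ℚ) ⊗ₜ[ℤ] x - E ((1 : ℚ) ⊗ₜ[ℤ] x)) =
          (1 : ℚ) ⊗ₜ[ℤ] x - E ((1 : ℚ) ⊗ₜ[ℤ] x) := by
        rw [map_sub, hfix, hFE]
      rw [WE.PAR.aeval_fixed _ S h2]
      have h3 : E ((1 : ℚ) ⊗ₜ[ℤ] x - E ((1 : ℚ) ⊗ₜ[ℤ] x)) = 0 := by
        rw [map_sub, hEE, sub_self]
      rw [← hE, h3, smul_zero, sub_zero]
    have hy0 := nil_eigen A s (hnil _) _ hS1 _ hy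
    rw [sub_eq_zero, hc] at hy0
    obtain ⟨b, hb⟩ := IsLocalization.exist_integer_multiples_of_finite (nonZeroDivisors ℤ) c
    choose c' hc' using hb
    refine ⟨b.1, nonZeroDivisors.ne_zero b.2, c', ?_⟩
    apply WE.PAR.Q_zero
    rw [tmul_sub, tmul_smul, hy0, tmul_sum, sub_eq_zero, Finset.smul_sum]
    refine Finset.sum_congr rfl fun l _ => ?_
    have h4 : ((c' l : ℤ) : ℚ) = (b.1 : ℚ) * c l := by
      have h5 := hc' l
      have h6 : algebraMap ℤ ℚ (c' l) = ((c' l : ℤ) : ℚ) := rfl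
      rw [h6] at h5
      rw [h5, zsmul_eq_mul]
    rw [tmul_smul, ← Int.cast_smul_eq_zsmul ℚ (c' l), h4, ← Int.cast_smul_eq_zsmul ℚ b.1,
      smul_smul]
  · intro i hi x hx
    have hfix : ((((M.th Y).W n).F i).toIntLinearMap.baseChange ℚ) ((1 : ℚ) ⊗ₜ[ℤ] x)
        = (1 : ℚ) ⊗ₜ[ℤ] x := by
      rw [LinearMap.baseChange_tmul]
      exact congrArg (fun y => (1 : ℚ) ⊗ₜ[ℤ] y) hx
    have hE0 : M.act Y n i (EE M Y G U) = 0 := by
      rw [EE, map_sum]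
      simp only [map_sum, map_smul, M.act_ext Y n m hd _ _ i hi, smul_zero,
        Finset.sum_const_zero]
    have hy : M.act Y n i a ((1 : ℚ) ⊗ₜ[ℤ] x) = S.eval 1 • ((1 : ℚ) ⊗ₜ[ℤ] x) := by
      rw [hact, hE0, smul_zero, sub_zero, WE.PAR.aeval_fixed _ S hfix]
    exact WE.PAR.Q_zero (nil_eigen _ s (hnil i) _ hS1 _ hy)

end

end MotP.GGap
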