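import Pool.Agent.GGap.Mots
import Pool.Agent.WEt.PRE

/-!
# GGap: the module PR0
-/

set_option autoImplicit false

open TensorProduct Polynomial WE WE.PRE

namespace MotP.GGap

theorem t_PR0 : S_PR0 := by
  intro X ℓ hℓ n m hd hTn hS hTm
  have := (X.E ℓ n).finH (2 * (n : ℤ))
  obtain ⟨ρ, a, ha1, ha2, ha3⟩ := exists_fam (X.cH ℓ n (2 * (n : ℤ))) (span_cH X hℓ n hTn)
  -- independence of the rows
  have hrow : ∀ c : Fin ρ → ℤ, (∀ g, ∑ j, c j * X.pair n m hd (eW X n (a j)) g = 0) → c = 0 := by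
    intro c hc
    have h1 : ∀ g, X.pair n m hd (eW X n (∑ j, c j • a j)) g = 0 := by
      intro g
      rw [← hc g]
      simp [map_sum, map_zsmul]
    have h1' : ∀ s ∈ Submodule.span ℤ_[ℓ] (Set.range (X.cH ℓ m (2 * (m : ℤ)))),
        X.pairE ℓ n m hd (X.cH ℓ n _ (eW X n (∑ j, c j • a j))) s = 0 := by
      intro s hs
      induction hs using Submodule.span_induction with
      | mem s hs =>
        obtain ⟨g, rfl⟩ := hs
        rw [X.pair_cH, h1]
        simp
      | zero => simp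
      | add s t _ _ hs ht => rw [map_add, hs, ht, add_zero]
      | smul b s _ hs => rw [map_smul, hs, smul_zero]
    have h2 : Tors (X.cH ℓ n _ (eW X n (∑ j, c j • a j))) := by
      refine X.pairE_ker ℓ hℓ n m hd _ fun y => ?_
      obtain ⟨u, hu, s, hs, hus⟩ := span_cH X hℓ m hTm y
      have h3 := h1' s hs
      have h4 := (hus.lmap (X.pairE ℓ n m hd (X.cH ℓ n _ (eW X n (∑ j, c j • a j))))).eq_zero
      rw [map_sub, h3, sub_zero, map_smul, smul_eq_mul] at h4
      exact (mul_eq_zero.mp h4).resolve_left hu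
    rw [← eE_cH] at h2
    have h3 := eE_tors X hℓ n hS _ h2
    have h4 : Tors (∑ j, ((c j : ℤ) : ℤ_[ℓ]) • X.cH ℓ n _ (a j)) := by
      convert h3 using 1
      rw [map_sum]
      refine Finset.sum_congr rfl fun j _ => ?_
      rw [map_zsmul, zsmul_eq (ℓ := ℓ)]
    have h5 := ha1 _ h4
    funext j
    have h6 := congrFun h5 j
    simpa using h6
  obtain ⟨g, hg⟩ := glob ((X.W m).H (2 * (m : ℤ))) ρ
    (fun j g => X.pair n m hd (eW X n (a j)) g) hrow
  exact ⟨⟨ρ, a, g, hg, (rank_even_eq X rk hℓ n _ hS).trans ha3⟩⟩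

end MotP.GGap
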