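import Pool.Agent.GGap.Mots
import Pool.Agent.WEt.FWD

/-!
# The growth gap: MODULE RNK

The rank of the ring of correspondences is bounded by the number of Frobenius eigenvalues.
-/

set_option autoImplicit false

open CategoryTheory MonoidalCategory Limits TensorProduct Polynomial

universe v u

namespace MotP.GGap

noncomputable section

namespace RNK

/-- the fixed vectors come from `H` -/
lemma fixed_mem (W : WE.Weil) (i : ℤ) (t : ℚ ⊗[ℤ] W.C i)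
    (ht : (W.F i).toIntLinearMap.baseChange ℚ t = t) :
    t ∈ LinearMap.range ((W.res i).toIntLinearMap.baseChange ℚ) := by
  obtain ⟨k, hk, x, hx⟩ := WE.PAR.Q_exists t
  have hk' : (k : ℚ) ≠ 0 := by exact_mod_cast hk
  have h1 : (1 : ℚ) ⊗ₜ[ℤ] (W.F i x) = (1 : ℚ) ⊗ₜ[ℤ] x := by
    have h2 : (W.F i).toIntLinearMap.baseChange ℚ ((1 : ℚ) ⊗ₜ[ℤ] x) =
      (1 : ℚ) ⊗ₜ[ℤ] (W.F i x) := rfl
    rw [← h2, ← hx, map_smul, ht]
  obtain ⟨M, hM, hMx⟩ : WE.Tors (W.F i x - x) := by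
    apply WE.PAR.Q_zero
    rw [tmul_sub, h1, sub_self]
  have hM' : (M : ℚ) ≠ 0 := by exact_mod_cast hM
  have h3 : W.F i (M • x) = M • x := by
    rw [map_zsmul]
    rw [smul_sub, sub_eq_zero] at hMx
    exact hMx
  obtain ⟨h, hh⟩ := (W.res_mem i _).mpr h3
  have h4 : (W.res i).toIntLinearMap.baseChange ℚ ((1 : ℚ) ⊗ₜ[ℤ] h) =
      (1 : ℚ) ⊗ₜ[ℤ] (W.res i h) := rfl
  have h5 : (1 : ℚ) ⊗ₜ[ℤ] (M • x) = ((M : ℚ) * k) • t := by
    rw [tmul_smul, ← hx, ← Int.cast_smul_eq_zsmul ℚ M, smul_smul]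
  refine ⟨((M : ℚ) * k)⁻¹ • ((1 : ℚ) ⊗ₜ[ℤ] h), ?_⟩
  rw [map_smul, h4, hh, h5, smul_smul, inv_mul_cancel₀ (mul_ne_zero hM' hk'), one_smul]

end RNK

/-- MODULE RNK -/
theorem rnk : S_RNK.{v, u} := by
  intro M X hL
  obtain ⟨ℓ, hℓ⟩ : ∃ ℓ : Nat.Primes, ℓ ≠ M.p := by
    by_cases h : (⟨2, Nat.prime_two⟩ : Nat.Primes) = M.p
    · refine ⟨⟨3, Nat.prime_three⟩, fun h1 => ?_⟩
      rw [← h] at h1
      exact absurd (congrArg Subtype.val h1) (by norm_num)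
    · exact ⟨_, h⟩
  have hℓ' : ℓ ≠ (M.th (M.pow X 2)).p := by
    rw [M.p_th]
    exact hℓ
  have hK := WE.K_of_L WE.kl (M.th (M.pow X 2)) hL
  have fH : Module.Finite ℤ (((M.th (M.pow X 2)).W (M.th X).d).H (2 * ((M.th X).d : ℤ))) :=
    Module.Finite.iff_addGroup_fg.2 (hL _)
  have fC : Module.Finite ℤ_[ℓ]
      (((M.th (M.pow X 2)).E ℓ (M.th X).d).C (2 * ((M.th X).d : ℤ))) :=
    (M.th (M.pow X 2)).finC ℓ hℓ' _ _
  have e1 : Module.finrank ℤ (((M.th (M.pow X 2)).W (M.th X).d).H (2 * ((M.th X).d : ℤ))) =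
      Module.finrank ℤ_[ℓ] (((M.th (M.pow X 2)).E ℓ (M.th X).d).H (2 * ((M.th X).d : ℤ))) := by
    rw [← WE.SG.finrank_tens ℓ]
    exact (LinearEquiv.ofBijective _ (hK ℓ _)).finrank_eq
  have e2 : Module.finrank ℤ_[ℓ]
      (((M.th (M.pow X 2)).E ℓ (M.th X).d).H (2 * ((M.th X).d : ℤ))) ≤
      Module.finrank ℤ_[ℓ] (((M.th (M.pow X 2)).E ℓ (M.th X).d).C (2 * ((M.th X).d : ℤ))) :=
    WE.finrank_le_of_ker (((M.th (M.pow X 2)).E ℓ (M.th X).d).res _)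
      (fun x hx => WE.FWD.ker_res _ hℓ' (M.th X).d _ rfl x hx)
  have e3 := M.betti (M.pow X 2) ℓ hℓ (M.th X).d (2 * ((M.th X).d : ℤ))
  set φ := ((((M.th (M.pow X 2)).W (M.th X).d).res
    (2 * ((M.th X).d : ℤ))).toIntLinearMap.baseChange ℚ) with hφ
  have hmem : ∀ a, M.cyc X a ∈ LinearMap.range φ := fun a =>
    RNK.fixed_mem _ _ _ (M.cyc_F X a)
  have h4 : Module.finrank ℚ (ℚ ⊗[ℤ]
      (((M.th (M.pow X 2)).W (M.th X).d).H (2 * ((M.th X).d : ℤ)))) =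
      Module.finrank ℤ (((M.th (M.pow X 2)).W (M.th X).d).H (2 * ((M.th X).d : ℤ))) :=
    IsBaseChange.finrank_eq (TensorProduct.isBaseChange ℤ _ ℚ)
  have h5 : Module.rank ℚ (LinearMap.range φ) ≤ (number M.W (M.h (M.pow X 2)) : Cardinal) := by
    refine (rank_range_le φ).trans ?_
    rw [← Module.finrank_eq_rank, h4, e1]
    exact_mod_cast e2.trans e3
  have h6 := LinearMap.lift_rank_le_of_injective ((M.cyc X).codRestrict _ hmem)
    (fun a b hab => M.cyc_inj X (congrArg Subtype.val hab))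
  have h7 := Cardinal.lift_le.{v}.mpr h5
  rw [Cardinal.lift_natCast] at h7
  have h8 := h6.trans h7
  rw [Cardinal.lift_uzero] at h8
  exact h8

end

end MotP.GGap
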