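import Pool.Agent.GGap.Light
import Pool.Agent.GGap.FinW
import Pool.Agent.GGap.FinC
import Pool.Agent.GGap.P_PR0
import Pool.Agent.GGap.P_NPR
import Pool.Agent.GGap.P_NGD
import Pool.Agent.GGap.P_RNK

/-!
# The growth gap and Weil-etale motivic cohomology: conversion to the structure used in the proofs
-/

set_option autoImplicit false

open CategoryTheory MonoidalCategory Limits TensorProduct Polynomial

universe u

namespace MotP.GGap

noncomputable section

open WEt (Ab Zl QAlg Groups Duality Coh Tors)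

variable {C : Type u} [Category.{0} C] [Preadditive C] [Linear ℚ C] [MonoidalCategory C]
  [SymmetricCategory C] [MonoidalPreadditive C] [MonoidalLinear ℚ C] [RightRigidCategory C]

theorem one_zsmul' {A : Type} [AddCommGroup A] (k : ℤ) (x : A) :
    (1 : ℚ) ⊗ₜ[ℤ] (k • x) = (k : ℚ) • ((1 : ℚ) ⊗ₜ[ℤ] x) := by
  rw [tmul_smul, Int.cast_smul_eq_zsmul]

namespace Chow

variable {W : MotP.Frobenius C} (M : Chow W)

/-- conversion -/
def old [IsIdempotentComplete C] : Mots.{0, u} where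
  p := M.p
  q := M.q
  q_pos := M.q_pos
  V := M.V
  th X := (M.coh X).old
  p_th := M.char
  C := C
  W := W
  h := M.h
  pow := M.pow
  h_pow := M.kunneth
  d_pow := M.dim
  act X n i := RingHom.toRatAlgHom ((M.acts X).act n i)
  actE X ℓ h n i := (M.acts X).actE ℓ (by rw [M.char]; exact h) n i
  act_F X n i := WEt.endo_aux _ _ _ ((M.frob X).act n i)
  actE_F X ℓ h n i := WEt.endoE_aux _ _ _ ((M.frob X).actE ℓ _ n i)
  ext X n m e := (M.ext X n m e).ext
  act_ext X n m e z g i hi := (M.ext X n m e).act z g i hi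
  act_ext' X n m e z g y := ((M.ext X n m e).act' z g y).trans (one_zsmul' _ _)
  actE_ext X ℓ hℓ n m e z g i hi := (M.ext X n m e).actE ℓ _ z g i hi
  actE_ext' X ℓ hℓ n m e z g y := ((M.ext X n m e).actE' ℓ _ z g y).trans (WEt.one_smul' _ _)
  triv X ℓ hℓ n a ha := M.lefschetz X ℓ (by rw [M.char]; exact hℓ) n a ha
  cyc X := (M.cycles X).cyc
  cyc_inj X := (M.cycles X).inj
  cyc_F X a := WEt.fixes_aux _ _ ((M.cycles X).fixed a)
  betti X ℓ hℓ n i := M.betti X ℓ hℓ n i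

/-- One variety. -/
theorem one [IsIdempotentComplete C] (X : M.V) (r : ℕ) (hr : 0 < r) (h : Small W (M.h X) r) :
    (∀ a : End (M.h X), (∃ (ℓ : Nat.Primes) (hℓ : ℓ ≠ (M.coh X).p) (n : ℕ),
      (M.acts X).Trivial ℓ hℓ n a) → IsNilpotent a) ∧
    (∀ n, (M.coh X).d < n → (M.coh X).L n) ∧
    (∀ n m : ℕ, n + m = (M.coh X).d → ∀ ℓ, ℓ ≠ M.p → (M.coh X).TC ℓ n → (M.coh X).SS ℓ n →
      n ≤ m ∨ (M.coh X).TC ℓ m → (M.coh X).L n) := by
  obtain ⟨h1, h2, h3⟩ := M.old.single t_PR0 t_NPR t_NGD (f_GAP C) X r hr h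
  refine ⟨fun a ⟨ℓ, hℓ, n, ha⟩ => h1 a ⟨ℓ, ?_, n, ha⟩, h2, h3⟩
  show ℓ ≠ M.p
  rw [← M.char X]
  exact hℓ

/-- The theorem. -/
theorem main [IsIdempotentComplete C] :
    [M.Q1,
      M.TateSemisimple ∧ M.Bounded,
      M.TateSemisimple ∧ ∀ X, ∃ r, 0 < r ∧ Small W (M.h X) r].TFAE :=
  M.old.tfae t_PR0 t_NPR t_NGD rnk (f_GAP C) t_GRW (t_TVA C) (t_NET C)

end Chow

end

end MotP.GGap
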