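import Pool.Agent.GGap.Cat
import Pool.Agent.WEt.FamFinal
import Pool.Agent.WEt.SingleB

/-!
# The growth gap for Chow groups and Weil-etale cohomology: definitions

`Mots`: the smooth projective varieties over one finite field, their cohomology (`WE.Theory`), and
the category of Chow motives with rational coefficients.
-/

set_option autoImplicit false

open CategoryTheory MonoidalCategory Limits TensorProduct Polynomial

universe v u

namespace MotP.GGap

noncomputable section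

/-- Smooth projective varieties over a finite field with `q` elements, of characteristic `p`, their
cohomology, and the category of Chow motives over this field with rational coefficients. -/
structure Mots where
  p : Nat.Primes
  q : ℕ
  q_pos : 0 < q
  /-- the smooth projective varieties -/
  V : Type
  /-- their cohomology -/
  th : V → WE.Theory
  p_th : ∀ X, (th X).p = p
  /-- the category of Chow motives -/
  C : Type u
  [cat : Category.{v} C]
  [pre : Preadditive C]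
  [lin : Linear ℚ C]
  [mon : MonoidalCategory C]
  [sym : SymmetricCategory C]
  [mpre : MonoidalPreadditive C]
  [mlin : MonoidalLinear ℚ C]
  [rig : RightRigidCategory C]
  [idem : IsIdempotentComplete C]
  /-- Frobenius, its eigenvalues, and the trace formula -/
  W : MotP.Frobenius C
  /-- the motive of a variety -/
  h : V → C
  /-- the powers `X^r` -/
  pow : V → ℕ → V
  h_pow : ∀ X r, Nonempty (h (pow X r) ≅ Mot.T (h X) r)
  d_pow : ∀ X r, (th (pow X r)).d = r * (th X).d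
  /-- the action of correspondences on `H^i(X̄, ℚ(n))` -/
  act : ∀ X n i, End (h X) →ₐ[ℚ] Module.End ℚ (ℚ ⊗[ℤ] ((th X).W n).C i)
  /-- the action of correspondences on `H^i(X̄, ℚ_ℓ(n))` -/
  actE : ∀ X ℓ, ℓ ≠ p → ∀ n i,
    End (h X) →+* Module.End ℚ_[ℓ] (ℚ_[ℓ] ⊗[ℤ_[ℓ]] ((th X).E ℓ n).C i)
  /-- the Frobenius of the motive acts as `q^n` times the Frobenius of `X̄` -/
  act_F : ∀ X n i, act X n i (Mot.component W.F (h X)) =
    ((q : ℚ) ^ n) • (((th X).W n).F i).toIntLinearMap.baseChange ℚ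
  actE_F : ∀ X ℓ hℓ n i, actE X ℓ hℓ n i (Mot.component W.F (h X)) =
    ((q : ℚ_[ℓ]) ^ n) • (((th X).E ℓ n).F i).baseChange ℚ_[ℓ]
  /-- the exterior product `z × g` of cycles of codimensions `n` and `m`, `n + m = d` -/
  ext : ∀ (X : V) (n m : ℕ), n + m = (th X).d → ((th X).W n).H (2 * (n : ℤ)) →
    ((th X).W m).H (2 * (m : ℤ)) → End (h X)
  act_ext : ∀ X (n m : ℕ) hd z g (i : ℤ), i ≠ 2 * (n : ℤ) → act X n i (ext X n m hd z g) = 0
  act_ext' : ∀ X n m hd z g (y : ((th X).W n).C (2 * (n : ℤ))),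
    act X n (2 * (n : ℤ)) (ext X n m hd z g) (1 ⊗ₜ y) =
      (((th X).pair n m hd (((th X).W n).inc _ y) g : ℤ) : ℚ) • (1 ⊗ₜ ((th X).W n).res _ z)
  actE_ext : ∀ X ℓ hℓ (n m : ℕ) hd z g (i : ℤ), i ≠ 2 * (n : ℤ) →
    actE X ℓ hℓ n i (ext X n m hd z g) = 0
  actE_ext' : ∀ X ℓ hℓ n m hd z g (y : ((th X).E ℓ n).C (2 * (n : ℤ))),
    actE X ℓ hℓ n (2 * (n : ℤ)) (ext X n m hd z g) (1 ⊗ₜ y) =
      ((((th X).pairE ℓ n m hd (((th X).E ℓ n).inc _ y) ((th X).cH ℓ m _ g) : ℤ_[ℓ])) : ℚ_[ℓ]) •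
        (1 ⊗ₜ (th X).cC ℓ n _ (((th X).W n).res _ z))
  /-- the Lefschetz trace formula: homologically trivial correspondences are numerically trivial -/
  triv : ∀ X ℓ hℓ n (a : End (h X)),
    (∀ i : ℤ, 0 ≤ i → i ≤ 2 * ((th X).d : ℤ) → actE X ℓ hℓ n i a = 0) →
      NumTrivial (a : h X ⟶ h X)
  /-- correspondences are cycles: `CH^d(X × X) ⊗ ℚ ⊆ H^(2d)(X̄ × X̄, ℚ(d))` -/
  cyc : ∀ X, End (h X) →ₗ[ℚ] ℚ ⊗[ℤ] ((th (pow X 2)).W (th X).d).C (2 * ((th X).d : ℤ))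
  cyc_inj : ∀ X, Function.Injective (cyc X)
  cyc_F : ∀ X a, (((th (pow X 2)).W (th X).d).F (2 * ((th X).d : ℤ))).toIntLinearMap.baseChange ℚ
    (cyc X a) = cyc X a
  /-- Betti numbers are at most the number of Frobenius eigenvalues -/
  betti : ∀ X ℓ, ℓ ≠ p → ∀ n i,
    Module.finrank ℤ_[ℓ] (((th X).E ℓ n).C i) ≤ number W (h X)

attribute [instance] Mots.cat Mots.pre Mots.lin Mots.mon Mots.sym Mots.mpre Mots.mlin Mots.rig
  Mots.idem

namespace Mots

variable (M : Mots.{v, u})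

/-- `L^n(X)` for all `X` and `n` -/
def Q1 : Prop := ∀ X n, (M.th X).L n

/-- the Tate conjecture and semisimplicity in codimension `n` for one prime `ℓ ≠ p` -/
def TS (X : M.V) (n : ℕ) : Prop := ∃ ℓ, ℓ ≠ M.p ∧ (M.th X).TC ℓ n ∧ (M.th X).SS ℓ n

/-- homologically trivial correspondences -/
def HomTrivial (X : M.V) (a : End (M.h X)) : Prop :=
  ∃ (ℓ : Nat.Primes) (hℓ : ℓ ≠ M.p) (n : ℕ), ∀ i : ℤ, 0 ≤ i → i ≤ 2 * ((M.th X).d : ℤ) →
    M.actE X ℓ hℓ n i a = 0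

/-- nilpotence of the homologically trivial correspondences -/
def Nil (X : M.V) : Prop := ∀ a : End (M.h X), M.HomTrivial X a → IsNilpotent a

end Mots

/-- As `WE.Pre`, without the condition that the cycles span. -/
structure Pre0 (X : WE.Theory) (n m : ℕ) (hd : n + m = X.d) where
  ρ : ℕ
  a : Fin ρ → (X.W n).H (2 * (n : ℤ))
  g : Fin ρ → (X.W m).H (2 * (m : ℤ))
  det_ne : (Matrix.of fun j k =>
    X.pair n m hd ((X.W n).inc _ ((X.W n).res _ (a j))) (g k)).det ≠ 0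
  big : (X.P n (2 * (n : ℤ))).rootMultiplicity 1 ≤ ρ

/-- PR0. As `WE.pre` (file `Pool/Agent/WEt/PRE.lean`), which proves `S_PRE`; there `X.B ℓ n` is used only for the field `maxC`. -/
def S_PR0 : Prop := ∀ (X : WE.Theory) (ℓ : Nat.Primes), ℓ ≠ X.p → ∀ (n m : ℕ) (hd : n + m = X.d),
  X.TC ℓ n → X.SS ℓ n → X.TC ℓ m → Nonempty (Pre0 X n m hd)

/-- NPR. As `WE.PAR.main` (file `Pool/Agent/WEt/PAR.lean`). Let `S`, `U`, `g0 = (q^n)⁻¹ • F` and `a = S(g0) - S(1) • ∑ U k l • ext (a l) (g k)` be as there (an element of `End (M.h X)`); `a` acts as zero on `ℓ`-adic cohomology, so by nilpotence `a ^ s = 0`. (1) Parshin: for `F x = x`, `x` in degree `i ≠ 2 n`: `act a (1 ⊗ x) = S(1) • (1 ⊗ x)` (`act_ext`), so `S(1) ^ s • (1 ⊗ x) = 0`,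
`x` is torsion. (2) the cycles `a l` span: let `F x = x` in degree `2 n`, `e' (1 ⊗ x) = ∑ U k l • ⟨x, g k⟩ • (1 ⊗ res (a l))` (`act_ext'`, `⟨x, g⟩ = pair (inc x) g`); `y = 1 ⊗ x - e' (1 ⊗ x)` is fixed by `F`, and `e' y = 0` because `D U = 1`, `D j k = ⟨res (a j), g k⟩`. So `act a y = S(1) • y`, `S(1) ^ s • y = 0`, `y = 0`: `1 ⊗ x` is a rational combination of the
`1 ⊗ res (a l)`; clear denominators (`PAR.Q_zero`): `maxC`. -/
def S_NPR : Prop := ∀ (M : Mots.{v, u}) (X : M.V) (ℓ : Nat.Primes), ℓ ≠ M.p →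
  ∀ (n m : ℕ) (hd : n + m = (M.th X).d), Nonempty (Pre0 (M.th X) n m hd) → M.Nil X →
  Nonempty (WE.Pre (M.th X) n m hd) ∧
  ∀ i : ℤ, i ≠ 2 * (n : ℤ) → ∀ x : ((M.th X).W n).C i, ((M.th X).W n).F i x = x → WE.Tors x

/-- NGD. Weights `n > d`. Let `S = ∏ P n i` over `0 ≤ i ≤ 2 d`; `S(1) ≠ 0` (`P_one`, `P_big`). `a = S(g0)` acts as zero on `ℓ`-adic cohomology (Cayley-Hamilton, as in `PAR.main`), so `a ^ s = 0`, and `F x = x` in degree `i` gives `S(1) ^ s • (1 ⊗ x) = 0`, `x` torsion. So all `(C i)^F` are torsion, all elements of `(M.th X).W n).H i` are torsion (`PGD.inc_tors'`, `PGD.tors_of_res`), `KQ ℓ n` holds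
(`WE.tors_all`: `(E ℓ n).H i` is torsion) and `L n` by `WE.final` (or directly as in `single_big`: `fg_of_finite_tors`, `tors_finite_of`, `ev_zero_all`). -/
def S_NGD : Prop := ∀ (M : Mots.{v, u}) (X : M.V) (n : ℕ), (M.th X).d < n → M.Nil X →
  (M.th X).L n

/-- RNK. Let `Y = X × X` (`M.pow X 2`), `2 d = dim Y` (`d_pow`). `L d` for `Y` gives `K` (`WE.K_of_L`, `WE.kl`), so for `ℓ ≠ p` the map `ℤ_ℓ ⊗ H_W^(2d)(Y, ℤ(d)) → H^(2d)(Y, ℤ_ℓ(d))` is bijective, and modulo torsion `H^(2d)(Y, ℤ_ℓ(d)) → H^(2d)(Ȳ, ℤ_ℓ(d))` is injective (`FWD.ker_res`), so `rank H_W^(2d) ≤ finrank C` (`WE.finrank_tens`, `WE.finrank_le_of_ker`).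
The elements of `ℚ ⊗ C (2d)` fixed by `F` are in the span of the image of `ℚ ⊗ H_W^(2d)` (`res_mem`; if `F t = t`, `k t = 1 ⊗ x`, then a multiple of `x` is fixed, see `PAR.ratInj`), so the image of `cyc` has dimension at most `rank H_W^(2d)`. -/
def S_RNK : Prop := ∀ (M : Mots.{v, u}) (X : M.V), (M.th (M.pow X 2)).L (M.th X).d →
  Module.rank ℚ (M.h X ⟶ M.h X) ≤ ((number M.W (M.h (M.pow X 2)) : ℕ) : Cardinal.{v})

end

end MotP.GGap
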