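import Pool.Agent.GGap.Defs

/-!
# The growth gap: statements of the modules

Module `X` proves `theorem t_X : S_X C` (or `M_X C`; hypotheses of `M_X` are statements of other
modules) in the namespace `MotP.GGap`, in the file `Pool/Agent/GGap/P_X.lean`, importing this file.
Composition is written `f ≫ g` (first `f`). `T X (n + 1) = T X n ⊗ X` by definition (`Mot.T`).
`tr` is `MotP.tr`, `val : (𝟙 ⟶ 𝟙) → ℚ` the scalar.
-/

set_option autoImplicit false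

open CategoryTheory MonoidalCategory BraidedCategory Limits

universe v u

namespace MotP.GGap

open Mot

noncomputable section

/-! ## Pure statements -/

/-- RKL. Let `G s t = φ t (v s)`. Then `(∑ G s s)² ≤ dim V * ∑ (G s t)²`. Proof: `(tr G)² ≤ rank G * ‖G‖²` for every real matrix `G` and `rank G ≤ dim V`.
One way: choose a basis of `V`, `G = A * B` with `A : ι × Fin D`, `B : Fin D × ι`, `D = dim V`, cast to `ℝ`; let `E` be the span of the columns of `A` in `EuclideanSpace ℝ ι`, `u_1, ..., u_m` an orthonormal basis of `E`, `m ≤ D`; every column of `G` is in `E`, so `G s t = ∑ k, ⟪u_k, G e_t⟫ (u_k) s`, and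
`tr G = ∑ k, ∑ t, ⟪u_k, G e_t⟫ (u_k) t`; by Cauchy-Schwarz `(tr G)² ≤ (∑_k ∑_t (u_k t)²) (∑_k ∑_t ⟪u_k, G e_t⟫²) = m * ∑_t ‖G e_t‖²` (Parseval in `E`). Another way without real numbers: induction on `dim V`, or the trace of a projection matrix. -/
def S_RKL : Prop := ∀ (ι : Type) [Fintype ι] (V : Type v) [AddCommGroup V] [Module ℚ V]
  [Module.Finite ℚ V] (x : ι → V) (φ : ι → V →ₗ[ℚ] ℚ),
  (∑ s, φ s (x s)) ^ 2 ≤ (Module.finrank ℚ V : ℚ) * ∑ s, ∑ t, (φ t (x s)) ^ 2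

/-- NUM. `(1 + a + b) ^ r = ∑_k C(r, k) (a + b) ^ (r - k)`, so one of the `r + 1` terms is at least `(1 + a + b) ^ r / (r + 1)`; the same for `(a + b) ^ m`, `m = r - k`. -/
def S_NUM : Prop := ∀ a b r : ℕ, ∃ k i l : ℕ, k + (i + l) = r ∧
  (1 + a + b) ^ r ≤ (r + 1) ^ 2 * (r.choose k * (i + l).choose i * (a ^ i * b ^ l))

/-- RIS. `∏_(j < i) (c + j) = i! * C(c + i - 1, i)`, `C(c + i - 1, i) ≤ (i + 1) ^ c`. (Induction on `c` for fixed `i`: the ratio `∏_(j<i) (c + 1 + j) / ∏_(j<i) (c + j)` telescopes to `(c + i) / c ≤ i + 1` for `c ≥ 1`; for `c = 0` the product is `0` or empty.) -/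
def S_RIS : Prop := ∀ c i : ℕ, ∏ j ∈ Finset.range i, (c + j) ≤ i.factorial * (i + 1) ^ c

/-- GRW. A polynomial is smaller than an exponential function. (`b = 0`: take `r = 1` if possible, note that `K * (r + 1) ^ c * 0 ^ (2 r) = 0 < 1`.) -/
def S_GRW : Prop := ∀ K c b : ℕ, ∃ r : ℕ, 0 < r ∧ K * (r + 1) ^ c * b ^ (2 * r) < (b + 1) ^ (2 * r)

/-- GRP. The sum of squares over the group. `χ (up x) = t χ x`, `χ (up x * s) = χ x` where `s` exchanges the last two letters, `χ` is a class function. Every element of `Perm (Fin (n + 1))` is `up x` or, for `n ≥ 1` and a unique `j < n`, `up x * (j n)`, and `(j n) = up y * s * up y⁻¹` with `y = (j n-1)`; so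
`χ (up x * (j n)) = χ (up (x y) * s * up y⁻¹) = χ (up (y⁻¹ x y) * s) = χ (y⁻¹ x y) = χ x`. So `∑ χ² (n + 1) = (t² + n) ∑ χ² (n)`. -/
def S_GRP : Prop := ∀ (t : ℚ) (χ : ∀ n : ℕ, Equiv.Perm (Fin n) → ℚ), χ 0 1 = 1 →
  (∀ n σ τ, χ n (σ * τ) = χ n (τ * σ)) → (∀ n σ, χ (n + 1) (up σ) = t * χ n σ) →
  (∀ n (σ : Equiv.Perm (Fin (n + 1))),
    χ (n + 2) (up σ * Equiv.swap (Fin.last n).castSucc (Fin.last (n + 1))) = χ (n + 1) σ) →
  ∀ n, ∑ σ, (χ n σ) ^ 2 = ∏ j ∈ Finset.range n, (t ^ 2 + j)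

/-! ## Statements on categories -/

variable (C : Type u) [Category.{v} C] [Preadditive C] [Linear ℚ C] [MonoidalCategory C]
  [SymmetricCategory C] [MonoidalPreadditive C] [MonoidalLinear ℚ C] [RightRigidCategory C]

/-- PRM. The action of the symmetric groups on tensor powers. Let `s_1, ..., s_(n-1)` be the exchanges of neighbouring factors of `T X n` (`Mot.Adj`; `sw (T X (n-2)) X` whiskered by `X` on the right) and `M n` the submonoid of `Perm (Fin n) × (End (T X n))` (with the order of multiplication of `mul`) generated by all (transposition, exchange). For `n + 1 ≥ 2` let `s` be the last generator,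
`ι : M n → M (n + 1)` (`up`, `▷ X`). NORMAL FORM: every element of `M (n + 1)` is `ι x` or `ι x * s * ι y`: closed under right multiplication by generators, because `s * ι y * s` is `ι y` if `y` comes from `M (n - 1)` (it commutes with `s`, `Mot.sw_nat`, `s² = 1`, `Mot.sw_sq`), and for `y = ι u * s' * ι v` it is `ι ι u * (s s' s) * ι ι v = ι ι u * s' s s' * ι ι v`
(`Mot.sw_braid`). INJECTIVITY of `M n → Perm (Fin n)`, by induction: if `(1, g)` is in `M (n + 1)`, it is `ι x`, so `g = 1` by induction, or `ι x * s * ι y`, and then the permutation `s` is in the image of `up`, a contradiction (`n ≥ 1`). All elements of `M n` are invertible in `M n` (generators are involutions), so two elements over the same permutation are equal. SURJECTIVITY: the adjacent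
transpositions generate (`Equiv.Perm.mclosure_swap_castSucc_succ`). Other constructions are welcome (for instance directly from `decomposeFin`-like coset representatives). -/
def S_PRM : Prop := ∀ X : C, Nonempty (PermAct X)

/-- COP. Binomial multiplicities. `Cp` is stable under composition (`Cp a Y X → Cp b Z Y → Cp (a * b) Z X`), `⊗ Z` on both sides, and isomorphisms. Induction on `r`: `T X (r+1) = T X r ⊗ X` contains `T X r ⊗ P` and `T X r ⊗ Y` orthogonally, hence `C(r, k-1)` copies of `(T P (k-1) ⊗ T Y (r+1-k)) ⊗ P ≅ T P k ⊗ T Y (r+1-k)` (symmetry) and, orthogonally, `C(r, k)` copies of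
`(T P k ⊗ T Y (r-k)) ⊗ Y ≅ T P k ⊗ T Y (r+1-k)`. The second claim: `T X r` contains `T Y r`. (It is convenient to prove `Cp` for disjoint unions: two families which are orthogonal to each other.) -/
def S_COP : Prop := (∀ (X P Y : C) (_ : Orth X P Y) (k m : ℕ),
    Cp ((k + m).choose k) (T P k ⊗ T Y m) (T X (k + m))) ∧
  (∀ (X Y : C) (i : Y ⟶ X) (p : X ⟶ Y), i ≫ p = 𝟙 Y → ∀ m, Cp 1 (T Y m) (T X m)) ∧
  (∀ (a b : ℕ) (X Y Z : C), Cp a Y X → Cp b Z Y → Cp (a * b) Z X) ∧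
  (∀ (a : ℕ) (X Y Z : C), Cp a Y X → Cp a (Z ⊗ Y) (Z ⊗ X))

/-- CPD. The linear map `(z s t) ↦ ∑ p s ≫ z s t ≫ i t` from `Fin c × Fin c → (Z ⟶ Z)` to `X ⟶ X` is injective. -/
def S_CPD : Prop := ∀ (X Z : C) (c : ℕ), 0 < c → Cp c Z X → Module.Finite ℚ (X ⟶ X) →
  Module.Finite ℚ (Z ⟶ Z) ∧ c ^ 2 * Module.finrank ℚ (Z ⟶ Z) ≤ Module.finrank ℚ (X ⟶ X)

/-- EMB. (1) Let `f : X ⟶ X` and `f ▷ X = 0`. Then `f = 0`: `𝟙 X` is the composite of `η ▷ X`, the associator and `X ◁ ε` (`ExactPairing.evaluation_coevaluation`), and `f ▷ X' ▷ X` is, by the symmetry, conjugate to `(f ▷ X) ▷ X'`, so it is zero, and `f ≫ (X ◁ ε) ...`. (2) `f ▷ T X k = 0` (`k ≥ 1`) implies `f ▷ T X (k-1) = 0`: put `g = f ▷ T X (k-1)`, an endomorphism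
of `U ≅ T X k`, and `g ▷ U = 0`, so `g = 0` by (1) for `U`. (Bracketings by `SymmetricCategory`; it may be easier to use `T X k ◁ f`.) So `f ↦ T X (r-1) ◁ f`, `(X ⟶ X) → (T X r ⟶ T X r)`, is injective. (3) If `𝟙 P ≠ 0` then `𝟙 (T P k) ≠ 0`: `𝟙 (𝟙_ C) ≠ 0` because `P ≅ P ⊗ 𝟙_ C`; if `𝟙 (T P (k+1)) = 𝟙 (T P k) ⊗ 𝟙 P = 0` then, as in (2) with `f = 𝟙`, `𝟙 (T P k) = 0`. -/
def S_EMB : Prop := (∀ (X : C) (r : ℕ), 0 < r → Module.Finite ℚ (T X r ⟶ T X r) →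
    Module.Finite ℚ (X ⟶ X)) ∧
  ∀ (P : C), 𝟙 P ≠ 0 → ∀ k, 𝟙 (T P k) ≠ 0

/-- DIM. `L y = Q ◁ y`, a linear map `(U ⟶ U) → (Q ⊗ U ⟶ Q ⊗ U)`; `V` its range. If `L y = 0` then `Q ◁ (y ≫ w) = 0`, so `Q ◁ (trace of y ≫ w) = 0` (the trace is a composite with `y ≫ w` in the middle), that is `val (tr (y ≫ w)) • 𝟙 (Q ⊗ 𝟙_ C) = 0`, so `val (tr (y ≫ w)) = 0` because `𝟙 Q ≠ 0`. So the functional `y ↦ val (tr (y ≫ y' t))` factors through `V` (`ker L ≤ ker`), and S_RKL for `V`;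
`finrank V ≤ finrank (Q ⊗ U ⟶ Q ⊗ U)`. -/
def S_DIM : Prop := ∀ (W : Fr C) (Q U : C), 𝟙 Q ≠ 0 → Module.Finite ℚ (Q ⊗ U ⟶ Q ⊗ U) →
  ∀ (ι : Type) [Fintype ι] (y y' : ι → (U ⟶ U)), (∑ s, W.val (tr U (y s ≫ y' s))) ^ 2 ≤
    (Module.finrank ℚ (Q ⊗ U ⟶ Q ⊗ U) : ℚ) * ∑ s, ∑ t, (W.val (tr U (y s ≫ y' t))) ^ 2

def M_DIM : Prop := S_RKL.{v} → S_DIM C

/-- CHI. Traces of permutations. `χ n σ = val (tr (ρ n σ))`: `χ 0 1 = 1` (`Fr.tr_unit`; `tr` is `tr (𝟙_ C)`), class function by `tr_comm` and `mul`, `χ (n+1) (up σ) = t χ n σ` with `t = val (tr (𝟙 X))` by `Fr.tr_tensor` (`f ▷ X = f ⊗ₘ 𝟙`), `χ (n+2) (up σ * s) = χ (n+1) σ` by `MotP.tr_swap` with `B = 𝟙`. Then S_GRP. Also `χ n 1 = t ^ n`. -/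
def S_CHI : Prop := ∀ (W : Fr C) (X : C) (R : PermAct X) (n : ℕ),
  ∑ σ, (W.val (tr (T X n) (R.ρ n σ))) ^ 2 =
    ∏ j ∈ Finset.range n, ((W.val (tr X (𝟙 X))) ^ 2 + j) ∧
  W.val (tr (T X n) (𝟙 (T X n))) = (W.val (tr X (𝟙 X))) ^ n

def M_CHI : Prop := S_GRP → S_CHI C

/-- GRM. Let `a`, `b` be the traces of `𝟙 A`, `𝟙 B`. S_DIM for `U = T A i ⊗ T B l`, `ι = Perm (Fin i) × Perm (Fin l)`, `y (σ, τ) = ρ σ ⊗ₘ ρ τ`, `y' (σ, τ) = ρ σ⁻¹ ⊗ₘ ρ τ⁻¹`. `y s ≫ y' s = 𝟙`, of trace `a ^ i * b ^ l` (`tr_tensor`, S_CHI), so the left side is `(i! l! a ^ i b ^ l)²`; the double sum is `(i! l!) * ∑_(σ, τ) χ_A(σ)² χ_B(τ)²` (substitute `s t⁻¹`). Divide by `i! l!`. -/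
def S_GRM : Prop := ∀ (W : Fr C) (Q A B : C) (i l : ℕ), 𝟙 Q ≠ 0 →
  Module.Finite ℚ (Q ⊗ (T A i ⊗ T B l) ⟶ Q ⊗ (T A i ⊗ T B l)) →
  (i.factorial : ℚ) * l.factorial * ((W.val (tr A (𝟙 A))) ^ i * (W.val (tr B (𝟙 B))) ^ l) ^ 2 ≤
    (Module.finrank ℚ (Q ⊗ (T A i ⊗ T B l) ⟶ Q ⊗ (T A i ⊗ T B l)) : ℚ) *
      ((∏ j ∈ Finset.range i, ((W.val (tr A (𝟙 A))) ^ 2 + j)) *
        ∏ j ∈ Finset.range l, ((W.val (tr B (𝟙 B))) ^ 2 + j))

def M_GRM : Prop := S_PRM C → S_DIM C → S_CHI C → S_GRM C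

/-- NET. The traces determine the net multiplicities: `∑ z in S, (ν X z - ν Y z) z ^ n = 0` for all `n` (`Mot.sum_nu`, extended to the union of both sets of eigenvalues), so `ν X = ν Y` by `Mot.lag` (and `Mot.nu_of_notMem` outside); `count z (α - β) = (ν z)⁺`. -/
def S_NET : Prop := ∀ (W : Fr C) (X Y : C), (∀ n, W.t X n = W.t Y n) →
  (∀ z, W.ν X z = W.ν Y z) ∧ W.bp X = W.bp Y ∧ W.bm X = W.bm Y

/-- DEC. Even and odd parts. As in `MotP.Frob.decomp` (file `Pool/Agent/MotP/Kim.lean`), but there numerically trivial morphisms are excluded; here `F` satisfies its minimal polynomial `m = minpoly ℚ (W.FE X)` (`X ⟶ X` is finite-dimensional). `ν_integral`, `ν_root`, `ν_galois` as in `MotP/Kim.lean`, `Mot/Dual.lean`, `Mot/Gal.lean` (they use only the finiteness of `End X`). Let `gp`, `gm` be the products of `minpoly ℚ z`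
over the `z` with `ν z > 0`, `ν z < 0`: coprime. Write `m = P * M * R`, `P` dividing a power of `gp`, `M` dividing a power of `gm`, `R` coprime to `gp` and `gm` (or take `N` large and use `gcd`); the three factors are pairwise coprime, the chinese remainder theorem gives polynomials `e_p, e_m` whose values at `F` are orthogonal idempotents, with `aeval z e_p = 1` if `ν z > 0`, `0` if `ν z < 0` (and conversely for `e_m`). They split:
`A`, `B`. `val (tr (𝟙 A)) = val (tr (e_p F)) = ∑ ν z * aeval z e_p = ∑_(ν z > 0) ν z = card (α - β)` (`tr_poly`), and `val (tr (𝟙 B)) = ∑_(ν z < 0) ν z = - card (β - α)`. -/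
def S_DEC : Prop := ∀ [IsIdempotentComplete C] (W : Fr C) (X : C), Module.Finite ℚ (X ⟶ X) →
  ∃ (A B : C) (_ : Orth X A B), W.val (tr A (𝟙 A)) = W.bp X ∧ W.val (tr B (𝟙 B)) = -(W.bm X : ℚ)

/-- TVA. `ν (X ⊗ Y) w = ∑ ν X z * ν Y z'` over all pairs of eigenvalues with `z z' = w` (the traces are multiplicative, `Fr.t_tensor`; uniqueness by `Mot.lag` as in NET), and `b X = ∑ |ν X z|`. `b (𝟙_ C) = 1`: all traces are `1`. Second claim by induction. -/
def S_TVA : Prop := ∀ (W : Fr C), (∀ X Y : C, W.b (X ⊗ Y) ≤ W.b X * W.b Y) ∧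
  W.b (𝟙_ C) = 1 ∧ (∀ (X : C) (n : ℕ), W.b (T X n) ≤ W.b X ^ n) ∧
  (∀ X : C, W.mult X ≤ W.b X)

/-- TVD. The dual: `t (X') n = ∑ ν X z * (z⁻¹) ^ n` (`Mot.Frob.t_dual` in `Pool/Agent/Mot/Dual.lean`, the proof uses only the finiteness of `End X`), so `ν X' w = ν X w⁻¹` and `b X' = b X`. -/
def S_TVD : Prop := ∀ (W : Fr C) (X : C), Module.Finite ℚ (X ⟶ X) → W.b Xᘁ ≤ W.b X

/-- NIL. Under the strong Tate conjecture nilpotence implies that numerically trivial morphisms are zero. By `MotP.nm`, `ev_surj`, `nm_ev`, `nm_inj` (see `MotP.Frob.num_zero` in `MotP/Reg.lean`) it is enough to treat `f : 𝟙 ⟶ Z` with `f ≫ g = 0` for all `g : Z ⟶ 𝟙`. Induction on `mult Z`. (a) `mult Z > 0`: by StrongTate some `h : 𝟙 ⟶ Z` is not in `ntSections Z`, `h ≫ g = 𝟙` for some `g` (scale), `Z = 𝟙 ⊕ Z'` (split `𝟙 - g ≫ h`),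
`f = f ≫ (𝟙 - g ≫ h)` factors through `Z'`, `mult Z' = mult Z - 1` (see `rank_aux` in `MotP/Base.lean`). (b) `mult Z = 0`: let `m = minpoly ℚ (W.FE Z) = (X - 1) ^ k * g`, `g(1) ≠ 0`; `e` the idempotent polynomial in `F` with image `Z₁` where `(F - 1) ^ k = 0`. Then `ν Z₁ z * (z - 1) ^ k = 0` (`Mot.lag`), so `ν Z₁ z = 0` for `z ≠ 1`, and `ν Z₁ 1 = mult Z₁ = 0` because
`mult Z = mult Z₁ + mult Z₂`. So all `t Z₁ n = 0`, `t (Z₁ ⊗ Z₁') n = 0`, `mult (Z₁ ⊗ Z₁') = 0`, by StrongTate all `𝟙 ⟶ Z₁ ⊗ Z₁'` are in `ntSections`, that is (`nm_surj`, `nm_ev`) all endomorphisms of `Z₁` are numerically trivial, in particular `𝟙 Z₁` is nilpotent, `Z₁ = 0`, `e = 0`. So `X - 1` does not divide `m`, `F - 1` is invertible on `Z`, and `f ≫ (F_Z - 1) = (F_𝟙 - 1) ≫ f = 0`, `f = 0`. -/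
def S_NIL : Prop := ∀ [IsIdempotentComplete C] (W : Fr C), W.StrongTate →
  (∀ X : C, Module.Finite ℚ (X ⟶ X)) →
  (∀ (X : C) (f : End X), NT (f : X ⟶ X) → IsNilpotent f) →
  ∀ (X Y : C) (f : X ⟶ Y), NT f → f = 0

/-- GAP (assembly). -/
def S_GAP : Prop := ∀ [IsIdempotentComplete C] (W : Fr C) (X : C) (r : ℕ), 0 < r →
  Module.Finite ℚ (T X r ⟶ T X r) → ∀ f : End X, NT (f : X ⟶ X) → ¬ IsNilpotent f →
  (W.b X + 1) ^ (2 * r) ≤
    (r + 1) ^ (W.bp X ^ 2 + W.bm X ^ 2 + 4) * Module.finrank ℚ (T X r ⟶ T X r)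

def M_GAP : Prop := S_NUM → S_RIS → S_COP C → S_CPD C → S_EMB C → S_GRM C → S_NET C → S_DEC C →
  S_GAP C

end

end MotP.GGap
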